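import Mathlib

namespace Pool.Agent.Work.MP_af588c_co.TB

/-- The number of maps `V(H) → Fin n` sending every edge of `H` to an edge of `E`. -/
noncomputable def copies {W : Type} {n : ℕ} (H : Set (Finset W)) (E : Finset (Finset (Fin n))) :
    ℕ :=
  Nat.card {φ : W → Fin n // ∀ e ∈ H, e.image φ ∈ E}

/-- Three parts, each with `t` ordinary vertices and one apex; the edges are all triples made of
the apex of one part and one ordinary vertex from each of the two other parts. -/
def book (t : ℕ) : Set (Finset (Fin 3 × Option (Fin t))) :=
  {e | ∃ (k : Fin 3) (a b : Fin t), e = {(k + 1, some a), (k + 2, some b), (k, none)}}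

/-- The expansion of the complete tripartite graph with parts of size `t`: each of its edges is
extended by one new private vertex. -/
def expansion (t : ℕ) : Set (Finset ((Fin 3 × Fin t) ⊕ (Fin 3 × Fin t × Fin t))) :=
  {e | ∃ (k : Fin 3) (a b : Fin t),
    e = {Sum.inl (k + 1, a), Sum.inl (k + 2, b), Sum.inr (k, a, b)}}

end Pool.Agent.Work.MP_af588c_co.TB
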