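import Mathlib
import Pool.Agent.Work.MP_af588c_co.TBDefs

-- merged part: Pool.Agent.Work.MP_af588c_co.TB1
section
/-! Basic averaging inequalities. -/

namespace Pool.Agent.Work.MP_af588c_co.TB

open Finset
open scoped BigOperators

variable {X Y Z : Type*} [Fintype X] [Fintype Y] [Fintype Z]

lemma exp_pow (f : X → ℝ) (n : ℕ) :
    (𝔼 x, f x) ^ n = 𝔼 p : Fin n → X, ∏ i, f (p i) := by
  classical
  rw [Finset.expect_pow, Fintype.piFinset_univ]

lemma exp_eq (f : X → ℝ) : 𝔼 x, f x = (∑ x, f x) / (Fintype.card X : ℝ) :=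
  Fintype.expect_eq_sum_div_card f

lemma exp_mono {f g : X → ℝ} (h : ∀ x, f x ≤ g x) : 𝔼 x, f x ≤ 𝔼 x, g x :=
  Finset.expect_le_expect fun x _ => h x

lemma exp_nonneg {f : X → ℝ} (h : ∀ x, 0 ≤ f x) : 0 ≤ 𝔼 x, f x :=
  Finset.expect_nonneg fun x _ => h x

lemma exp_prod (f : X × Y → ℝ) : 𝔼 p, f p = 𝔼 x, 𝔼 y, f (x, y) := by
  rw [← Finset.expect_product, Finset.univ_product_univ]

/-- weighted Jensen for powers -/
lemma jensen_pow (w f : X → ℝ) (hw : ∀ x, 0 ≤ w x) (hw1 : 𝔼 x, w x = 1) (hf : ∀ x, 0 ≤ f x)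
    (n : ℕ) : (𝔼 x, w x * f x) ^ n ≤ 𝔼 x, w x * f x ^ n := by
  have h := Real.pow_arith_mean_le_arith_mean_pow (Finset.univ : Finset X)
    (fun x => w x / (Fintype.card X : ℝ)) f (fun x _ => div_nonneg (hw x) (Nat.cast_nonneg _))
    (by rw [← Finset.sum_div, ← exp_eq, hw1]) (fun x _ => hf x) n
  rw [exp_eq, exp_eq, Finset.sum_div, Finset.sum_div]
  simpa [div_mul_eq_mul_div] using h

lemma jensen_even (w f : X → ℝ) (hw : ∀ x, 0 ≤ w x) (hw1 : 𝔼 x, w x = 1)
    {n : ℕ} (hn : Even n) : (𝔼 x, w x * f x) ^ n ≤ 𝔼 x, w x * f x ^ n := by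
  have h := Real.pow_arith_mean_le_arith_mean_pow_of_even (Finset.univ : Finset X)
    (fun x => w x / (Fintype.card X : ℝ)) f (fun x _ => div_nonneg (hw x) (Nat.cast_nonneg _))
    (by rw [← Finset.sum_div, ← exp_eq, hw1]) hn
  rw [exp_eq, exp_eq, Finset.sum_div, Finset.sum_div]
  simpa [div_mul_eq_mul_div] using h

/-- homogeneous Jensen: `(𝔼 w f)^n ≤ (𝔼 w)^(n-1) 𝔼 w f^n`, in product form -/
lemma jensen_hom (w f : X → ℝ) (hw : ∀ x, 0 ≤ w x) {W : ℝ} (hW : 0 < W) (hw1 : 𝔼 x, w x = W)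
    (hf : ∀ x, 0 ≤ f x) (n : ℕ) :
    W * ((𝔼 x, w x * f x) / W) ^ n ≤ 𝔼 x, w x * f x ^ n := by
  have h := jensen_pow (fun x => w x / W) f (fun x => div_nonneg (hw x) hW.le)
    (by rw [← Finset.expect_div, hw1, div_self hW.ne']) hf n
  simp only [div_mul_eq_mul_div] at h
  rw [← Finset.expect_div, ← Finset.expect_div, le_div_iff₀ hW] at h
  linarith only [h]

omit [Fintype X] in
/-- the rank lemma -/
lemma rank_sum (f : X → ℝ) (s : Finset X) :
    ∑ x ∈ s, 1 / Real.sqrt ((s.filter fun y => f x ≤ f y).card) ≤ 2 * Real.sqrt s.card := by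
  classical
  induction s using Finset.induction_on_min_value f with
  | empty => simp
  | insert a s ha hmin ih =>
    rw [Finset.sum_insert ha, Finset.card_insert_of_notMem ha]
    have h1 : ((insert a s).filter fun y => f a ≤ f y) = insert a s := by
      apply Finset.filter_true_of_mem
      intro y hy
      rcases Finset.mem_insert.1 hy with rfl | hy
      · exact le_rfl
      · exact hmin y hy
    rw [h1, Finset.card_insert_of_notMem ha]
    have h2 : ∑ x ∈ s, 1 / Real.sqrt (((insert a s).filter fun y => f x ≤ f y).card)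
        ≤ ∑ x ∈ s, 1 / Real.sqrt ((s.filter fun y => f x ≤ f y).card) := by
      refine Finset.sum_le_sum fun x hx => ?_
      have hpos : 0 < (s.filter fun y => f x ≤ f y).card :=
        Finset.card_pos.2 ⟨x, Finset.mem_filter.2 ⟨hx, le_rfl⟩⟩
      apply one_div_le_one_div_of_le
      · exact Real.sqrt_pos.2 (by exact_mod_cast hpos)
      · apply Real.sqrt_le_sqrt
        exact_mod_cast Finset.card_le_card
          (Finset.filter_subset_filter _ (Finset.subset_insert a s))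
    have h3 : 1 / Real.sqrt ((s.card + 1 : ℕ) : ℝ) + 2 * Real.sqrt s.card
        ≤ 2 * Real.sqrt ((s.card + 1 : ℕ) : ℝ) := by
      set m : ℝ := (s.card : ℝ) with hm
      have hm0 : 0 ≤ m := Nat.cast_nonneg _
      have e : ((s.card + 1 : ℕ) : ℝ) = m + 1 := by push_cast; ring
      rw [e]
      have hA : 0 < Real.sqrt (m + 1) := Real.sqrt_pos.2 (by linarith)
      have hA2 : Real.sqrt (m + 1) ^ 2 = m + 1 := Real.sq_sqrt (by linarith)
      have hB2 : Real.sqrt m ^ 2 = m := Real.sq_sqrt hm0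
      rw [div_add' _ _ _ hA.ne', div_le_iff₀ hA]
      linarith only [hA2, hB2, sq_nonneg (Real.sqrt (m + 1) - Real.sqrt m), sq_nonneg (√(m + (1 : ℝ)) - √m)]
    linarith only [ih, h2, h3]

/-- weak type bound implies moment bound -/
lemma weak_moment [Nonempty X] (f : X → ℝ) (hf : ∀ x, 0 ≤ f x) {M γ : ℝ} (hM : 0 ≤ M)
    (hγ : 0 ≤ γ) (j : ℕ) (hj : γ * j ≤ 1 / 2)
    (h : ∀ U : Finset X, (∑ x ∈ U, f x) / (Fintype.card X : ℝ)
      ≤ M * ((U.card : ℝ) / (Fintype.card X : ℝ)) ^ (1 - γ)) :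
    𝔼 x, f x ^ j ≤ 2 * M ^ j := by
  classical
  have hN : (0 : ℝ) < Fintype.card X := by exact_mod_cast Fintype.card_pos
  have key : ∀ x, f x ^ j ≤ M ^ j * (Real.sqrt (Fintype.card X) *
      (1 / Real.sqrt ((Finset.univ.filter fun y => f x ≤ f y).card))) := by
    intro x
    set U := Finset.univ.filter fun y => f x ≤ f y with hU
    have hpos : (0 : ℝ) < U.card := by
      have hx : x ∈ U := Finset.mem_filter.2 ⟨Finset.mem_univ _, le_rfl⟩
      exact_mod_cast Finset.card_pos.2 ⟨x, hx⟩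
    set r : ℝ := (U.card : ℝ) / (Fintype.card X : ℝ) with hr
    have hr0 : 0 < r := div_pos hpos hN
    have hr1 : r ≤ 1 := by
      rw [hr, div_le_one hN]; exact_mod_cast Finset.card_le_univ U
    have h1 : r * f x ≤ M * r ^ (1 - γ) := by
      refine le_trans ?_ (h U)
      rw [hr, div_mul_eq_mul_div]
      apply div_le_div_of_nonneg_right _ hN.le
      have := Finset.card_nsmul_le_sum U f (f x) fun y hy => (Finset.mem_filter.1 hy).2
      simpa [nsmul_eq_mul] using this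
    have h2 : f x ≤ M * r ^ (-γ) := by
      have e : r ^ (1 - γ) = r * r ^ (-γ) := by
        rw [sub_eq_add_neg, Real.rpow_add hr0, Real.rpow_one]
      rw [e] at h1
      have : r * f x ≤ r * (M * r ^ (-γ)) := by linarith only [h1]
      exact le_of_mul_le_mul_left this hr0
    have h3 : (r ^ (-γ)) ^ j ≤ r ^ (-(1 / 2 : ℝ)) := by
      rw [← Real.rpow_natCast, ← Real.rpow_mul hr0.le]
      apply Real.rpow_le_rpow_of_exponent_ge hr0 hr1
      linarith only [hj]
    have h4 : r ^ (-(1 / 2 : ℝ)) = Real.sqrt (Fintype.card X) * (1 / Real.sqrt U.card) := by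
      rw [Real.rpow_neg hr0.le, ← Real.sqrt_eq_rpow, hr, Real.sqrt_div hpos.le]
      have := Real.sqrt_pos.2 hpos
      have := Real.sqrt_pos.2 hN
      field_simp
    calc f x ^ j ≤ (M * r ^ (-γ)) ^ j := pow_le_pow_left₀ (hf x) h2 j
      _ = M ^ j * (r ^ (-γ)) ^ j := mul_pow _ _ _
      _ ≤ M ^ j * r ^ (-(1 / 2 : ℝ)) := mul_le_mul_of_nonneg_left h3 (pow_nonneg hM j)
      _ = _ := by rw [h4]
  refine le_trans (exp_mono key) ?_
  rw [← Finset.mul_expect, ← Finset.mul_expect, exp_eq, mul_comm 2]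
  apply mul_le_mul_of_nonneg_left _ (pow_nonneg hM j)
  have h5 := rank_sum f (Finset.univ : Finset X)
  rw [Finset.card_univ] at h5
  have hs := Real.sqrt_pos.2 hN
  have hs2 : Real.sqrt (Fintype.card X) * Real.sqrt (Fintype.card X) = Fintype.card X :=
    Real.mul_self_sqrt hN.le
  rw [← mul_div_assoc, div_le_iff₀ hN]
  linarith only [hs2, h5, hs, mul_nonneg_of_nonpos_of_nonpos (Mathlib.Tactic.Linarith.sub_nonpos_of_le h5) (le_of_lt (Mathlib.Tactic.Linarith.sub_neg_of_lt hs))]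

/-- from sets to weights -/
lemma weights_of_sets [Nonempty X] (l : X → ℝ) {M γ : ℝ} (hM : 0 ≤ M) (hγ : 0 ≤ γ) (hγ1 : γ ≤ 1)
    (h : ∀ U : Finset X, (∑ x ∈ U, l x) / (Fintype.card X : ℝ)
      ≤ M * ((U.card : ℝ) / (Fintype.card X : ℝ)) ^ (1 - γ))
    (u : X → ℝ) (hu0 : ∀ x, 0 ≤ u x) (hu1 : ∀ x, u x ≤ 1) :
    𝔼 x, u x * l x ≤ M * (𝔼 x, u x) ^ (1 - γ) := by
  classical
  have hN : (0 : ℝ) < Fintype.card X := by exact_mod_cast Fintype.card_pos
  set S := 𝔼 x, u x with hS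
  have hS0 : 0 ≤ S := exp_nonneg hu0
  rcases hS0.eq_or_lt with h0 | hpos
  · have : ∀ x, u x = 0 := by
      have h1 := (Finset.expect_eq_zero_iff_of_nonneg (s := Finset.univ) (f := u)
        (fun x _ => hu0 x)).1 h0.symm
      exact fun x => h1 x (Finset.mem_univ x)
    simp only [this, zero_mul, Finset.expect_const_zero]
    exact mul_nonneg hM (Real.rpow_nonneg hS0 _)
  · set c : ℝ := M * (1 - γ) * S ^ (-γ) with hc
    set U := Finset.univ.filter fun x => c ≤ l x with hU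
    set r : ℝ := (U.card : ℝ) / (Fintype.card X : ℝ) with hr
    have hr0 : 0 ≤ r := div_nonneg (Nat.cast_nonneg _) hN.le
    have eS : S ^ (1 - γ) = S * S ^ (-γ) := by
      rw [sub_eq_add_neg, Real.rpow_add hpos, Real.rpow_one]
    have hT : r ^ (1 - γ) ≤ (1 - γ) * S ^ (-γ) * r + γ * S ^ (1 - γ) := by
      have h1 := Real.geom_mean_le_arith_mean2_weighted (w₁ := 1 - γ) (w₂ := γ) (p₁ := r)
        (p₂ := S) (by linarith only [hγ1]) hγ hr0 hS0 (by ring)
      have h2 : S ^ γ * S ^ (-γ) = 1 := by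
        rw [← Real.rpow_add hpos]; simp
      have h3 : 0 < S ^ (-γ) := Real.rpow_pos_of_pos hpos _
      have h4 := mul_le_mul_of_nonneg_right h1 h3.le
      rw [mul_assoc, h2, mul_one] at h4
      rw [eS]; linarith only [h4]
    have h5 : 𝔼 x, u x * (l x - c) ≤ (∑ x ∈ U, l x) / (Fintype.card X : ℝ) - c * r := by
      rw [exp_eq, hr, ← mul_div_assoc, ← sub_div]
      apply div_le_div_of_nonneg_right _ hN.le
      have : ∑ x ∈ U, l x - c * U.card = ∑ x, if c ≤ l x then l x - c else 0 := by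
        rw [← Finset.sum_filter, Finset.sum_sub_distrib]
        simp [hU, mul_comm]
      rw [this]
      refine Finset.sum_le_sum fun x _ => ?_
      split_ifs with hx
      · linarith only [hx, hu1, hu0 x, hu1 x, mul_nonneg_of_nonpos_of_nonpos (Mathlib.Tactic.Linarith.sub_nonpos_of_le hx) (Mathlib.Tactic.Linarith.sub_nonpos_of_le (hu1 x))]
      · linarith only [hx, hu0, hu0 x, hu1 x, mul_nonneg_of_nonpos_of_nonpos (le_of_lt (Mathlib.Tactic.Linarith.sub_neg_of_lt (lt_of_not_ge hx))) (Mathlib.Tactic.Linarith.sub_nonpos_of_le (hu0 x))]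
    have h6 : 𝔼 x, u x * (l x - c) = (𝔼 x, u x * l x) - c * S := by
      simp only [mul_sub]
      rw [Finset.expect_sub_distrib, ← Finset.expect_mul, hS, mul_comm c]
    have h7 := h U
    rw [← hr] at h7
    have h8 := mul_le_mul_of_nonneg_left hT hM
    have h9 : c * S = M * (1 - γ) * S ^ (1 - γ) := by rw [hc, eS]; ring
    have h10 : c * r = M * ((1 - γ) * S ^ (-γ) * r) := by rw [hc]; ring
    linarith only [h5, h6, h7, h8, h9]

end Pool.Agent.Work.MP_af588c_co.TB
end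

-- merged part: Pool.Agent.Work.MP_af588c_co.TB2
section
/-! Spread kernels and their codegree moments. -/

set_option linter.unusedSectionVars false

namespace Pool.Agent.Work.MP_af588c_co.TB

open Finset
open scoped BigOperators

variable {X Y Z : Type*} [Fintype X] [Fintype Y] [Fintype Z]

structure Spread (a : X → Y → ℝ) (P γ : ℝ) : Prop where
  nonneg : ∀ x y, 0 ≤ a x y
  le : ∀ x y, a x y ≤ P
  mean : 𝔼 y, 𝔼 x, a x y = 1
  box : ∀ (A : Finset X) (B : Finset Y),
    (∑ x ∈ A, ∑ y ∈ B, a x y) / ((Fintype.card X : ℝ) * (Fintype.card Y : ℝ))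
      ≤ (((A.card : ℝ) / (Fintype.card X : ℝ)) * ((B.card : ℝ) / (Fintype.card Y : ℝ))) ^ (1 - γ)

noncomputable def deg (a : X → Y → ℝ) (y : Y) : ℝ := 𝔼 x, a x y

noncomputable def cod (a : X → Y → ℝ) (b : X → Z → ℝ) (y : Y) (z : Z) : ℝ := 𝔼 x, a x y * b x z

noncomputable def kap (a : X → Y → ℝ) (b : X → Z → ℝ) (y : Y) (z : Z) : ℝ :=
  𝔼 x, (a x y - 1) * (b x z - 1)

omit [Fintype Y] [Fintype Z] in
lemma kap_eq [Nonempty X] (a : X → Y → ℝ) (b : X → Z → ℝ) (y : Y) (z : Z) :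
    kap a b y z = cod a b y z - deg a y - deg b z + 1 := by
  unfold kap cod deg
  have : ∀ x, (a x y - 1) * (b x z - 1) = a x y * b x z - a x y - b x z + 1 := fun x => by ring
  simp only [this]
  rw [Finset.expect_add_distrib, Finset.expect_sub_distrib, Finset.expect_sub_distrib,
    Fintype.expect_const]

variable [Nonempty X] [Nonempty Y] [Nonempty Z] {a : X → Y → ℝ} {b : X → Z → ℝ} {P γ : ℝ}

lemma Spread.deg_weak (h : Spread a P γ) (B : Finset Y) :
    (∑ y ∈ B, deg a y) / (Fintype.card Y : ℝ)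
      ≤ 1 * ((B.card : ℝ) / (Fintype.card Y : ℝ)) ^ (1 - γ) := by
  have hX : (0 : ℝ) < Fintype.card X := by exact_mod_cast Fintype.card_pos
  have h1 := h.box Finset.univ B
  rw [Finset.card_univ, div_self hX.ne', one_mul] at h1
  rw [one_mul]
  refine le_of_eq_of_le ?_ h1
  simp only [deg, exp_eq]
  rw [← Finset.sum_div, Finset.sum_comm, div_div]

lemma Spread.deg_ge (h : Spread a P γ) (hγ : 0 ≤ γ) (hγ1 : γ ≤ 1) (y : Y) : 1 - γ ≤ deg a y := by
  classical
  have hY : (0 : ℝ) < Fintype.card Y := by exact_mod_cast Fintype.card_pos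
  have hY1 : (1 : ℝ) ≤ Fintype.card Y := by exact_mod_cast Fintype.card_pos
  have h1 := h.deg_weak (Finset.univ.erase y)
  have h2 : ∑ y' ∈ Finset.univ.erase y, deg a y' = Fintype.card Y - deg a y := by
    have h3 := Finset.add_sum_erase Finset.univ (deg a) (Finset.mem_univ y)
    have h4 := h.mean
    rw [exp_eq, div_eq_one_iff_eq hY.ne'] at h4
    unfold deg at *
    linarith only [h3, h4]
  have h5 : (((Finset.univ.erase y).card : ℕ) : ℝ) / (Fintype.card Y : ℝ)
      = 1 + (-(1 / (Fintype.card Y : ℝ))) := by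
    rw [Finset.card_erase_of_mem (Finset.mem_univ y), Finset.card_univ,
      Nat.cast_sub Fintype.card_pos]
    field_simp
    simp
    ring
  rw [h2, h5, one_mul] at h1
  have h6 := rpow_one_add_le_one_add_mul_self (s := -(1 / (Fintype.card Y : ℝ)))
    (p := 1 - γ) (by rw [neg_le_neg_iff, div_le_one hY]; exact hY1) (by linarith only [hγ1]) (by linarith only [hγ])
  have h7 := h1.trans h6
  rw [div_le_iff₀ hY] at h7
  have h8 : (1 + (1 - γ) * -(1 / (Fintype.card Y : ℝ))) * (Fintype.card Y : ℝ)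
      = Fintype.card Y - (1 - γ) := by field_simp; ring
  rw [h8] at h7
  linarith only [h7]

lemma Spread.deg_nonneg (h : Spread a P γ) (y : Y) : 0 ≤ deg a y :=
  exp_nonneg fun x => h.nonneg x y

lemma Spread.cod_weak (h : Spread a P γ) (hP : 1 ≤ P) (hγ : 0 ≤ γ) (hγ1 : γ ≤ 1) (y : Y)
    (B : Finset Y) :
    (∑ y' ∈ B, cod a a y y') / (Fintype.card Y : ℝ)
      ≤ (P ^ γ * deg a y ^ (1 - γ)) * ((B.card : ℝ) / (Fintype.card Y : ℝ)) ^ (1 - γ) := by
  have hX : (0 : ℝ) < Fintype.card X := by exact_mod_cast Fintype.card_pos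
  have hY : (0 : ℝ) < Fintype.card Y := by exact_mod_cast Fintype.card_pos
  have hP0 : 0 < P := by linarith
  set β : ℝ := (B.card : ℝ) / (Fintype.card Y : ℝ) with hβ
  have hβ0 : 0 ≤ β := div_nonneg (Nat.cast_nonneg _) hY.le
  have h1 := weights_of_sets (fun x => (∑ y' ∈ B, a x y') / (Fintype.card Y : ℝ))
    (M := β ^ (1 - γ)) (Real.rpow_nonneg hβ0 _) hγ hγ1 (fun U => by
      have h2 := h.box U B
      rw [Real.mul_rpow (div_nonneg (Nat.cast_nonneg _) hX.le) hβ0] at h2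
      refine le_of_eq_of_le ?_ (h2.trans (le_of_eq (mul_comm _ _)))
      rw [← Finset.sum_div, div_div, mul_comm])
    (fun x => a x y / P) (fun x => div_nonneg (h.nonneg x y) hP0.le)
    (fun x => (div_le_one hP0).2 (h.le x y))
  have h3 : 𝔼 x, a x y / P = deg a y / P := by rw [deg, Finset.expect_div]
  have h4 : 𝔼 x, a x y / P * ((∑ y' ∈ B, a x y') / (Fintype.card Y : ℝ))
      = (∑ y' ∈ B, cod a a y y') / (Fintype.card Y : ℝ) / P := by
    unfold cod
    rw [← Finset.expect_sum_comm, Finset.expect_div, Finset.expect_div]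
    refine Finset.expect_congr rfl fun x _ => ?_
    rw [← Finset.mul_sum]; ring
  rw [h3, h4, div_le_iff₀ hP0, Real.div_rpow (h.deg_nonneg y) hP0.le] at h1
  refine h1.trans (le_of_eq ?_)
  have h5 : P ^ (1 - γ) * P ^ γ = P := by rw [← Real.rpow_add hP0]; simp
  have h6 : 0 < P ^ (1 - γ) := Real.rpow_pos_of_pos hP0 _
  field_simp
  rw [mul_assoc, mul_assoc, h5, mul_assoc]

lemma Spread.cod_nonneg (h : Spread a P γ) (h' : Spread b P γ) (y : Y) (z : Z) :
    0 ≤ cod a b y z :=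
  exp_nonneg fun x => mul_nonneg (h.nonneg x y) (h'.nonneg x z)

lemma Spread.cod_moment (h : Spread a P γ) (hP : 1 ≤ P) (hγ : 0 ≤ γ) (hγ1 : γ ≤ 1) (j : ℕ)
    (hj : γ * j ≤ 1 / 2) : 𝔼 y, 𝔼 y', cod a a y y' ^ j ≤ 6 * Real.sqrt P := by
  have hP0 : 0 < P := by linarith only [hP]
  have h1 : ∀ y, 𝔼 y', cod a a y y' ^ j ≤ 2 * Real.sqrt P * (1 + deg a y ^ j) := by
    intro y
    have hd := h.deg_nonneg y
    have h2 := weak_moment (cod a a y) (h.cod_nonneg h y)
      (mul_nonneg (Real.rpow_nonneg hP0.le _) (Real.rpow_nonneg hd _)) hγ j hj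
      (h.cod_weak hP hγ hγ1 y)
    refine h2.trans ?_
    rw [mul_pow, mul_assoc]
    apply mul_le_mul_of_nonneg_left _ (by norm_num)
    apply mul_le_mul
    · rw [← Real.rpow_natCast, ← Real.rpow_mul hP0.le, Real.sqrt_eq_rpow]
      exact Real.rpow_le_rpow_of_exponent_le hP hj
    · rcases le_total (deg a y) 1 with h3 | h3
      · have : (deg a y ^ (1 - γ)) ^ j ≤ 1 :=
          pow_le_one₀ (Real.rpow_nonneg hd _) (Real.rpow_le_one hd h3 (by linarith only [hγ1]))
        have := pow_nonneg hd j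
        linarith
      · have h4 : deg a y ^ (1 - γ) ≤ deg a y := by
          conv_rhs => rw [← Real.rpow_one (deg a y)]
          exact Real.rpow_le_rpow_of_exponent_le h3 (by linarith only [hγ])
        have := pow_le_pow_left₀ (Real.rpow_nonneg hd _) h4 j
        linarith only [this]
    · exact pow_nonneg (Real.rpow_nonneg hd _) j
    · exact Real.sqrt_nonneg _
  refine (exp_mono h1).trans ?_
  rw [← Finset.mul_expect, Finset.expect_add_distrib, Fintype.expect_const]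
  have h5 := weak_moment (deg a) h.deg_nonneg zero_le_one hγ j hj h.deg_weak
  rw [one_pow] at h5
  have := Real.sqrt_nonneg P
  linarith only [h5, this, mul_nonneg_of_nonpos_of_nonpos (Mathlib.Tactic.Linarith.sub_nonpos_of_le h5) (Mathlib.Tactic.Linarith.sub_nonpos_of_le this)]

omit [Nonempty X] [Nonempty Y] [Nonempty Z] in
lemma moment_expand (f : X → Y → ℝ) (g : X → Z → ℝ) (j : ℕ) :
    𝔼 y, 𝔼 z, (𝔼 x, f x y * g x z) ^ j
      = 𝔼 p : Fin j → X, (𝔼 y, ∏ i, f (p i) y) * (𝔼 z, ∏ i, g (p i) z) := by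
  simp only [exp_pow, Finset.prod_mul_distrib, Finset.expect_mul_expect]
  rw [Finset.expect_comm (Finset.univ : Finset (Fin j → X))]
  refine Finset.expect_congr rfl fun y _ => ?_
  rw [Finset.expect_comm]

omit [Nonempty X] [Nonempty Y] [Nonempty Z] in
lemma moment_psd (f : X → Y → ℝ) (j : ℕ) : 0 ≤ 𝔼 y, 𝔼 y', (𝔼 x, f x y * f x y') ^ j := by
  rw [moment_expand]
  exact exp_nonneg fun p => mul_self_nonneg _

omit [Nonempty X] [Nonempty Y] [Nonempty Z] in
lemma moment_cs (f : X → Y → ℝ) (g : X → Z → ℝ) (j : ℕ) {K : ℝ}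
    (hf : 𝔼 y, 𝔼 y', (𝔼 x, f x y * f x y') ^ j ≤ K)
    (hg : 𝔼 z, 𝔼 z', (𝔼 x, g x z * g x z') ^ j ≤ K) :
    𝔼 y, 𝔼 z, (𝔼 x, f x y * g x z) ^ j ≤ K := by
  rw [moment_expand] at hf hg ⊢
  have : 𝔼 p : Fin j → X, (𝔼 y, ∏ i, f (p i) y) * (𝔼 z, ∏ i, g (p i) z)
      ≤ 𝔼 p : Fin j → X, ((𝔼 y, ∏ i, f (p i) y) * (𝔼 y, ∏ i, f (p i) y)
        + (𝔼 z, ∏ i, g (p i) z) * (𝔼 z, ∏ i, g (p i) z)) / 2 :=
    exp_mono fun p => by
      linarith only [sq_nonneg ((𝔼 y, ∏ i, f (p i) y) - (𝔼 z, ∏ i, g (p i) z)), sq_nonneg (𝔼 y, ∏ i, f (p i) y - 𝔼 z, ∏ i, g (p i) z)]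
  rw [← Finset.expect_div, Finset.expect_add_distrib] at this
  linarith only [hf, hg, this]

lemma Spread.kap_moment (h : Spread a P γ) (hP : 1 ≤ P) (hγ : 0 ≤ γ) {s q : ℕ} (hs : Odd s)
    (hγs : γ * s ≤ 1 / 2) (hq : q ≤ s) :
    (s.choose q : ℝ) * 𝔼 y, 𝔼 y', kap a a y y' ^ q ≤ 21 * Real.sqrt P := by
  have hs1 : (1 : ℝ) ≤ s := by exact_mod_cast hs.pos
  have hγ1 : γ ≤ 1 := by (refine le_of_not_gt fun h_nl => ?_; linarith only [h_nl, hγs, hs1, mul_nonneg_of_nonpos_of_nonpos (Mathlib.Tactic.Linarith.sub_nonpos_of_le (Mathlib.Tactic.Linarith.natCast_nonneg ℝ s)) (le_of_lt (Mathlib.Tactic.Linarith.sub_neg_of_lt h_nl))])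
  have h1 : (s.choose q : ℝ) * 𝔼 y, 𝔼 y', kap a a y y' ^ q
      ≤ 𝔼 y, 𝔼 y', (kap a a y y' + 1) ^ s := by
    simp only [add_pow, one_pow, mul_one, Finset.expect_sum_comm, ← Finset.expect_mul]
    rw [mul_comm]
    exact Finset.single_le_sum
      (f := fun m => (𝔼 y, 𝔼 y', kap a a y y' ^ m) * (s.choose m : ℝ))
      (fun m _ => mul_nonneg (moment_psd (fun x y => a x y - 1) m) (Nat.cast_nonneg _))
      (Finset.mem_range.2 (Nat.lt_succ_of_le hq))
  have he : (1 + 2 * γ) ^ s ≤ 3 := by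
    have h2 : 1 + 2 * γ ≤ Real.exp (2 * γ) := by linarith only [Real.add_one_le_exp (2 * γ)]
    have h3 := pow_le_pow_left₀ (by linarith only [hγ]) h2 s
    rw [← Real.exp_nat_mul] at h3
    have h4 : Real.exp (s * (2 * γ)) ≤ Real.exp 1 := Real.exp_le_exp.2 (by linarith only [hγs])
    have := Real.exp_one_lt_d9
    linarith only [h3, h4, this]
  have h5 : ∀ y y', (kap a a y y' + 1) ^ s ≤ 3 * (cod a a y y' ^ s + 1) := by
    intro y y'
    have hc := h.cod_nonneg h y y'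
    have h6 : kap a a y y' + 1 ≤ max (cod a a y y') 1 * (1 + 2 * γ) := by
      rw [kap_eq]
      have := h.deg_ge hγ hγ1 y
      have := h.deg_ge hγ hγ1 y'
      have h7 := le_max_left (cod a a y y') 1
      have h8 := le_max_right (cod a a y y') 1
      nlinarith
    have h9 := hs.strictMono_pow.monotone h6
    simp only [mul_pow] at h9
    have h10 : max (cod a a y y') 1 ^ s ≤ cod a a y y' ^ s + 1 := by
      have := pow_nonneg hc s
      rcases le_total (cod a a y y') 1 with h11 | h11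
      · rw [max_eq_right h11, one_pow]; linarith only [this]
      · rw [max_eq_left h11]; linarith only []
    have h12 : 0 ≤ max (cod a a y y') 1 ^ s := pow_nonneg (le_trans hc (le_max_left _ _)) s
    linarith only [h9, h10, he, h12, mul_nonneg_of_nonpos_of_nonpos (Mathlib.Tactic.Linarith.sub_nonpos_of_le he) (Mathlib.Tactic.Linarith.sub_nonpos_of_le h12)]
  have h13 : 𝔼 y, 𝔼 y', (kap a a y y' + 1) ^ s ≤ 𝔼 y, 𝔼 y', 3 * (cod a a y y' ^ s + 1) :=
    exp_mono fun y => exp_mono fun y' => h5 y y'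
  simp only [← Finset.mul_expect, Finset.expect_add_distrib, Fintype.expect_const] at h13
  have h14 := h.cod_moment hP hγ hγ1 s hγs
  have h15 : 1 ≤ Real.sqrt P := Real.one_le_sqrt.2 hP
  linarith only [h1, h13, h14, h15]

end Pool.Agent.Work.MP_af588c_co.TB
end

-- merged part: Pool.Agent.Work.MP_af588c_co.TB3
section
/-! The loose triangle lemma and the blow-up count for spread kernels. -/

set_option linter.unusedSectionVars false

namespace Pool.Agent.Work.MP_af588c_co.TB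

open Finset
open scoped BigOperators

variable {X Y Z : Type*} [Fintype X] [Fintype Y] [Fintype Z]
variable [Nonempty X] [Nonempty Y] [Nonempty Z] {a : X → Y → ℝ} {b : X → Z → ℝ} {P γ : ℝ}

lemma choose_lower {s q : ℕ} (hq : 0 < q) (h : 2 * q ≤ s) :
    ((s : ℝ) / (2 * q)) ^ q ≤ (s.choose q : ℝ) := by
  have h1 := Nat.pow_le_choose (α := ℝ) q s
  refine le_trans ?_ h1
  have hq' : (0 : ℝ) < q := by exact_mod_cast hq
  have h2 : (s : ℝ) / 2 ≤ ((s + 1 - q : ℕ) : ℝ) := by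
    rw [Nat.cast_sub (by omega)]
    have : (2 * q : ℝ) ≤ s := by exact_mod_cast h
    push_cast; linarith only [this]
  have h3 : ((q.factorial : ℕ) : ℝ) ≤ (q : ℝ) ^ q := by exact_mod_cast Nat.factorial_le_pow q
  rw [← div_div, div_pow]
  exact div_le_div₀ (by positivity) (pow_le_pow_left₀ (by positivity) h2 q)
    (by exact_mod_cast q.factorial_pos) h3

lemma cross (ha : Spread a P γ) (hb : Spread b P γ) (hP : 1 ≤ P) (hγ : 0 ≤ γ) {s q : ℕ}
    (hs : Odd s) (hγs : γ * s ≤ 1 / 2) (hq0 : 0 < q) (hqe : Even q) (hq : 2 * q ≤ s)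
    (hPq : 21 * Real.sqrt P * P ≤ 3 ^ q) (c : Y → Z → ℝ) (hc0 : ∀ y z, 0 ≤ c y z)
    (hc1 : ∀ y z, c y z ≤ P) (hc : 𝔼 y, 𝔼 z, c y z = 1) :
    1 - 2 * γ - 6 * q / s ≤ 𝔼 y, 𝔼 z, c y z * cod a b y z := by
  have hs1 : (1 : ℝ) ≤ s := by exact_mod_cast hs.pos
  have hq1 : (0 : ℝ) < q := by exact_mod_cast hq0
  have hγ1 : γ ≤ 1 := by (refine le_of_not_gt fun h_nl => ?_; linarith only [h_nl, hγs, hs1, mul_nonneg_of_nonpos_of_nonpos (Mathlib.Tactic.Linarith.sub_nonpos_of_le (Mathlib.Tactic.Linarith.natCast_nonneg ℝ s)) (le_of_lt (Mathlib.Tactic.Linarith.sub_neg_of_lt h_nl))])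
  have hch := choose_lower hq0 hq
  have hch0 : 0 < ((s : ℝ) / (2 * q)) ^ q := by positivity
  have hC : (0 : ℝ) < s.choose q := lt_of_lt_of_le hch0 hch
  have h1 := ha.kap_moment hP hγ hs hγs (show q ≤ s by omega)
  have h2 := hb.kap_moment hP hγ hs hγs (show q ≤ s by omega)
  rw [mul_comm, ← le_div_iff₀ hC] at h1 h2
  have h3 := moment_cs (fun x y => a x y - 1) (fun x z => b x z - 1) q h1 h2
  have h4 : (𝔼 y, 𝔼 z, c y z * kap a b y z) ^ q ≤ P * (21 * Real.sqrt P / s.choose q) := by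
    have h5 := jensen_even (fun p : Y × Z => c p.1 p.2) (fun p => kap a b p.1 p.2)
      (fun p => hc0 _ _) (by rw [exp_prod]; exact hc) hqe
    rw [exp_prod, exp_prod] at h5
    refine h5.trans ?_
    have h6 : 𝔼 y, 𝔼 z, c y z * kap a b y z ^ q ≤ 𝔼 y, 𝔼 z, P * kap a b y z ^ q :=
      exp_mono fun y => exp_mono fun z =>
        mul_le_mul_of_nonneg_right (hc1 y z) (hqe.pow_nonneg _)
    simp only [← Finset.mul_expect] at h6
    exact h6.trans (mul_le_mul_of_nonneg_left h3 (by linarith only [hP]))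
  have h7 : P * (21 * Real.sqrt P / s.choose q) ≤ (6 * q / s) ^ q := by
    rw [← mul_div_assoc, div_le_iff₀ hC]
    have e : (6 * q / s : ℝ) ^ q * ((s : ℝ) / (2 * q)) ^ q = 3 ^ q := by
      rw [← mul_pow]; congr 1; field_simp; norm_num
    have := mul_le_mul_of_nonneg_left hch (show (0 : ℝ) ≤ (6 * q / s) ^ q by positivity)
    linarith only [hPq, e, this]
  have h8 : |𝔼 y, 𝔼 z, c y z * kap a b y z| ≤ 6 * q / s := by
    apply le_of_pow_le_pow_left₀ hq0.ne' (by positivity)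
    rw [hqe.pow_abs]
    exact h4.trans h7
  have h9 : 𝔼 y, 𝔼 z, (c y z * kap a b y z + (1 - 2 * γ) * c y z)
      ≤ 𝔼 y, 𝔼 z, c y z * cod a b y z := by
    refine exp_mono fun y => exp_mono fun z => ?_
    rw [kap_eq]
    have := ha.deg_ge hγ hγ1 y
    have := hb.deg_ge hγ hγ1 z
    have := hc0 y z
    nlinarith
  simp only [Finset.expect_add_distrib, ← Finset.mul_expect, hc] at h9
  have := neg_abs_le (𝔼 y, 𝔼 z, c y z * kap a b y z)
  linarith only [h8, h9, this]

/-- weighted Sidorenko inequality for complete bipartite graphs -/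
lemma sidorenko (u : Y → ℝ) (v : Z → ℝ) (h : Y → Z → ℝ) (hu : ∀ y, 0 ≤ u y) (hv : ∀ z, 0 ≤ v z)
    (hh : ∀ y z, 0 ≤ h y z) (hU : 0 < 𝔼 y, u y) (hV : 0 < 𝔼 z, v z) (t : ℕ) :
    ((𝔼 y, u y) * 𝔼 z, v z) ^ t
        * ((𝔼 y, 𝔼 z, u y * v z * h y z) / ((𝔼 y, u y) * 𝔼 z, v z)) ^ (t * t)
      ≤ 𝔼 q : Fin t → Y, 𝔼 r : Fin t → Z,
        (∏ j, u (q j)) * (∏ j, v (r j)) * ∏ i, ∏ j, h (q i) (r j) := by
  set U := 𝔼 y, u y with hUd
  set V := 𝔼 z, v z with hVd
  set H := 𝔼 y, 𝔼 z, u y * v z * h y z with hH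
  have e1 : ∀ q : Fin t → Y, 𝔼 r : Fin t → Z,
      (∏ j, u (q j)) * (∏ j, v (r j)) * ∏ i, ∏ j, h (q i) (r j)
      = (∏ j, u (q j)) * (𝔼 z, v z * ∏ i, h (q i) z) ^ t := by
    intro q
    rw [exp_pow, Finset.mul_expect]
    refine Finset.expect_congr rfl fun r _ => ?_
    rw [Finset.prod_mul_distrib, Finset.prod_comm, mul_assoc]
  simp only [e1]
  have h1 := jensen_hom (fun q : Fin t → Y => ∏ j, u (q j))
    (fun q => 𝔼 z, v z * ∏ i, h (q i) z) (fun q => Finset.prod_nonneg fun j _ => hu _)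
    (pow_pos hU t) (exp_pow u t).symm
    (fun q => exp_nonneg fun z => mul_nonneg (hv z) (Finset.prod_nonneg fun j _ => hh _ _)) t
  refine le_trans ?_ h1
  have e2 : 𝔼 q : Fin t → Y, (∏ j, u (q j)) * 𝔼 z, v z * ∏ i, h (q i) z
      = 𝔼 z, v z * (𝔼 y, u y * h y z) ^ t := by
    simp only [exp_pow, Finset.mul_expect]
    rw [Finset.expect_comm]
    refine Finset.expect_congr rfl fun z _ => Finset.expect_congr rfl fun q _ => ?_
    rw [Finset.prod_mul_distrib]; ring
  have h2 := jensen_hom v (fun z => 𝔼 y, u y * h y z) hv hV rfl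
    (fun z => exp_nonneg fun y => mul_nonneg (hu y) (hh y z)) t
  have e3 : 𝔼 z, v z * 𝔼 y, u y * h y z = H := by
    simp only [Finset.mul_expect, hH]
    rw [Finset.expect_comm]
    refine Finset.expect_congr rfl fun y _ => Finset.expect_congr rfl fun z _ => by ring
  rw [e3] at h2
  rw [e2]
  have hH0 : 0 ≤ H := exp_nonneg fun y => exp_nonneg fun z =>
    mul_nonneg (mul_nonneg (hu y) (hv z)) (hh y z)
  have h3 : V * (H / V) ^ t / U ^ t ≤ (𝔼 z, v z * (𝔼 y, u y * h y z) ^ t) / U ^ t :=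
    div_le_div_of_nonneg_right h2 (pow_pos hU t).le
  have h4 := pow_le_pow_left₀ (by positivity) h3 t
  refine le_trans (le_of_eq ?_) (mul_le_mul_of_nonneg_left h4 (pow_pos hU t).le)
  rw [mul_div_assoc, ← div_pow, mul_pow V, ← pow_mul, mul_pow, div_div, mul_comm V U, mul_assoc]

/-- density of the complete tripartite pattern -/
noncomputable def blow (A : X → Y → ℝ) (B : X → Z → ℝ) (C : Y → Z → ℝ) (t : ℕ) : ℝ :=
  𝔼 p : Fin t → X, 𝔼 q : Fin t → Y, 𝔼 r : Fin t → Z,
    (∏ i, ∏ j, A (p i) (q j)) * (∏ i, ∏ j, B (p i) (r j)) * ∏ i, ∏ j, C (q i) (r j)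

lemma prod_le_scaled {ι : Type*} [Fintype ι] (f g : ι → ℝ) (hf : ∀ i, 0 ≤ f i)
    (h : ∀ i, f i ≤ P * g i) : ∏ i, f i ≤ P ^ Fintype.card ι * ∏ i, g i := by
  rw [← Finset.card_univ, ← Finset.prod_const, ← Finset.prod_mul_distrib]
  exact Finset.prod_le_prod (fun i _ => hf i) fun i _ => h i

lemma blow_of_moments (hP : 1 ≤ P) (c : Y → Z → ℝ) (A : X → Y → ℝ) (B : X → Z → ℝ)
    (C : Y → Z → ℝ) (ha0 : ∀ x y, 0 ≤ a x y) (hb0 : ∀ x z, 0 ≤ b x z) (hc0 : ∀ y z, 0 ≤ c y z)
    (hA0 : ∀ x y, 0 ≤ A x y) (hB0 : ∀ x z, 0 ≤ B x z) (hC0 : ∀ y z, 0 ≤ C y z)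
    (hA1 : ∀ x y, A x y ≤ 1) (hB1 : ∀ x z, B x z ≤ 1) (hC1 : ∀ y z, C y z ≤ 1)
    (hA : ∀ x y, a x y ≤ P * A x y) (hB : ∀ x z, b x z ≤ P * B x z)
    (hC : ∀ y z, c y z ≤ P * C y z) (t : ℕ) {σ Θ ε : ℝ} (hΘ : 1 ≤ Θ) (hσ : 0 < σ)
    (hS : σ ≤ 𝔼 y, 𝔼 z, c y z * cod a b y z ^ t) (hT : 𝔼 y, 𝔼 z, cod a b y z ^ t ≤ Θ)
    (hε : 0 < ε) (hε1 : ε * P ≤ 1) (hε2 : ε * (4 * Θ * P) ≤ σ) :
    ε ^ (3 * t * t + 3 * t + 2) ≤ blow A B C t := by
  have hP0 : 0 < P := by linarith
  set u : (Fin t → X) → Y → ℝ := fun p y => ∏ i, a (p i) y with hu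
  set v : (Fin t → X) → Z → ℝ := fun p z => ∏ i, b (p i) z with hv
  have hu0 : ∀ p y, 0 ≤ u p y := fun p y => Finset.prod_nonneg fun i _ => ha0 _ _
  have hv0 : ∀ p z, 0 ≤ v p z := fun p z => Finset.prod_nonneg fun i _ => hb0 _ _
  set S : (Fin t → X) → ℝ := fun p => 𝔼 y, 𝔼 z, u p y * v p z * c y z with hSd
  set T : (Fin t → X) → ℝ := fun p => (𝔼 y, u p y) * 𝔼 z, v p z with hTd
  set N : (Fin t → X) → ℝ := fun p => 𝔼 q : Fin t → Y, 𝔼 r : Fin t → Z,
    (∏ i, ∏ j, A (p i) (q j)) * (∏ i, ∏ j, B (p i) (r j)) * ∏ i, ∏ j, C (q i) (r j) with hN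
  have hES : σ ≤ 𝔼 p, S p := by
    refine hS.trans (le_of_eq ?_)
    simp only [hSd, cod, exp_pow, Finset.mul_expect]
    rw [Finset.expect_comm (Finset.univ : Finset (Fin t → X))]
    refine Finset.expect_congr rfl fun y _ => ?_
    rw [Finset.expect_comm]
    refine Finset.expect_congr rfl fun p _ => Finset.expect_congr rfl fun z _ => ?_
    rw [Finset.prod_mul_distrib]; ring
  have hET : 𝔼 p, T p ≤ Θ := by
    refine le_trans (le_of_eq ?_) hT
    simp only [cod]
    rw [moment_expand]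
  have hN0 : ∀ p, 0 ≤ N p := fun p => exp_nonneg fun q => exp_nonneg fun r =>
    mul_nonneg (mul_nonneg (Finset.prod_nonneg fun i _ => Finset.prod_nonneg fun j _ => hA0 _ _)
      (Finset.prod_nonneg fun i _ => Finset.prod_nonneg fun j _ => hB0 _ _))
      (Finset.prod_nonneg fun i _ => Finset.prod_nonneg fun j _ => hC0 _ _)
  have hT0 : ∀ p, 0 ≤ T p := fun p => mul_nonneg (exp_nonneg (hu0 p)) (exp_nonneg (hv0 p))
  have hcP : ∀ y z, c y z ≤ P := fun y z => (hC y z).trans (by linarith only [hC1, hP, hC1 y z, mul_nonneg_of_nonpos_of_nonpos (Mathlib.Tactic.Linarith.sub_nonpos_of_le hP) (Mathlib.Tactic.Linarith.sub_nonpos_of_le (hC1 y z))])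
  have huP : ∀ p y, u p y ≤ P ^ t := fun p y => by
    have := prod_le_scaled (P := P) (fun i => a (p i) y) (fun _ => 1) (fun i => ha0 _ _)
      (fun i => (hA _ _).trans (by linarith only [hA1, hP, hA1 (p i) y, mul_nonneg_of_nonpos_of_nonpos (Mathlib.Tactic.Linarith.sub_nonpos_of_le hP) (Mathlib.Tactic.Linarith.sub_nonpos_of_le (hA1 (p i) y))]))
    simpa using this
  have hvP : ∀ p z, v p z ≤ P ^ t := fun p z => by
    have := prod_le_scaled (P := P) (fun i => b (p i) z) (fun _ => 1) (fun i => hb0 _ _)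
      (fun i => (hB _ _).trans (by linarith only [hB1, hP, hB1 (p i) z, mul_nonneg_of_nonpos_of_nonpos (Mathlib.Tactic.Linarith.sub_nonpos_of_le hP) (Mathlib.Tactic.Linarith.sub_nonpos_of_le (hB1 (p i) z))]))
    simpa using this
  have hSP : ∀ p, S p ≤ P ^ (2 * t + 1) := fun p => by
    refine Finset.expect_le Finset.univ_nonempty fun y _ =>
      Finset.expect_le Finset.univ_nonempty fun z _ => ?_
    rw [pow_succ, two_mul, pow_add]
    exact mul_le_mul (mul_le_mul (huP p y) (hvP p z) (hv0 p z) (by positivity)) (hcP y z)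
      (hc0 y z) (by positivity)
  have hST : ∀ p, S p ≤ P * T p := fun p => by
    simp only [hTd, hSd]
    rw [Finset.expect_mul_expect]
    simp only [Finset.mul_expect]
    refine exp_mono fun y => exp_mono fun z => ?_
    have := mul_le_mul_of_nonneg_left (hcP y z) (mul_nonneg (hu0 p y) (hv0 p z))
    linarith only [this]
  have hεP : ∀ m : ℕ, ε ^ m * P ^ m ≤ 1 := fun m => by
    rw [← mul_pow]; exact pow_le_one₀ (by positivity) hε1
  have hgood : ∀ p, σ / 4 ≤ S p → σ * T p / (4 * Θ) ≤ S p → ε ^ (3 * t * t + t) ≤ N p := by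
    intro p h1 h2
    have hTε : ε ≤ T p := by
      have h3 := hST p
      have : P * ε ≤ P * T p := by (refine le_of_not_gt fun h_nl => ?_; linarith only [h_nl, hε2, h1, h3, hΘ, hσ, mul_pos hε hP0, mul_nonneg_of_nonpos_of_nonpos (Mathlib.Tactic.Linarith.sub_nonpos_of_le hΘ) (le_of_lt (Mathlib.Tactic.Linarith.sub_neg_of_lt hσ)), mul_nonneg_of_nonpos_of_nonpos (Mathlib.Tactic.Linarith.sub_nonpos_of_le hΘ) (Mathlib.Tactic.Linarith.sub_nonpos_of_le h1), mul_nonneg_of_nonpos_of_nonpos (Mathlib.Tactic.Linarith.sub_nonpos_of_le hΘ) (Mathlib.Tactic.Linarith.sub_nonpos_of_le h3), mul_nonneg_of_nonpos_of_nonpos (Mathlib.Tactic.Linarith.sub_nonpos_of_le hΘ) (le_of_lt (Mathlib.Tactic.Linarith.sub_neg_of_lt h_nl))])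
      exact le_of_mul_le_mul_left this hP0
    have hTpos : 0 < T p := lt_of_lt_of_le hε hTε
    have hU : 0 < 𝔼 y, u p y := by
      rcases (exp_nonneg (hu0 p)).eq_or_lt with h | h
      · simp only [hTd] at hTpos; rw [← h, zero_mul] at hTpos; exact absurd hTpos (lt_irrefl _)
      · exact h
    have hV : 0 < 𝔼 z, v p z := by
      rcases (exp_nonneg (hv0 p)).eq_or_lt with h | h
      · simp only [hTd] at hTpos; rw [← h, mul_zero] at hTpos; exact absurd hTpos (lt_irrefl _)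
      · exact h
    have h4 := sidorenko (u p) (v p) C (hu0 p) (hv0 p) hC0 hU hV t
    have h5 : S p ≤ P * 𝔼 y, 𝔼 z, u p y * v p z * C y z := by
      simp only [Finset.mul_expect]
      refine exp_mono fun y => exp_mono fun z => ?_
      have := mul_le_mul_of_nonneg_left (hC y z) (mul_nonneg (hu0 p y) (hv0 p z))
      linarith only [this]
    have h6 : ε ≤ (𝔼 y, 𝔼 z, u p y * v p z * C y z) / T p := by
      rw [le_div_iff₀ hTpos]
      rw [div_le_iff₀ (by positivity)] at h2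
      have h7 : ε * (4 * Θ * P) * T p ≤ σ * T p := mul_le_mul_of_nonneg_right hε2 hTpos.le
      have h8 : S p * (4 * Θ) ≤ (P * 𝔼 y, 𝔼 z, u p y * v p z * C y z) * (4 * Θ) :=
        mul_le_mul_of_nonneg_right h5 (by positivity)
      have h9 : (4 * Θ * P) * (ε * T p) ≤ (4 * Θ * P) * 𝔼 y, 𝔼 z, u p y * v p z * C y z := by
        linarith only [h2, h7, h8]
      exact le_of_mul_le_mul_left h9 (by positivity)
    have h10 : ε ^ t * ε ^ (t * t) ≤ 𝔼 q : Fin t → Y, 𝔼 r : Fin t → Z,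
        (∏ j, u p (q j)) * (∏ j, v p (r j)) * ∏ i, ∏ j, C (q i) (r j) :=
      le_trans (mul_le_mul (pow_le_pow_left₀ hε.le hTε t) (pow_le_pow_left₀ hε.le h6 _)
        (by positivity) (pow_nonneg hTpos.le _)) h4
    have h11 : 𝔼 q : Fin t → Y, 𝔼 r : Fin t → Z,
        (∏ j, u p (q j)) * (∏ j, v p (r j)) * ∏ i, ∏ j, C (q i) (r j)
        ≤ P ^ (t * t) * P ^ (t * t) * N p := by
      simp only [hN, Finset.mul_expect]
      refine exp_mono fun q => exp_mono fun r => ?_
      have k1 : ∏ j, u p (q j) ≤ P ^ (t * t) * ∏ i, ∏ j, A (p i) (q j) := by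
        have := prod_le_scaled (P := P) (fun k : Fin t × Fin t => a (p k.1) (q k.2))
          (fun k => A (p k.1) (q k.2)) (fun k => ha0 _ _) (fun k => hA _ _)
        rw [Fintype.prod_prod_type, Fintype.prod_prod_type, Finset.prod_comm] at this
        simpa using this
      have k2 : ∏ j, v p (r j) ≤ P ^ (t * t) * ∏ i, ∏ j, B (p i) (r j) := by
        have := prod_le_scaled (P := P) (fun k : Fin t × Fin t => b (p k.1) (r k.2))
          (fun k => B (p k.1) (r k.2)) (fun k => hb0 _ _) (fun k => hB _ _)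
        rw [Fintype.prod_prod_type, Fintype.prod_prod_type, Finset.prod_comm] at this
        simpa using this
      have k3 : 0 ≤ ∏ i, ∏ j, C (q i) (r j) :=
        Finset.prod_nonneg fun i _ => Finset.prod_nonneg fun j _ => hC0 _ _
      have k4 : 0 ≤ ∏ j, v p (r j) := Finset.prod_nonneg fun j _ => hv0 _ _
      have k5 : 0 ≤ ∏ i, ∏ j, A (p i) (q j) :=
        Finset.prod_nonneg fun i _ => Finset.prod_nonneg fun j _ => hA0 _ _
      have k6 := mul_le_mul k1 k2 k4 (by positivity)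
      have k7 := mul_le_mul_of_nonneg_right k6 k3
      refine k7.trans (le_of_eq (by ring))
    have h12 := mul_le_mul_of_nonneg_left (h10.trans h11)
      (show 0 ≤ ε ^ (t * t) * ε ^ (t * t) by positivity)
    have h13 := hεP (t * t)
    have h14 : (ε ^ (t * t) * P ^ (t * t)) * (ε ^ (t * t) * P ^ (t * t)) ≤ 1 :=
      mul_le_one₀ h13 (by positivity) h13
    have h15 := mul_le_mul_of_nonneg_right h14 (hN0 p)
    calc ε ^ (3 * t * t + t) = ε ^ (t * t) * ε ^ (t * t) * (ε ^ t * ε ^ (t * t)) := by ring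
      _ ≤ _ := h12
      _ = (ε ^ (t * t) * P ^ (t * t)) * (ε ^ (t * t) * P ^ (t * t)) * N p := by ring
      _ ≤ 1 * N p := h15
      _ = N p := one_mul _
  have hm : 0 < ε ^ (3 * t * t + t) := by positivity
  have hpt : ∀ p, S p ≤ σ / 4 + σ / (4 * Θ) * T p
      + P ^ (2 * t + 1) / ε ^ (3 * t * t + t) * N p := by
    intro p
    have k1 : 0 ≤ σ / (4 * Θ) * T p := mul_nonneg (by positivity) (hT0 p)
    have k2 : 0 ≤ P ^ (2 * t + 1) / ε ^ (3 * t * t + t) * N p :=
      mul_nonneg (by positivity) (hN0 p)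
    by_cases h1 : σ / 4 ≤ S p
    · by_cases h2 : σ * T p / (4 * Θ) ≤ S p
      · have h3 := hgood p h1 h2
        have h4 : P ^ (2 * t + 1) ≤ P ^ (2 * t + 1) / ε ^ (3 * t * t + t) * N p := by
          rw [div_mul_eq_mul_div, le_div_iff₀ hm]
          exact mul_le_mul_of_nonneg_left h3 (by positivity)
        have := hSP p
        linarith only [hσ, k1, h4, this]
      · have : σ / (4 * Θ) * T p = σ * T p / (4 * Θ) := by ring
        linarith only [hσ, k2, h2, this, not_le.1 h2]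
    · linarith only [k1, k2, h1, not_le.1 h1]
  have h20 := exp_mono hpt
  rw [Finset.expect_add_distrib, Finset.expect_add_distrib, Fintype.expect_const,
    ← Finset.mul_expect, ← Finset.mul_expect] at h20
  have h21 : σ / (4 * Θ) * 𝔼 p, T p ≤ σ / 4 := by
    refine (mul_le_mul_of_nonneg_left hET (by positivity)).trans (le_of_eq ?_)
    field_simp
  have hB : blow A B C t = 𝔼 p, N p := rfl
  rw [hB]
  have h22 : ε ≤ P ^ (2 * t + 1) / ε ^ (3 * t * t + t) * 𝔼 p, N p := by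
    have : ε * 2 ≤ ε * (4 * Θ * P) := mul_le_mul_of_nonneg_left (by linarith only [hP, hΘ, mul_nonneg_of_nonpos_of_nonpos (Mathlib.Tactic.Linarith.sub_nonpos_of_le hP) (Mathlib.Tactic.Linarith.sub_nonpos_of_le hΘ)]) hε.le
    linarith only [hε2, hES, h20, h21, this]
  rw [div_mul_eq_mul_div, le_div_iff₀ hm] at h22
  have h23 := mul_le_mul_of_nonneg_left h22 (show 0 ≤ ε ^ (2 * t + 1) by positivity)
  have h24 := mul_le_mul_of_nonneg_right (hεP (2 * t + 1)) (exp_nonneg hN0)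
  calc ε ^ (3 * t * t + 3 * t + 2) = ε ^ (2 * t + 1) * (ε * ε ^ (3 * t * t + t)) := by ring
    _ ≤ _ := h23
    _ = ε ^ (2 * t + 1) * P ^ (2 * t + 1) * 𝔼 p, N p := by ring
    _ ≤ 1 * 𝔼 p, N p := h24
    _ = _ := one_mul _

end Pool.Agent.Work.MP_af588c_co.TB
end

-- merged part: Pool.Agent.Work.MP_af588c_co.TB4
section
/-! Regularisation and the main blow-up inequality. -/

set_option linter.unusedSectionVars false

namespace Pool.Agent.Work.MP_af588c_co.TB

open Finset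
open scoped BigOperators

variable {X Y Z : Type*} [Fintype X] [Fintype Y] [Fintype Z]
variable [Nonempty X] [Nonempty Y] [Nonempty Z]

noncomputable def cnt (G : X → Y → Z → ℝ) (U : Finset X) (W : Finset Y) (R : Finset Z) : ℝ :=
  ∑ x ∈ U, ∑ y ∈ W, ∑ z ∈ R, G x y z

lemma spread_of_box (G : X → Y → Z → ℝ) (hG0 : ∀ x y z, 0 ≤ G x y z) (hG1 : ∀ x y z, G x y z ≤ 1)
    {p γ P : ℝ} (hp : 0 < p) (hP : 1 / p ≤ P) (hmean : 𝔼 x, 𝔼 y, 𝔼 z, G x y z = p)
    (hbox : ∀ U W R, cnt G U W R ≤ p * (Fintype.card X * Fintype.card Y * Fintype.card Z)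
      * ((U.card * W.card * R.card : ℝ)
        / (Fintype.card X * Fintype.card Y * Fintype.card Z)) ^ (1 - γ)) :
    Spread (fun x y => (𝔼 z, G x y z) / p) P γ := by
  have hX : (0 : ℝ) < Fintype.card X := by exact_mod_cast Fintype.card_pos
  have hY : (0 : ℝ) < Fintype.card Y := by exact_mod_cast Fintype.card_pos
  have hZ : (0 : ℝ) < Fintype.card Z := by exact_mod_cast Fintype.card_pos
  refine ⟨fun x y => div_nonneg (exp_nonneg fun z => hG0 x y z) hp.le, fun x y => ?_, ?_,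
    fun U W => ?_⟩
  · refine le_trans (div_le_div_of_nonneg_right ?_ hp.le) hP
    exact Finset.expect_le Finset.univ_nonempty fun z _ => hG1 x y z
  · simp only [← Finset.expect_div]
    rw [Finset.expect_comm, hmean, div_self hp.ne']
  · have h := hbox U W Finset.univ
    rw [Finset.card_univ] at h
    have e1 : (U.card * W.card * Fintype.card Z : ℝ)
        / (Fintype.card X * Fintype.card Y * Fintype.card Z)
        = (U.card : ℝ) / Fintype.card X * ((W.card : ℝ) / Fintype.card Y) := by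
      field_simp
    rw [e1] at h
    have e2 : ∑ x ∈ U, ∑ y ∈ W, (𝔼 z, G x y z) / p
        = cnt G U W Finset.univ / (Fintype.card Z * p) := by
      simp only [cnt, exp_eq, Finset.sum_div, div_div]
    rw [e2, div_div, div_le_iff₀ (by positivity)]
    refine h.trans (le_of_eq (by ring))

lemma numeric_q {D P : ℝ} (hD : 1 ≤ D) (hP : P = Real.exp D) {q : ℕ} (hq : 2 * D + 3 ≤ q) :
    21 * Real.sqrt P * P ≤ 3 ^ q := by
  have h1 : Real.sqrt P = Real.exp (D / 2) := by
    rw [hP, Real.sqrt_eq_rpow, ← Real.exp_mul]; congr 1; ring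
  have he : Real.exp 1 ≤ 3 := by have := Real.exp_one_lt_d9; linarith only [this]
  have he2 : 2.7 ≤ Real.exp 1 := by have := Real.exp_one_gt_d9; linarith only [this]
  have h2 : Real.exp q ≤ 3 ^ q := by
    have := pow_le_pow_left₀ (Real.exp_pos 1).le he q
    rwa [← Real.exp_nat_mul, mul_one] at this
  have h3 : (21 : ℝ) ≤ Real.exp (7 / 2) := by
    have e : Real.exp (7 / 2) = Real.exp 1 ^ 3 * Real.exp (1 / 2) := by
      rw [← Real.exp_nat_mul, ← Real.exp_add]; norm_num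
    have h4 := pow_le_pow_left₀ (by norm_num) he2 3
    have h5 : 1 / 2 + 1 ≤ Real.exp (1 / 2) := Real.add_one_le_exp _
    rw [e]; linarith only [h4, h5, mul_nonneg_of_nonpos_of_nonpos (Mathlib.Tactic.Linarith.sub_nonpos_of_le h4) (Mathlib.Tactic.Linarith.sub_nonpos_of_le h5)]
  rw [h1, hP]
  calc 21 * Real.exp (D / 2) * Real.exp D ≤ Real.exp (7 / 2) * Real.exp (D / 2) * Real.exp D := by
        gcongr
    _ = Real.exp (7 / 2 + D / 2 + D) := by rw [Real.exp_add, Real.exp_add]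
    _ ≤ Real.exp q := Real.exp_le_exp.2 (by linarith only [hD, hq])
    _ ≤ _ := h2

lemma core (A : X → Y → ℝ) (B : X → Z → ℝ) (C : Y → Z → ℝ)
    (hA0 : ∀ x y, 0 ≤ A x y) (hB0 : ∀ x z, 0 ≤ B x z) (hC0 : ∀ y z, 0 ≤ C y z)
    (hA1 : ∀ x y, A x y ≤ 1) (hB1 : ∀ x z, B x z ≤ 1) (hC1 : ∀ y z, C y z ≤ 1)
    {p D : ℝ} (hD : 1 ≤ D) (hp : Real.exp (-D) ≤ p) {t q s : ℕ} (hqe : Even q)
    (hq1 : 2 * D + 3 ≤ q) (hq2 : q ≤ 7 * D) (hs : s = 2 * t + 14 * q + 1)
    (hmean : 𝔼 x, 𝔼 y, 𝔼 z, A x y * B x z * C y z = p)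
    (hbox : ∀ U W R, cnt (fun x y z => A x y * B x z * C y z) U W R
      ≤ p * (Fintype.card X * Fintype.card Y * Fintype.card Z)
      * ((U.card * W.card * R.card : ℝ)
        / (Fintype.card X * Fintype.card Y * Fintype.card Z)) ^ (1 - 1 / (2 * (s : ℝ)))) :
    Real.exp (-(104 * D)) ^ (3 * t * t + 3 * t + 2) ≤ blow A B C t := by
  have hp0 : 0 < p := lt_of_lt_of_le (Real.exp_pos _) hp
  set P := Real.exp D with hP
  have hP1 : 1 ≤ P := Real.one_le_exp (by linarith only [hD])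
  have hpP : 1 / p ≤ P := by
    rw [div_le_iff₀ hp0]
    have : P * Real.exp (-D) = 1 := by rw [hP, ← Real.exp_add]; simp
    linarith only [hp, this, hP1, mul_nonneg_of_nonpos_of_nonpos (Mathlib.Tactic.Linarith.sub_nonpos_of_le hp) (Mathlib.Tactic.Linarith.sub_nonpos_of_le hP1)]
  set γ : ℝ := 1 / (2 * (s : ℝ)) with hγ
  have hq0 : 0 < q := by
    have : (0 : ℝ) < q := by linarith only [hD, hq1]
    exact_mod_cast this
  have hsR : (s : ℝ) = 2 * t + 14 * q + 1 := by rw [hs]; push_cast; ring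
  have ht0 : (0 : ℝ) ≤ t := Nat.cast_nonneg _
  have hq0' : (1 : ℝ) ≤ q := by exact_mod_cast hq0
  have hs0 : (0 : ℝ) < s := by rw [hsR]; positivity
  have hγ0 : 0 ≤ γ := by positivity
  have hγs : γ * s ≤ 1 / 2 := by rw [hγ]; field_simp; exact le_rfl
  have hγ1 : γ ≤ 1 := by (refine le_of_not_gt fun h_nl => ?_; linarith only [h_nl, hD, hq1, hsR, hγs, mul_nonneg_of_nonpos_of_nonpos (Mathlib.Tactic.Linarith.sub_nonpos_of_le (Mathlib.Tactic.Linarith.natCast_nonneg ℝ s)) (le_of_lt (Mathlib.Tactic.Linarith.sub_neg_of_lt h_nl))])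
  have hso : Odd s := by
    rw [hs]; exact ⟨t + 7 * q, by ring⟩
  have hG0 : ∀ x y z, 0 ≤ A x y * B x z * C y z := fun x y z =>
    mul_nonneg (mul_nonneg (hA0 x y) (hB0 x z)) (hC0 y z)
  have hGA : ∀ x y z, A x y * B x z * C y z ≤ A x y := fun x y z => by
    rw [mul_assoc]
    exact mul_le_of_le_one_right (hA0 x y) (mul_le_one₀ (hB1 x z) (hC0 y z) (hC1 y z))
  have hGB : ∀ x y z, A x y * B x z * C y z ≤ B x z := fun x y z => by
    rw [mul_comm (A x y), mul_assoc]
    exact mul_le_of_le_one_right (hB0 x z) (mul_le_one₀ (hA1 x y) (hC0 y z) (hC1 y z))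
  have hGC : ∀ x y z, A x y * B x z * C y z ≤ C y z := fun x y z =>
    mul_le_of_le_one_left (hC0 y z) (mul_le_one₀ (hA1 x y) (hB0 x z) (hB1 x z))
  have ha := spread_of_box (fun x y z => A x y * B x z * C y z) hG0
    (fun x y z => (hGA x y z).trans (hA1 x y)) hp0 hpP hmean hbox
  have hb := spread_of_box (γ := γ) (fun x z y => A x y * B x z * C y z) (fun x z y => hG0 x y z)
    (fun x z y => (hGA x y z).trans (hA1 x y)) hp0 hpP
    (by rw [← hmean]; exact Finset.expect_congr rfl fun x _ => Finset.expect_comm _ _ _)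
    (fun U R W => by
      have h := hbox U W R
      have e : cnt (fun x z y => A x y * B x z * C y z) U R W
          = cnt (fun x y z => A x y * B x z * C y z) U W R :=
        Finset.sum_congr rfl fun x _ => Finset.sum_comm
      rw [e, mul_right_comm (Fintype.card X : ℝ), mul_right_comm (U.card : ℝ)]
      exact h)
  set c : Y → Z → ℝ := fun y z => (𝔼 x, A x y * B x z * C y z) / p with hc
  have hscale : ∀ {e w : ℝ}, 0 ≤ w → e ≤ w → e / p ≤ P * w := fun {e w} hw h => by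
    calc e / p ≤ w / p := div_le_div_of_nonneg_right h hp0.le
      _ = 1 / p * w := by ring
      _ ≤ P * w := mul_le_mul_of_nonneg_right hpP hw
  have hc0 : ∀ y z, 0 ≤ c y z := fun y z => div_nonneg (exp_nonneg fun x => hG0 x y z) hp0.le
  have hcC : ∀ y z, c y z ≤ P * C y z := fun y z =>
    hscale (hC0 y z) (Finset.expect_le Finset.univ_nonempty fun x _ => hGC x y z)
  have hc1 : 𝔼 y, 𝔼 z, c y z = 1 := by
    simp only [hc, ← Finset.expect_div]
    rw [div_eq_one_iff_eq hp0.ne', ← hmean, Finset.expect_comm (Finset.univ : Finset X)]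
    exact Finset.expect_congr rfl fun y _ => Finset.expect_comm _ _ _
  have hx := cross ha hb hP1 hγ0 hso hγs hq0 hqe (by omega) (numeric_q hD hP hq1) c hc0
    (fun y z => (hcC y z).trans (by linarith only [hC1, hP1, hC1 y z, mul_nonneg_of_nonpos_of_nonpos (Mathlib.Tactic.Linarith.sub_nonpos_of_le hP1) (Mathlib.Tactic.Linarith.sub_nonpos_of_le (hC1 y z))])) hc1
  set η : ℝ := 7 * q / s with hη
  have hη0 : 0 ≤ η := by positivity
  have hη1 : η ≤ 1 / 2 := by rw [hη, div_le_iff₀ hs0, hsR]; linarith only []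
  have hη2 : 2 * γ + 6 * q / s ≤ η := by
    rw [hγ, hη]
    have : 2 * (1 / (2 * (s : ℝ))) = 1 / s := by field_simp
    rw [this, ← add_div]
    exact div_le_div_of_nonneg_right (by linarith only [hD, hq1]) hs0.le
  have hη3 : Real.exp (-(2 * η)) ≤ 1 - η := by
    have h1 : 2 * η + 1 ≤ Real.exp (2 * η) := Real.add_one_le_exp _
    rw [Real.exp_neg, inv_le_comm₀ (Real.exp_pos _) (by linarith only [hη1])]
    refine le_trans ?_ h1
    rw [inv_le_iff_one_le_mul₀ (by linarith only [hη1])]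
    linarith only [hη0, hη1, mul_nonneg_of_nonpos_of_nonpos (Mathlib.Tactic.Linarith.sub_nonpos_of_le hη0) (Mathlib.Tactic.Linarith.sub_nonpos_of_le hη1)]
  have hS : Real.exp (-(98 * D)) ≤ 𝔼 y, 𝔼 z, c y z * cod (fun x y => (𝔼 z, A x y * B x z * C y z) / p)
      (fun x z => (𝔼 y, A x y * B x z * C y z) / p) y z ^ t := by
    have h5 := jensen_pow (fun r : Y × Z => c r.1 r.2)
      (fun r => cod (fun x y => (𝔼 z, A x y * B x z * C y z) / p)
        (fun x z => (𝔼 y, A x y * B x z * C y z) / p) r.1 r.2)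
      (fun r => hc0 _ _) (by rw [exp_prod]; exact hc1) (fun r => ha.cod_nonneg hb _ _) t
    rw [exp_prod, exp_prod] at h5
    refine le_trans ?_ h5
    refine le_trans ?_ (pow_le_pow_left₀ (Real.exp_pos _).le (hη3.trans (by linarith only [hx, hη2])) t)
    rw [← Real.exp_nat_mul]
    apply Real.exp_le_exp.2
    have : η * t ≤ 7 * q := by
      rw [hη, div_mul_eq_mul_div, div_le_iff₀ hs0, hsR]; linarith only [hD, hq1, mul_nonneg_of_nonpos_of_nonpos (Mathlib.Tactic.Linarith.sub_nonpos_of_le (Mathlib.Tactic.Linarith.natCast_nonneg ℝ q)) (Mathlib.Tactic.Linarith.sub_nonpos_of_le (Mathlib.Tactic.Linarith.natCast_nonneg ℝ q)), mul_nonneg_of_nonpos_of_nonpos (Mathlib.Tactic.Linarith.sub_nonpos_of_le (Mathlib.Tactic.Linarith.natCast_nonneg ℝ q)) (Mathlib.Tactic.Linarith.sub_nonpos_of_le (Mathlib.Tactic.Linarith.natCast_nonneg ℝ t))]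
    linarith only [hq2, this]
  have hγt : γ * t ≤ 1 / 2 := by
    refine le_trans (mul_le_mul_of_nonneg_left ?_ hγ0) hγs
    rw [hsR]; linarith only [hD, hq1]
  have hT := moment_cs _ _ t (ha.cod_moment hP1 hγ0 hγ1 t hγt) (hb.cod_moment hP1 hγ0 hγ1 t hγt)
  have hsq : 1 ≤ Real.sqrt P := Real.one_le_sqrt.2 hP1
  have hsq2 : Real.sqrt P ≤ P := by
    linarith only [hP1, hsq, Real.mul_self_sqrt (show 0 ≤ P by linarith), mul_nonneg_of_nonpos_of_nonpos (Mathlib.Tactic.Linarith.sub_nonpos_of_le hsq) (Mathlib.Tactic.Linarith.sub_nonpos_of_le hsq)]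
  refine blow_of_moments hP1 c A B C ha.nonneg hb.nonneg hc0 hA0 hB0 hC0 hA1 hB1 hC1
    (fun x y => hscale (hA0 x y) (Finset.expect_le Finset.univ_nonempty fun z _ => hGA x y z))
    (fun x z => hscale (hB0 x z) (Finset.expect_le Finset.univ_nonempty fun y _ => hGB x y z))
    hcC t (Θ := 6 * Real.sqrt P) (by linarith only [hsq]) (Real.exp_pos _) hS hT (Real.exp_pos _) ?_ ?_
  · rw [hP, ← Real.exp_add]
    exact Real.exp_le_one_iff.2 (by linarith only [hD])
  · have h24 : (24 : ℝ) ≤ Real.exp (4 * D) := by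
      have he2 : 2.7 ≤ Real.exp 1 := by have := Real.exp_one_gt_d9; linarith only [this]
      have h4 := pow_le_pow_left₀ (by norm_num) he2 4
      rw [← Real.exp_nat_mul] at h4
      have := Real.exp_le_exp.2 (show ((4 : ℕ) : ℝ) * 1 ≤ 4 * D by push_cast; linarith only [hD])
      exact le_trans (by norm_num) (h4.trans this)
    calc Real.exp (-(104 * D)) * (4 * (6 * Real.sqrt P) * P)
        = Real.exp (-(104 * D)) * (24 * Real.sqrt P * P) := by ring
      _ ≤ Real.exp (-(104 * D)) * (Real.exp (4 * D) * P * P) := by gcongr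
      _ = Real.exp (-(98 * D)) := by
        rw [hP, ← Real.exp_add, ← Real.exp_add, ← Real.exp_add]; congr 1; ring

lemma cnt_zero (G : X → Y → Z → ℝ) (U : Finset X) (W : Finset Y) (R : Finset Z)
    (h : (U.card * W.card * R.card : ℝ) = 0) : cnt G U W R = 0 := by
  unfold cnt
  simp only [mul_eq_zero, Nat.cast_eq_zero, Finset.card_eq_zero] at h
  rcases h with (rfl | rfl) | rfl <;> simp

lemma regularize (G : X → Y → Z → ℝ) (hG1 : ∀ x y z, G x y z ≤ 1)
    {τ γ : ℝ} (hτ : 0 < τ) (hγ : 0 < γ) (hmean : τ ≤ 𝔼 x, 𝔼 y, 𝔼 z, G x y z) :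
    ∃ (X' : Finset X) (Y' : Finset Y) (Z' : Finset Z) (p : ℝ),
      X'.Nonempty ∧ Y'.Nonempty ∧ Z'.Nonempty ∧ τ ≤ p ∧
      cnt G X' Y' Z' = p * (X'.card * Y'.card * Z'.card) ∧
      τ ^ (1 / γ) ≤ (X'.card * Y'.card * Z'.card : ℝ)
        / (Fintype.card X * Fintype.card Y * Fintype.card Z) ∧
      ∀ U W R, cnt G U W R ≤ p * (X'.card * Y'.card * Z'.card)
        * ((U.card * W.card * R.card : ℝ) / (X'.card * Y'.card * Z'.card)) ^ (1 - γ) := by
  classical
  have hX : (0 : ℝ) < Fintype.card X := by exact_mod_cast Fintype.card_pos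
  have hY : (0 : ℝ) < Fintype.card Y := by exact_mod_cast Fintype.card_pos
  have hZ : (0 : ℝ) < Fintype.card Z := by exact_mod_cast Fintype.card_pos
  set N : ℝ := Fintype.card X * Fintype.card Y * Fintype.card Z with hN
  have hN0 : 0 < N := by positivity
  obtain ⟨⟨X', Y', Z'⟩, -, hmax⟩ := Finset.exists_max_image
    (Finset.univ : Finset (Finset X × Finset Y × Finset Z))
    (fun r => cnt G r.1 r.2.1 r.2.2 / (r.1.card * r.2.1.card * r.2.2.card : ℝ) ^ (1 - γ))
    Finset.univ_nonempty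
  simp only at hmax
  set M : ℝ := X'.card * Y'.card * Z'.card with hM
  have hM0 : 0 ≤ M := by positivity
  have h1 := hmax (Finset.univ, Finset.univ, Finset.univ) (Finset.mem_univ _)
  simp only [Finset.card_univ] at h1
  rw [← hN] at h1
  have h2 : τ * N ≤ cnt G Finset.univ Finset.univ Finset.univ := by
    simp only [exp_eq, ← Finset.sum_div, div_div] at hmean
    rw [le_div_iff₀ (by positivity)] at hmean
    refine le_trans (le_of_eq ?_) hmean
    rw [hN]; ring
  have split : ∀ {K : ℝ}, 0 < K → K / K ^ (1 - γ) = K ^ γ := fun {K} hK => by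
    rw [div_eq_iff (Real.rpow_pos_of_pos hK _).ne', ← Real.rpow_add hK]; simp
  have h3 : τ * N ^ γ ≤ cnt G X' Y' Z' / M ^ (1 - γ) := by
    refine le_trans ?_ h1
    rw [← split hN0, ← mul_div_assoc]
    exact div_le_div_of_nonneg_right h2 (Real.rpow_nonneg hN0.le _)
  have h4 : 0 < τ * N ^ γ := mul_pos hτ (Real.rpow_pos_of_pos hN0 _)
  have hMpos : 0 < M := by
    rcases hM0.eq_or_lt with h | h
    · rw [cnt_zero G X' Y' Z' h.symm, zero_div] at h3
      linarith only [h3, h4]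
    · exact h
  have hne : X'.Nonempty ∧ Y'.Nonempty ∧ Z'.Nonempty := by
    have := hMpos.ne'
    rw [hM] at this
    simp only [ne_eq, mul_eq_zero, Nat.cast_eq_zero, Finset.card_eq_zero, not_or] at this
    exact ⟨Finset.nonempty_iff_ne_empty.2 this.1.1, Finset.nonempty_iff_ne_empty.2 this.1.2,
      Finset.nonempty_iff_ne_empty.2 this.2⟩
  set p := cnt G X' Y' Z' / M with hp
  have hcnt : cnt G X' Y' Z' = p * M := by rw [hp, div_mul_cancel₀ _ hMpos.ne']
  have h5 : cnt G X' Y' Z' / M ^ (1 - γ) = p * M ^ γ := by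
    rw [hcnt, mul_div_assoc, split hMpos]
  rw [h5] at h3
  have hMN : M ≤ N := by
    rw [hM, hN]
    have a1 : (X'.card : ℝ) ≤ Fintype.card X := by exact_mod_cast Finset.card_le_univ X'
    have a2 : (Y'.card : ℝ) ≤ Fintype.card Y := by exact_mod_cast Finset.card_le_univ Y'
    have a3 : (Z'.card : ℝ) ≤ Fintype.card Z := by exact_mod_cast Finset.card_le_univ Z'
    exact mul_le_mul (mul_le_mul a1 a2 (Nat.cast_nonneg _) hX.le) a3 (Nat.cast_nonneg _)
      (mul_nonneg hX.le hY.le)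
  have hMγ : 0 < M ^ γ := Real.rpow_pos_of_pos hMpos _
  have hp1 : p ≤ 1 := by
    rw [hp, div_le_one hMpos]
    calc cnt G X' Y' Z' ≤ ∑ x ∈ X', ∑ y ∈ Y', ∑ z ∈ Z', (1 : ℝ) :=
          Finset.sum_le_sum fun x _ => Finset.sum_le_sum fun y _ =>
            Finset.sum_le_sum fun z _ => hG1 x y z
      _ = M := by rw [hM]; simp only [Finset.sum_const, nsmul_eq_mul]; ring
  have hτp : τ ≤ p := by
    have h6 : M ^ γ ≤ N ^ γ := Real.rpow_le_rpow hM0 hMN hγ.le
    have h7 : τ * M ^ γ ≤ p * M ^ γ := le_trans (mul_le_mul_of_nonneg_left h6 hτ.le) h3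
    exact le_of_mul_le_mul_right h7 hMγ
  refine ⟨X', Y', Z', p, hne.1, hne.2.1, hne.2.2, hτp, hcnt, ?_, fun U W R => ?_⟩
  · have h8 : τ ≤ (M / N) ^ γ := by
      rw [Real.div_rpow hM0 hN0.le, le_div_iff₀ (Real.rpow_pos_of_pos hN0 _)]
      linarith only [h3, hMγ, hp1, mul_nonneg_of_nonpos_of_nonpos (le_of_lt (Mathlib.Tactic.Linarith.sub_neg_of_lt hMγ)) (Mathlib.Tactic.Linarith.sub_nonpos_of_le hp1)]
    have h9 := Real.rpow_le_rpow hτ.le h8 (one_div_nonneg.2 hγ.le)
    rwa [← Real.rpow_mul (div_nonneg hM0 hN0.le), mul_one_div_cancel hγ.ne', Real.rpow_one] at h9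
  · have hK0 : (0 : ℝ) ≤ U.card * W.card * R.card :=
      mul_nonneg (mul_nonneg (Nat.cast_nonneg _) (Nat.cast_nonneg _)) (Nat.cast_nonneg _)
    have hp0 : 0 ≤ p := by linarith only [hτ, hτp]
    rcases hK0.eq_or_lt with h | h
    · rw [cnt_zero G U W R h.symm]
      exact mul_nonneg (mul_nonneg hp0 hM0) (Real.rpow_nonneg (div_nonneg hK0 hM0) _)
    · have h10 := hmax (U, W, R) (Finset.mem_univ _)
      simp only at h10
      rw [h5, div_le_iff₀ (Real.rpow_pos_of_pos h _)] at h10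
      refine h10.trans (le_of_eq ?_)
      rw [Real.div_rpow hK0 hM0, ← split hMpos]
      ring

lemma exp_restrict {X₁ : Type*} [Fintype X₁] [Nonempty X₁] (e : X₁ → X)
    (he : Function.Injective e) (f : X → ℝ) (hf : ∀ x, 0 ≤ f x) :
    (Fintype.card X₁ : ℝ) / Fintype.card X * 𝔼 x, f (e x) ≤ 𝔼 x, f x := by
  classical
  have hX : (0 : ℝ) < Fintype.card X := by exact_mod_cast Fintype.card_pos
  have hX1 : (0 : ℝ) < Fintype.card X₁ := by exact_mod_cast Fintype.card_pos
  rw [exp_eq, exp_eq]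
  have h1 : ∑ x, f (e x) ≤ ∑ x, f x := by
    rw [← Finset.sum_image (s := Finset.univ) (g := e) (f := f) (fun x _ y _ h => he h)]
    exact Finset.sum_le_sum_of_subset_of_nonneg (Finset.subset_univ _) fun x _ _ => hf x
  calc (Fintype.card X₁ : ℝ) / Fintype.card X * ((∑ x, f (e x)) / Fintype.card X₁)
      = (∑ x, f (e x)) / Fintype.card X := by field_simp
    _ ≤ _ := div_le_div_of_nonneg_right h1 hX.le

lemma inj_coe {T : Type*} (S : Finset T) (t : ℕ) :
    Function.Injective (fun (p : Fin t → S) (i : Fin t) => (p i : T)) :=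
  fun _ _ h => funext fun i => Subtype.ext (congrFun h i)

lemma blow_restrict (A : X → Y → ℝ) (B : X → Z → ℝ) (C : Y → Z → ℝ)
    (hA0 : ∀ x y, 0 ≤ A x y) (hB0 : ∀ x z, 0 ≤ B x z) (hC0 : ∀ y z, 0 ≤ C y z)
    (X' : Finset X) (Y' : Finset Y) (Z' : Finset Z) [Nonempty X'] [Nonempty Y'] [Nonempty Z']
    (t : ℕ) :
    ((X'.card * Y'.card * Z'.card : ℝ)
        / (Fintype.card X * Fintype.card Y * Fintype.card Z)) ^ t
      * blow (fun (x : X') (y : Y') => A x y) (fun (x : X') (z : Z') => B x z)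
        (fun (y : Y') (z : Z') => C y z) t ≤ blow A B C t := by
  classical
  set F : (Fin t → X) → (Fin t → Y) → (Fin t → Z) → ℝ := fun p q r =>
    (∏ i, ∏ j, A (p i) (q j)) * (∏ i, ∏ j, B (p i) (r j)) * ∏ i, ∏ j, C (q i) (r j) with hF
  have hF0 : ∀ p q r, 0 ≤ F p q r := fun p q r =>
    mul_nonneg (mul_nonneg (Finset.prod_nonneg fun i _ => Finset.prod_nonneg fun j _ => hA0 _ _)
      (Finset.prod_nonneg fun i _ => Finset.prod_nonneg fun j _ => hB0 _ _))
      (Finset.prod_nonneg fun i _ => Finset.prod_nonneg fun j _ => hC0 _ _)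
  have hF1 : ∀ p q, 0 ≤ 𝔼 r, F p q r := fun p q => exp_nonneg (hF0 p q)
  have hF2 : ∀ p, 0 ≤ 𝔼 q, 𝔼 r, F p q r := fun p => exp_nonneg (hF1 p)
  have h1 := exp_restrict _ (inj_coe X' t) (fun p => 𝔼 q, 𝔼 r, F p q r) hF2
  have h2 := fun p => exp_restrict _ (inj_coe Y' t) (fun q => 𝔼 r, F p q r) (hF1 p)
  have h3 := fun p q => exp_restrict _ (inj_coe Z' t) (fun r => F p q r) (fun r => hF0 p q r)
  simp only [Fintype.card_fun, Fintype.card_fin, Fintype.card_coe, Nat.cast_pow, ← div_pow]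
    at h1 h2 h3
  refine le_trans ?_ h1
  have e : ((X'.card * Y'.card * Z'.card : ℝ)
        / (Fintype.card X * Fintype.card Y * Fintype.card Z)) ^ t
      = ((X'.card : ℝ) / Fintype.card X) ^ t * (((Y'.card : ℝ) / Fintype.card Y) ^ t
        * ((Z'.card : ℝ) / Fintype.card Z) ^ t) := by
    rw [← mul_pow, ← mul_pow]; congr 1; ring
  rw [e, mul_assoc]
  apply mul_le_mul_of_nonneg_left _
    (pow_nonneg (div_nonneg (Nat.cast_nonneg _) (Nat.cast_nonneg _)) _)
  unfold blow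
  rw [Finset.mul_expect]
  refine exp_mono fun p => le_trans ?_ (h2 _)
  rw [mul_assoc]
  apply mul_le_mul_of_nonneg_left _
    (pow_nonneg (div_nonneg (Nat.cast_nonneg _) (Nat.cast_nonneg _)) _)
  rw [Finset.mul_expect]
  exact exp_mono fun q => h3 _ _

theorem blow_lower (A : X → Y → ℝ) (B : X → Z → ℝ) (C : Y → Z → ℝ)
    (hA0 : ∀ x y, 0 ≤ A x y) (hB0 : ∀ x z, 0 ≤ B x z) (hC0 : ∀ y z, 0 ≤ C y z)
    (hA1 : ∀ x y, A x y ≤ 1) (hB1 : ∀ x z, B x z ≤ 1) (hC1 : ∀ y z, C y z ≤ 1)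
    {D : ℝ} (hD : 1 ≤ D) (hτ : Real.exp (-D) ≤ 𝔼 x, 𝔼 y, 𝔼 z, A x y * B x z * C y z) (t : ℕ) :
    Real.exp (-(1000 * (t ^ 2 * D + t * D ^ 2))) ≤ blow A B C t := by
  classical
  rcases Nat.eq_zero_or_pos t with rfl | ht
  · simp [blow]
  set q : ℕ := 2 * ⌈D + 3 / 2⌉₊ with hq
  have hq1 : 2 * D + 3 ≤ q := by
    have := Nat.le_ceil (D + 3 / 2)
    rw [hq]; push_cast; linarith only [this]
  have hq2 : (q : ℝ) ≤ 7 * D := by
    have := Nat.ceil_lt_add_one (show 0 ≤ D + 3 / 2 by linarith only [hD])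
    rw [hq]; push_cast; linarith only [hD, this]
  set s : ℕ := 2 * t + 14 * q + 1 with hs
  have hsR : (s : ℝ) = 2 * t + 14 * q + 1 := by rw [hs]; push_cast; ring
  have hs0 : (0 : ℝ) < s := by rw [hsR]; positivity
  obtain ⟨X', Y', Z', p, hX', hY', hZ', hp, hcnt, hρ, hbox⟩ :=
    regularize (fun x y z => A x y * B x z * C y z)
      (fun x y z => mul_le_one₀ (mul_le_one₀ (hA1 x y) (hB0 x z) (hB1 x z)) (hC0 y z) (hC1 y z))
      (Real.exp_pos (-D)) (show 0 < 1 / (2 * (s : ℝ)) by positivity) hτ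
  have : Nonempty X' := hX'.to_subtype
  have : Nonempty Y' := hY'.to_subtype
  have : Nonempty Z' := hZ'.to_subtype
  have hX : (0 : ℝ) < X'.card := by exact_mod_cast hX'.card_pos
  have hY : (0 : ℝ) < Y'.card := by exact_mod_cast hY'.card_pos
  have hZ : (0 : ℝ) < Z'.card := by exact_mod_cast hZ'.card_pos
  have hc := core (fun (x : X') (y : Y') => A x y) (fun (x : X') (z : Z') => B x z)
    (fun (y : Y') (z : Z') => C y z) (fun _ _ => hA0 _ _) (fun _ _ => hB0 _ _)
    (fun _ _ => hC0 _ _) (fun _ _ => hA1 _ _) (fun _ _ => hB1 _ _) (fun _ _ => hC1 _ _)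
    hD hp (t := t) (q := q) (s := s) ⟨⌈D + 3 / 2⌉₊, by rw [hq]; ring⟩ hq1 hq2 hs
    (by
      simp only [exp_eq, ← Finset.sum_div, div_div, Fintype.card_coe]
      rw [div_eq_iff (by positivity)]
      have e : ∑ x : X', ∑ y : Y', ∑ z : Z', A x y * B x z * C y z
          = cnt (fun x y z => A x y * B x z * C y z) X' Y' Z' := by
        unfold cnt
        rw [← Finset.sum_coe_sort X']
        refine Finset.sum_congr rfl fun x _ => ?_
        rw [← Finset.sum_coe_sort Y']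
        refine Finset.sum_congr rfl fun y _ => ?_
        rw [← Finset.sum_coe_sort Z']
      rw [e, hcnt]; ring)
    (fun U W R => by
      have h := hbox (U.map (Function.Embedding.subtype _)) (W.map (Function.Embedding.subtype _))
        (R.map (Function.Embedding.subtype _))
      simp only [Finset.card_map, cnt, Finset.sum_map, Function.Embedding.coe_subtype] at h
      simpa only [Fintype.card_coe, cnt] using h)
  have hr := blow_restrict A B C hA0 hB0 hC0 X' Y' Z' t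
  refine le_trans ?_ hr
  refine le_trans ?_ (mul_le_mul (pow_le_pow_left₀ (Real.rpow_nonneg (Real.exp_pos _).le _) hρ t)
    hc (by positivity) (by positivity))
  rw [← Real.exp_mul, ← Real.exp_nat_mul, ← Real.exp_nat_mul, ← Real.exp_add]
  apply Real.exp_le_exp.2
  have ht1 : (1 : ℝ) ≤ t := by exact_mod_cast ht
  rw [one_div_one_div, hsR]
  push_cast
  have k1 : (t : ℝ) * D * q ≤ t * D * (7 * D) := mul_le_mul_of_nonneg_left hq2 (by positivity)
  have k2 : (t : ℝ) * D ≤ t ^ 2 * D :=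
    mul_le_mul_of_nonneg_right (by linarith only [ht1, mul_nonneg_of_nonpos_of_nonpos (Mathlib.Tactic.Linarith.sub_nonpos_of_le (Mathlib.Tactic.Linarith.natCast_nonneg ℝ t)) (Mathlib.Tactic.Linarith.sub_nonpos_of_le ht1)]) (by linarith only [hD])
  have k3 : D ≤ t * D := le_mul_of_one_le_left (by linarith only [hD]) ht1
  have k4 : 0 ≤ (t : ℝ) * D ^ 2 := by positivity
  linarith only [hD, k1, k2, k3, k4]

end Pool.Agent.Work.MP_af588c_co.TB
end

-- merged part: Pool.Agent.Work.MP_af588c_co.TB5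
section
/-! Transfer to hypergraph homomorphism counts. -/

set_option linter.unusedSectionVars false

namespace Pool.Agent.Work.MP_af588c_co.TB

open Finset
open scoped BigOperators

open Classical in
noncomputable def ind (P : Prop) : ℝ := if P then 1 else 0

lemma ind_nonneg (P : Prop) : 0 ≤ ind P := by unfold ind; split_ifs <;> norm_num
lemma ind_le_one (P : Prop) : ind P ≤ 1 := by unfold ind; split_ifs <;> norm_num
lemma ind_of {P : Prop} (h : P) : ind P = 1 := by unfold ind; rw [if_pos h]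
lemma of_ind_ne {P : Prop} (h : ind P ≠ 0) : P := by
  unfold ind at h; split_ifs at h with h1
  · exact h1
  · exact absurd rfl h
lemma le_ind {P : Prop} {f : ℝ} (h1 : f ≤ 1) (h : f ≠ 0 → P) : f ≤ ind P := by
  by_cases h0 : f = 0
  · rw [h0]; exact ind_nonneg P
  · rw [ind_of (h h0)]; exact h1

lemma copies_eq {W : Type} [Fintype W] [DecidableEq W] {n : ℕ} [NeZero n] (H : Set (Finset W))
    (E : Finset (Finset (Fin n))) :
    (copies H E : ℝ) = (𝔼 φ : W → Fin n, ind (∀ e ∈ H, e.image φ ∈ E)) * (n : ℝ) ^ Fintype.card W := by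
  classical
  have hn : (0 : ℝ) < n := by exact_mod_cast NeZero.pos n
  rw [exp_eq, Fintype.card_fun, Fintype.card_fin, Nat.cast_pow, div_mul_cancel₀ _ (by positivity)]
  unfold copies ind
  rw [Nat.card_eq_fintype_card, Fintype.card_subtype, Finset.card_filter]
  push_cast
  refine Finset.sum_congr rfl fun φ _ => ?_
  congr

variable {V : Type} [Fintype V] [Nonempty V]

lemma exp_comp_inj {W J : Type} [Fintype W] [Fintype J] [DecidableEq W] [DecidableEq J] (ι : W → J) (hι : Function.Injective ι)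
    (F : (W → V) → ℝ) : 𝔼 ψ : J → V, F (ψ ∘ ι) = 𝔼 φ : W → V, F φ := by
  classical
  let e1 := Equiv.piEquivPiSubtypeProd (fun j => j ∈ Set.range ι) (fun _ => V)
  let e2 : (Set.range ι → V) ≃ (W → V) := Equiv.arrowCongr (Equiv.ofInjective ι hι).symm (Equiv.refl V)
  rw [Fintype.expect_equiv e1 (fun ψ => F (ψ ∘ ι)) (fun r => F (e2 r.1)) (fun ψ => rfl), exp_prod]
  simp only [Fintype.expect_const]
  exact Fintype.expect_equiv e2 _ _ fun _ => rfl

def mk3 {t : ℕ} (r : (Fin t → V) × (Fin t → V) × (Fin t → V)) : Fin 3 × Fin t → V :=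
  fun k => ![r.1, r.2.1, r.2.2] k.1 k.2

lemma mk3_bij {t : ℕ} : Function.Bijective (mk3 (V := V) (t := t)) := by
  constructor
  · intro r r' h
    refine Prod.ext (funext fun j => congrFun h (0, j))
      (Prod.ext (funext fun j => congrFun h (1, j)) (funext fun j => congrFun h (2, j)))
  · intro ψ
    refine ⟨(fun j => ψ (0, j), fun j => ψ (1, j), fun j => ψ (2, j)), funext fun ⟨i, j⟩ => ?_⟩
    fin_cases i <;> rfl

lemma exp_mk3 {t : ℕ} (F : (Fin 3 × Fin t → V) → ℝ) :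
    𝔼 ψ, F ψ = 𝔼 p, 𝔼 q, 𝔼 r, F (mk3 (p, q, r)) := by
  classical
  rw [← Fintype.expect_bijective _ mk3_bij (fun r => F (mk3 r)) F (fun _ => rfl), exp_prod]
  simp only [exp_prod]

lemma exp_pi {I : Type} [Fintype I] [DecidableEq I] (f : I → V → ℝ) :
    𝔼 ω : I → V, ∏ i, f i (ω i) = ∏ i, 𝔼 w, f i w := by
  classical
  simp only [exp_eq]
  rw [Finset.prod_div_distrib, Finset.prod_univ_sum, Fintype.piFinset_univ, Finset.prod_const,
    Fintype.card_fun, Nat.cast_pow, Finset.card_univ]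

lemma prod2_le_one {t : ℕ} (f : Fin t → Fin t → ℝ) (h0 : ∀ i j, 0 ≤ f i j) (h1 : ∀ i j, f i j ≤ 1) :
    0 ≤ ∏ i, ∏ j, f i j ∧ ∏ i, ∏ j, f i j ≤ 1 :=
  ⟨Finset.prod_nonneg fun i _ => Finset.prod_nonneg fun j _ => h0 i j,
    Finset.prod_le_one (fun i _ => Finset.prod_nonneg fun j _ => h0 i j)
      fun i _ => Finset.prod_le_one (fun j _ => h0 i j) fun j _ => h1 i j⟩

lemma blow_le_ind {t : ℕ} (A B C : V → V → Prop) (p q r : Fin t → V) {P : Prop}
    (h : (∀ i j, A (p i) (q j)) → (∀ i j, B (p i) (r j)) → (∀ i j, C (q i) (r j)) → P) :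
    (∏ i, ∏ j, ind (A (p i) (q j))) * (∏ i, ∏ j, ind (B (p i) (r j)))
      * ∏ i, ∏ j, ind (C (q i) (r j)) ≤ ind P := by
  have h1 := prod2_le_one (fun i j => ind (A (p i) (q j))) (fun _ _ => ind_nonneg _)
    (fun _ _ => ind_le_one _)
  have h2 := prod2_le_one (fun i j => ind (B (p i) (r j))) (fun _ _ => ind_nonneg _)
    (fun _ _ => ind_le_one _)
  have h3 := prod2_le_one (fun i j => ind (C (q i) (r j))) (fun _ _ => ind_nonneg _)
    (fun _ _ => ind_le_one _)
  refine le_ind (mul_le_one₀ (mul_le_one₀ h1.2 h2.1 h2.2) h3.1 h3.2) fun h0 => ?_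
  simp only [ne_eq, mul_eq_zero, Finset.prod_eq_zero_iff, Finset.mem_univ, true_and, not_or,
    not_exists] at h0
  exact h (fun i j => of_ind_ne (h0.1.1 i j)) (fun i j => of_ind_ne (h0.1.2 i j))
    (fun i j => of_ind_ne (h0.2 i j))

section hyper

variable {n : ℕ} [NeZero n] (E : Finset (Finset (Fin n)))

lemma dens_ge (hE : ∀ e ∈ E, e.card = 3) :
    (E.card : ℝ) / (n : ℝ) ^ 3 ≤ 𝔼 x, 𝔼 y, 𝔼 z, ind (({x, y, z} : Finset (Fin n)) ∈ E) := by
  classical
  have h1 := exp_prod (fun r : Fin n × Fin n × Fin n =>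
    ind (({r.1, r.2.1, r.2.2} : Finset (Fin n)) ∈ E))
  conv_rhs at h1 => simp only [exp_prod]
  rw [← h1, exp_eq]
  simp only [Fintype.card_prod, Fintype.card_fin]
  have hn : (0 : ℝ) < n := by exact_mod_cast NeZero.pos n
  have e : ((n * (n * n) : ℕ) : ℝ) = (n : ℝ) ^ 3 := by push_cast; ring
  rw [e]
  apply div_le_div_of_nonneg_right _ (by positivity)
  have h2 : E.card ≤ (Finset.univ.filter fun r : Fin n × Fin n × Fin n =>
      ({r.1, r.2.1, r.2.2} : Finset (Fin n)) ∈ E).card := by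
    apply Finset.card_le_card_of_surjOn
      (fun r : Fin n × Fin n × Fin n => ({r.1, r.2.1, r.2.2} : Finset (Fin n)))
    intro e he
    obtain ⟨x, y, z, -, -, -, rfl⟩ := Finset.card_eq_three.1 (hE e he)
    exact ⟨(x, y, z), by simpa using he, rfl⟩
  rw [Finset.card_filter] at h2
  have h3 : (E.card : ℝ) ≤ ∑ r : Fin n × Fin n × Fin n,
      if ({r.1, r.2.1, r.2.2} : Finset (Fin n)) ∈ E then (1 : ℝ) else 0 := by exact_mod_cast h2
  refine h3.trans (le_of_eq (Finset.sum_congr rfl fun r _ => ?_))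
  unfold ind; congr

lemma dens_le (hE : ∀ e ∈ E, e.card = 3) : (E.card : ℝ) / (n : ℝ) ^ 3 ≤ 1 / 6 := by
  have hn : (0 : ℝ) < n := by exact_mod_cast NeZero.pos n
  have h1 : E.card ≤ n.choose 3 := by
    have : E ⊆ Finset.powersetCard 3 Finset.univ := fun e he =>
      Finset.mem_powersetCard.2 ⟨Finset.subset_univ _, hE e he⟩
    simpa using Finset.card_le_card this
  have h2 := Nat.choose_le_pow_div (α := ℝ) 3 n
  have h3 : (E.card : ℝ) ≤ n.choose 3 := by exact_mod_cast h1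
  rw [div_le_iff₀ (by positivity)]
  simp only [Nat.factorial, Nat.succ_eq_add_one] at h2
  norm_num at h2
  linarith only [h3, h2]

end hyper

/-- the loose triangle has polynomial density -/
lemma loose (g : V → V → V → ℝ) (h0 : ∀ x y z, 0 ≤ g x y z) (h1 : ∀ x y z, g x y z ≤ 1)
    (s1 : ∀ x y z, g x y z = g x z y) (s2 : ∀ x y z, g x y z = g y z x)
    {p : ℝ} (hp : 0 ≤ p) (h : p ≤ 𝔼 x, 𝔼 y, 𝔼 z, g x y z) :
    p ^ 4 / 432 ≤ 𝔼 x, 𝔼 y, 𝔼 z, (𝔼 w, g x y w) * (𝔼 w, g x z w) * 𝔼 w, g y z w := by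
  set d : V → V → ℝ := fun x y => 𝔼 w, g x y w with hd
  have hd0 : ∀ x y, 0 ≤ d x y := fun x y => exp_nonneg fun w => h0 x y w
  set θ := p / 6 with hθ
  have hθ0 : 0 ≤ θ := by positivity
  have key : ∀ x y z, θ ^ 3 * (g x y z - ind (d x y < θ) * g x y z - ind (d x z < θ) * g x z y
      - ind (d y z < θ) * g y z x) ≤ d x y * d x z * d y z := by
    intro x y z
    rw [← s1 x y z, ← s2 x y z]
    have a0 := h0 x y z
    have b1 := mul_nonneg (ind_nonneg (d x y < θ)) a0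
    have b2 := mul_nonneg (ind_nonneg (d x z < θ)) a0
    have b3 := mul_nonneg (ind_nonneg (d y z < θ)) a0
    have hprod := mul_nonneg (mul_nonneg (hd0 x y) (hd0 x z)) (hd0 y z)
    have neg : ∀ {u : ℝ}, u ≤ 0 → θ ^ 3 * u ≤ d x y * d x z * d y z := fun hu =>
      le_trans (mul_nonpos_of_nonneg_of_nonpos (by positivity) hu) hprod
    by_cases c1 : d x y < θ
    · apply neg; rw [ind_of c1]; linarith only [b2, b3]
    by_cases c2 : d x z < θ
    · apply neg; rw [ind_of c2]; linarith only [b1, b3]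
    by_cases c3 : d y z < θ
    · apply neg; rw [ind_of c3]; linarith only [b1, b2]
    have k1 : θ ^ 3 ≤ d x y * d x z * d y z := by
      rw [pow_succ, pow_two]
      exact mul_le_mul (mul_le_mul (not_lt.1 c1) (not_lt.1 c2) hθ0 (hd0 _ _)) (not_lt.1 c3) hθ0
        (mul_nonneg (hd0 _ _) (hd0 _ _))
    refine le_trans ?_ k1
    apply mul_le_of_le_one_right (by positivity)
    linarith only [b1, b2, b3, h1, h1 x y z]
  have low : 𝔼 x, 𝔼 y, 𝔼 z, ind (d x y < θ) * g x y z ≤ θ := by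
    refine Finset.expect_le Finset.univ_nonempty fun x _ =>
      Finset.expect_le Finset.univ_nonempty fun y _ => ?_
    rw [← Finset.mul_expect]
    by_cases c : d x y < θ
    · rw [ind_of c, one_mul]; exact c.le
    · have : ind (d x y < θ) = 0 := by unfold ind; rw [if_neg c]
      rw [this, zero_mul]; exact hθ0
  have low2 : 𝔼 x, 𝔼 y, 𝔼 z, ind (d x z < θ) * g x z y ≤ θ := by
    refine le_of_eq_of_le ?_ low
    exact Finset.expect_congr rfl fun x _ => Finset.expect_comm _ _ _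
  have low3 : 𝔼 x, 𝔼 y, 𝔼 z, ind (d y z < θ) * g y z x ≤ θ := by
    refine le_of_eq_of_le ?_ low
    rw [Finset.expect_comm]
    exact Finset.expect_congr rfl fun x _ => Finset.expect_comm _ _ _
  have h2 := exp_mono fun x => exp_mono fun y => exp_mono fun z => key x y z
  simp only [← Finset.mul_expect, Finset.expect_sub_distrib] at h2
  simp only [Finset.mul_expect] at h2
  refine le_trans ?_ h2
  have : p ^ 4 / 432 = θ ^ 3 * (p - 3 * θ) := by rw [hθ]; ring
  rw [this]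
  apply mul_le_mul_of_nonneg_left _ (by positivity)
  linarith only [h, low, low2, low3]

end Pool.Agent.Work.MP_af588c_co.TB
end

-- merged part: Pool.Agent.Work.MP_af588c_co.TB6
section
/-! The three hypergraph statements. -/

set_option linter.unusedSectionVars false

namespace Pool.Agent.Work.MP_af588c_co.TB

open Finset
open scoped BigOperators

lemma rpow_eq {p : ℝ} (hp : 0 < p) (c : ℝ) :
    p ^ c = Real.exp (-(c * Real.log (1 / p))) := by
  rw [Real.rpow_def_of_pos hp, one_div, Real.log_inv]; congr 1; ring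

lemma log_ge {p : ℝ} (hp : 0 < p) (h : p ≤ 1 / 6) : 1 ≤ Real.log (1 / p) := by
  rw [Real.le_log_iff_exp_le (by positivity), le_div_iff₀ hp]
  have := Real.exp_one_lt_d9
  linarith only [h, hp, this, mul_pos_of_neg_of_neg (Mathlib.Tactic.Linarith.sub_neg_of_lt hp) (Mathlib.Tactic.Linarith.sub_neg_of_lt hp), mul_nonneg_of_nonpos_of_nonpos (le_of_lt (Mathlib.Tactic.Linarith.sub_neg_of_lt hp)) (Mathlib.Tactic.Linarith.sub_nonpos_of_le h), mul_pos_of_neg_of_neg (Mathlib.Tactic.Linarith.sub_neg_of_lt hp) (Mathlib.Tactic.Linarith.sub_neg_of_lt this)]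

lemma exp_neg_log {p : ℝ} (hp : 0 < p) (m : ℕ) :
    Real.exp (-(m * Real.log (1 / p))) = p ^ m := by
  rw [← rpow_eq hp, Real.rpow_natCast]

variable {n : ℕ} [NeZero n]

theorem part_triangle (Γ : SimpleGraph (Fin n)) [DecidableRel Γ.Adj] {p : ℝ} (hp0 : 0 < p)
    (hp : p = (Γ.cliqueFinset 3).card / (n : ℝ) ^ 3) (t : ℕ) (W : Type) [Fintype W]
    [DecidableEq W] (H : Set (Finset W)) (col : W → Fin 3)
    (hH : ∀ e ∈ H, e.card = 3 ∧ e.image col = Finset.univ)
    (ht : ∀ i, (Finset.univ.filter fun w => col w = i).card ≤ t) :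
    Real.exp (-(1000 * (t ^ 2 * Real.log (1 / p) + t * Real.log (1 / p) ^ 2)))
      * (n : ℝ) ^ Fintype.card W ≤ copies H (Γ.cliqueFinset 3) := by
  classical
  have hE : ∀ e ∈ Γ.cliqueFinset 3, e.card = 3 := fun e he =>
    (SimpleGraph.mem_cliqueFinset_iff.1 he).card_eq
  have hL := log_ge hp0 (hp ▸ dens_le _ hE)
  rw [copies_eq]
  apply mul_le_mul_of_nonneg_right _ (by positivity)
  have h1 := blow_lower (fun x y => ind (Γ.Adj x y)) (fun x y => ind (Γ.Adj x y))
    (fun x y => ind (Γ.Adj x y)) (fun _ _ => ind_nonneg _) (fun _ _ => ind_nonneg _)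
    (fun _ _ => ind_nonneg _) (fun _ _ => ind_le_one _) (fun _ _ => ind_le_one _)
    (fun _ _ => ind_le_one _) hL (by
      have e := exp_neg_log hp0 1
      rw [Nat.cast_one, one_mul, pow_one] at e
      rw [e, hp]
      refine (dens_ge _ hE).trans (exp_mono fun x => exp_mono fun y => exp_mono fun z => ?_)
      by_cases h : ({x, y, z} : Finset (Fin n)) ∈ Γ.cliqueFinset 3
      · have h2 := SimpleGraph.is3Clique_triple_iff.1 (SimpleGraph.mem_cliqueFinset_iff.1 h)
        rw [ind_of h, ind_of h2.1, ind_of h2.2.1, ind_of h2.2.2]; norm_num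
      · have : ind (({x, y, z} : Finset (Fin n)) ∈ Γ.cliqueFinset 3) = 0 := by
          unfold ind; rw [if_neg h]
        rw [this]
        exact mul_nonneg (mul_nonneg (ind_nonneg _) (ind_nonneg _)) (ind_nonneg _)) t
  refine h1.trans ?_
  have hf : ∀ i : Fin 3, Nonempty ({w // col w = i} ↪ Fin t) := fun i =>
    Function.Embedding.nonempty_of_card_le (by
      rw [Fintype.card_subtype, Fintype.card_fin]; exact ht i)
  let f := fun i => Classical.choice (hf i)
  let ι : W → Fin 3 × Fin t := fun w => (col w, f (col w) ⟨w, rfl⟩)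
  have hval : ∀ w i (h : col w = i), ι w = (i, f i ⟨w, h⟩) := by
    intro w i h; subst h; rfl
  have hι : Function.Injective ι := by
    intro w w' h
    have h1 : col w' = col w := (congrArg Prod.fst h).symm
    rw [hval w' _ h1, hval w _ rfl] at h
    exact congrArg Subtype.val ((f (col w)).injective (congrArg Prod.snd h))
  rw [← exp_comp_inj ι hι, exp_mk3]
  refine exp_mono fun x => exp_mono fun y => exp_mono fun z => ?_
  refine blow_le_ind Γ.Adj Γ.Adj Γ.Adj x y z fun a1 a2 a3 e he => ?_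
  obtain ⟨hc, hi⟩ := hH e he
  have hex : ∀ i : Fin 3, ∃ w ∈ e, col w = i := fun i =>
    Finset.mem_image.1 (hi ▸ Finset.mem_univ i)
  obtain ⟨w0, m0, c0⟩ := hex 0
  obtain ⟨w1, m1, c1⟩ := hex 1
  obtain ⟨w2, m2, c2⟩ := hex 2
  have n01 : w0 ≠ w1 := fun h => by rw [h, c1] at c0; exact absurd c0 (by decide)
  have n02 : w0 ≠ w2 := fun h => by rw [h, c2] at c0; exact absurd c0 (by decide)
  have n12 : w1 ≠ w2 := fun h => by rw [h, c2] at c1; exact absurd c1 (by decide)
  have he3 : e = {w0, w1, w2} := by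
    symm
    apply Finset.eq_of_subset_of_card_le
    · intro w hw
      simp only [Finset.mem_insert, Finset.mem_singleton] at hw
      rcases hw with rfl | rfl | rfl <;> assumption
    · rw [hc, Finset.card_eq_three.2 ⟨w0, w1, w2, n01, n02, n12, rfl⟩]
  rw [he3, Finset.image_insert, Finset.image_insert, Finset.image_singleton,
    SimpleGraph.mem_cliqueFinset_iff, SimpleGraph.is3Clique_triple_iff]
  simp only [Function.comp, hval w0 0 c0, hval w1 1 c1, hval w2 2 c2]
  exact ⟨a1 _ _, a2 _ _, a3 _ _⟩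

lemma perm1 (x y z : Fin n) : ({x, y, z} : Finset (Fin n)) = {x, z, y} := by
  rw [Finset.pair_comm]

lemma perm2 (x y z : Fin n) : ({x, y, z} : Finset (Fin n)) = {y, z, x} := by
  rw [Finset.insert_comm, Finset.pair_comm]

lemma loose_E (E : Finset (Finset (Fin n))) (hE : ∀ e ∈ E, e.card = 3) {p : ℝ} (hp0 : 0 < p)
    (hp : p = E.card / (n : ℝ) ^ 3) :
    2 * p ^ 8 ≤ 𝔼 x, 𝔼 y, 𝔼 z, (𝔼 w, ind (({x, y, w} : Finset (Fin n)) ∈ E))
      * (𝔼 w, ind (({x, z, w} : Finset (Fin n)) ∈ E))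
      * 𝔼 w, ind (({y, z, w} : Finset (Fin n)) ∈ E) := by
  have h6 : p ≤ 1 / 6 := hp ▸ dens_le _ hE
  have h1 := loose (fun x y z => ind (({x, y, z} : Finset (Fin n)) ∈ E))
    (fun _ _ _ => ind_nonneg _) (fun _ _ _ => ind_le_one _)
    (fun x y z => by simp only [perm1 x y z]) (fun x y z => by simp only [perm2 x y z])
    hp0.le (hp ▸ dens_ge _ hE)
  refine le_trans ?_ h1
  have h2 := pow_le_pow_left₀ hp0.le h6 4
  have h3 : p ^ 8 = p ^ 4 * p ^ 4 := by ring
  have h4 : 0 < p ^ 4 := by positivity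
  rw [h3]; (refine le_of_not_gt fun h_nl => ?_; linarith only [h_nl, h6, hp0, h4, h2, mul_nonneg_of_nonpos_of_nonpos (Mathlib.Tactic.Linarith.sub_nonpos_of_le (mul_self_nonneg (p ^ (4 : ℕ)))) (Mathlib.Tactic.Linarith.sub_nonpos_of_le h6), mul_pos_of_neg_of_neg (Mathlib.Tactic.Linarith.sub_neg_of_lt hp0) (Mathlib.Tactic.Linarith.sub_neg_of_lt h4), mul_pos_of_neg_of_neg (Mathlib.Tactic.Linarith.sub_neg_of_lt hp0) (Mathlib.Tactic.Linarith.sub_neg_of_lt h_nl), mul_nonneg_of_nonpos_of_nonpos (Mathlib.Tactic.Linarith.sub_nonpos_of_le h6) (le_of_lt (Mathlib.Tactic.Linarith.sub_neg_of_lt h_nl)), mul_nonneg_of_nonpos_of_nonpos (Mathlib.Tactic.Linarith.sub_nonpos_of_le h2) (le_of_lt (Mathlib.Tactic.Linarith.sub_neg_of_lt h4))])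

lemma exp_scale {L : ℝ} (hL : 1 ≤ L) {t : ℕ} :
    Real.exp (-(64000 * (t ^ 2 * L + t * L ^ 2)))
      ≤ Real.exp (-(1000 * (t ^ 2 * ((8 : ℕ) * L) + t * ((8 : ℕ) * L) ^ 2))) := by
  apply Real.exp_le_exp.2
  have : 0 ≤ (t : ℝ) ^ 2 * L := by positivity
  push_cast
  linarith only [this]

theorem part_expansion (E : Finset (Finset (Fin n))) (hE : ∀ e ∈ E, e.card = 3) {p : ℝ}
    (hp0 : 0 < p) (hp : p = E.card / (n : ℝ) ^ 3) (t : ℕ) :
    Real.exp (-(64000 * (t ^ 2 * Real.log (1 / p) + t * Real.log (1 / p) ^ 2)))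
      * (n : ℝ) ^ (3 * t + 3 * t ^ 2) ≤ copies (expansion t) E := by
  classical
  have hL := log_ge hp0 (hp ▸ dens_le _ hE)
  rw [copies_eq]
  have hc : Fintype.card ((Fin 3 × Fin t) ⊕ (Fin 3 × Fin t × Fin t)) = 3 * t + 3 * t ^ 2 := by
    simp [pow_two]
  rw [hc]
  apply mul_le_mul_of_nonneg_right _ (by positivity)
  set d : Fin n → Fin n → ℝ := fun x y => 𝔼 w, ind (({x, y, w} : Finset (Fin n)) ∈ E) with hd
  have hd0 : ∀ x y, 0 ≤ d x y := fun x y => exp_nonneg fun w => ind_nonneg _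
  have hd1 : ∀ x y, d x y ≤ 1 := fun x y =>
    Finset.expect_le Finset.univ_nonempty fun w _ => ind_le_one _
  have hds : ∀ x y, d x y = d y x := fun x y => by
    simp only [hd, Finset.insert_comm x y]
  have h1 := blow_lower d d d hd0 hd0 hd0 hd1 hd1 hd1 (D := (8 : ℕ) * Real.log (1 / p))
    (by push_cast; linarith only [hL]) (by
      rw [exp_neg_log hp0]
      have := loose_E E hE hp0 hp
      have h2 : 0 < p ^ 8 := by positivity
      exact le_trans (by linarith only [h2]) this) t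
  refine ((exp_scale hL).trans h1).trans ?_
  rw [Fintype.expect_equiv (Equiv.sumArrowEquivProdArrow _ _ _) _
    (fun r => ind (∀ e ∈ expansion t, e.image (Sum.elim r.1 r.2) ∈ E))
    (fun φ => by
      have : Sum.elim ((Equiv.sumArrowEquivProdArrow _ _ _) φ).1
          ((Equiv.sumArrowEquivProdArrow _ _ _) φ).2 = φ := by
        funext w; cases w <;> rfl
      rw [this]), exp_prod, exp_mk3]
  refine exp_mono fun x => exp_mono fun y => exp_mono fun z => ?_
  have h3 := exp_pi (fun (i : Fin 3 × Fin t × Fin t) (w : Fin n) =>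
    ind (({mk3 (x, y, z) (i.1 + 1, i.2.1), mk3 (x, y, z) (i.1 + 2, i.2.2), w} : Finset (Fin n)) ∈ E))
  refine le_trans (le_of_eq ?_) (le_trans (le_of_eq h3.symm) (exp_mono fun ω => ?_))
  · simp only [Fintype.prod_prod_type, Fin.prod_univ_three]
    have e1 : ∏ i, ∏ j, d (x i) (z j) = ∏ i, ∏ j, d (z i) (x j) := by
      rw [Finset.prod_comm]; simp only [hds]
    rw [e1]
    change _ = (∏ i, ∏ j, d (y i) (z j)) * (∏ i, ∏ j, d (z i) (x j)) * ∏ i, ∏ j, d (x i) (y j)
    ring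
  · refine le_ind (Finset.prod_le_one (fun _ _ => ind_nonneg _) fun _ _ => ind_le_one _)
      fun h0 e he => ?_
    obtain ⟨k, a, b, rfl⟩ := he
    rw [Finset.prod_ne_zero_iff] at h0
    have := of_ind_ne (h0 (k, a, b) (Finset.mem_univ _))
    simpa only [Finset.image_insert, Finset.image_singleton, Sum.elim_inl, Sum.elim_inr] using this

def mkB {V : Type} {t : ℕ} (r : (V × V × V) × (Fin 3 × Fin t → V)) :
    Fin 3 × Option (Fin t) → V
  | (k, none) => ![r.1.1, r.1.2.1, r.1.2.2] k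
  | (k, some a) => r.2 (k, a)

lemma mkB_bij {V : Type} {t : ℕ} : Function.Bijective (mkB (V := V) (t := t)) := by
  constructor
  · intro r r' h
    refine Prod.ext (Prod.ext (congrFun h (0, none))
      (Prod.ext (congrFun h (1, none)) (congrFun h (2, none)))) ?_
    exact funext fun ⟨k, a⟩ => congrFun h (k, some a)
  · intro φ
    refine ⟨((φ (0, none), φ (1, none), φ (2, none)), fun r => φ (r.1, some r.2)),
      funext fun ⟨i, j⟩ => ?_⟩
    cases j
    · fin_cases i <;> rfl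
    · rfl

theorem part_book (E : Finset (Finset (Fin n))) (hE : ∀ e ∈ E, e.card = 3) {p : ℝ}
    (hp0 : 0 < p) (hp : p = E.card / (n : ℝ) ^ 3) (t : ℕ) (ht : 1 ≤ t) :
    Real.exp (-(64008 * (t ^ 2 * Real.log (1 / p) + t * Real.log (1 / p) ^ 2)))
      * (n : ℝ) ^ (3 * t + 3) ≤ copies (book t) E := by
  classical
  have hL := log_ge hp0 (hp ▸ dens_le _ hE)
  rw [copies_eq]
  have hc : Fintype.card (Fin 3 × Option (Fin t)) = 3 * t + 3 := by simp [mul_add]
  rw [hc]
  apply mul_le_mul_of_nonneg_right _ (by positivity)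
  set L := Real.log (1 / p) with hLd
  set m := Real.exp (-(64000 * (t ^ 2 * L + t * L ^ 2))) with hm
  have hm0 : 0 < m := Real.exp_pos _
  set l : Fin n → Fin n → Fin n → ℝ := fun w x y => ind (({x, y, w} : Finset (Fin n)) ∈ E) with hl
  set T : Fin n × Fin n × Fin n → ℝ := fun u =>
    𝔼 x, 𝔼 y, 𝔼 z, l u.2.2 x y * l u.2.1 x z * l u.1 y z with hT
  have hT1 : ∀ u, T u ≤ 1 := fun u =>
    Finset.expect_le Finset.univ_nonempty fun x _ => Finset.expect_le Finset.univ_nonempty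
      fun y _ => Finset.expect_le Finset.univ_nonempty fun z _ =>
        mul_le_one₀ (mul_le_one₀ (ind_le_one _) (ind_nonneg _) (ind_le_one _)) (ind_nonneg _)
          (ind_le_one _)
  have hb0 : ∀ u : Fin n × Fin n × Fin n, 0 ≤ blow (l u.2.2) (l u.2.1) (l u.1) t := fun u =>
    exp_nonneg fun x => exp_nonneg fun y => exp_nonneg fun z =>
      mul_nonneg (mul_nonneg (Finset.prod_nonneg fun _ _ => Finset.prod_nonneg fun _ _ =>
        ind_nonneg _) (Finset.prod_nonneg fun _ _ => Finset.prod_nonneg fun _ _ => ind_nonneg _))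
        (Finset.prod_nonneg fun _ _ => Finset.prod_nonneg fun _ _ => ind_nonneg _)
  have hpt : ∀ u, T u ≤ p ^ 8 + blow (l u.2.2) (l u.2.1) (l u.1) t / m := by
    intro u
    have h8 : 0 < p ^ 8 := by positivity
    by_cases h : p ^ 8 ≤ T u
    · have h1 := blow_lower (l u.2.2) (l u.2.1) (l u.1) (fun _ _ => ind_nonneg _)
        (fun _ _ => ind_nonneg _) (fun _ _ => ind_nonneg _) (fun _ _ => ind_le_one _)
        (fun _ _ => ind_le_one _) (fun _ _ => ind_le_one _) (D := (8 : ℕ) * L)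
        (by push_cast; linarith only [hL]) (by rw [hLd, exp_neg_log hp0]; exact h) t
      have h2 := (exp_scale hL).trans h1
      rw [← hm, ← one_le_div hm0] at h2
      linarith only [h8, h2, hT1, hT1 u]
    · have := div_nonneg (hb0 u) hm0.le
      linarith only [h, this, not_le.1 h]
  have hET : 2 * p ^ 8 ≤ 𝔼 u, T u := by
    refine (loose_E E hE hp0 hp).trans (le_of_eq ?_)
    symm
    simp only [hT]
    rw [Finset.expect_comm]
    refine Finset.expect_congr rfl fun x _ => ?_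
    rw [Finset.expect_comm]
    refine Finset.expect_congr rfl fun y _ => ?_
    rw [Finset.expect_comm]
    refine Finset.expect_congr rfl fun z _ => ?_
    simp only [exp_prod, hl, ← Finset.expect_mul, ← Finset.mul_expect]
  have h3 := exp_mono hpt
  rw [Finset.expect_add_distrib, Fintype.expect_const, ← Finset.expect_div] at h3
  have h4 : p ^ 8 * m ≤ 𝔼 u : Fin n × Fin n × Fin n, blow (l u.2.2) (l u.2.1) (l u.1) t := by
    rw [← le_div_iff₀ hm0]; linarith only [hET, h3]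
  have h5 : Real.exp (-(64008 * (t ^ 2 * L + t * L ^ 2))) ≤ p ^ 8 * m := by
    rw [← exp_neg_log hp0, hm, ← Real.exp_add, ← hLd]
    apply Real.exp_le_exp.2
    have ht1 : (1 : ℝ) ≤ t := by exact_mod_cast ht
    have k1 : L ≤ (t : ℝ) ^ 2 * L := le_mul_of_one_le_left (by linarith only [hL]) (by linarith only [ht1, mul_nonneg_of_nonpos_of_nonpos (Mathlib.Tactic.Linarith.sub_nonpos_of_le (Mathlib.Tactic.Linarith.natCast_nonneg ℝ t)) (Mathlib.Tactic.Linarith.sub_nonpos_of_le ht1)])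
    have k2 : 0 ≤ (t : ℝ) * L ^ 2 := by positivity
    push_cast
    linarith only [k1, k2]
  refine (h5.trans h4).trans ?_
  rw [← Fintype.expect_bijective _ mkB_bij
    (fun r => ind (∀ e ∈ book t, e.image (mkB r) ∈ E)) _ (fun _ => rfl),
    exp_prod (fun r => ind (∀ e ∈ book t, e.image (mkB r) ∈ E))]
  refine exp_mono fun u => ?_
  rw [exp_mk3]
  refine exp_mono fun x => exp_mono fun y => exp_mono fun z => ?_
  refine blow_le_ind (fun x y => ({x, y, u.2.2} : Finset (Fin n)) ∈ E)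
    (fun x y => ({x, y, u.2.1} : Finset (Fin n)) ∈ E)
    (fun x y => ({x, y, u.1} : Finset (Fin n)) ∈ E) x y z fun a1 a2 a3 e he => ?_
  obtain ⟨k, a, b, rfl⟩ := he
  rw [Finset.image_insert, Finset.image_insert, Finset.image_singleton]
  fin_cases k
  · exact a3 a b
  · have := a2 b a
    rw [Finset.insert_comm] at this
    exact this
  · exact a1 a b

end Pool.Agent.Work.MP_af588c_co.TB
end

-- merged part: Pool.Agent.Work.MP_af588c_co.TB7
section
namespace Pool.Agent.Work.MP_af588c_co.TB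

/-- Counting with exponent `C (t^2 + t log (1/p))`:
(1) every 3-partite `H` with parts of size at most `t` in the triangle 3-graph of any graph;
(2), (3) two explicit families with `3 t^2` edges in an arbitrary 3-graph. -/
theorem joined :
    ∃ C : ℝ, 0 < C ∧ ∀ (n t : ℕ) (p : ℝ), 1 ≤ t → 0 < p →
      (∀ (Γ : SimpleGraph (Fin n)) [DecidableRel Γ.Adj],
        ((Γ.cliqueFinset 3).card : ℝ) = p * (n : ℝ) ^ 3 → (Γ.cliqueFinset 3).Nonempty →
        ∀ (W : Type) [Fintype W] [DecidableEq W] (H : Set (Finset W)) (col : W → Fin 3),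
          (∀ e ∈ H, e.card = 3 ∧ e.image col = Finset.univ) →
          (∀ i, (Finset.univ.filter fun w => col w = i).card ≤ t) →
          p ^ (C * ((t : ℝ) ^ 2 + t * Real.log (1 / p))) * (n : ℝ) ^ Fintype.card W
            ≤ copies H (Γ.cliqueFinset 3)) ∧
      (∀ E : Finset (Finset (Fin n)), (∀ e ∈ E, e.card = 3) →
        (E.card : ℝ) = p * (n : ℝ) ^ 3 → E.Nonempty →
          p ^ (C * ((t : ℝ) ^ 2 + t * Real.log (1 / p))) * (n : ℝ) ^ (3 * t + 3)
            ≤ copies (book t) E ∧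
          p ^ (C * ((t : ℝ) ^ 2 + t * Real.log (1 / p))) * (n : ℝ) ^ (3 * t + 3 * t ^ 2)
            ≤ copies (expansion t) E) := by
  refine ⟨64008, by norm_num, fun n t p ht hp0 => ?_⟩
  have aux : ∀ E : Finset (Finset (Fin n)), (∀ e ∈ E, e.card = 3) →
      (E.card : ℝ) = p * (n : ℝ) ^ 3 → E.Nonempty →
      n ≠ 0 ∧ p = E.card / (n : ℝ) ^ 3 ∧ ∀ c : ℝ, c ≤ 64008 →
        p ^ ((64008 : ℝ) * ((t : ℝ) ^ 2 + t * Real.log (1 / p)))
          ≤ Real.exp (-(c * (t ^ 2 * Real.log (1 / p) + t * Real.log (1 / p) ^ 2))) := by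
    intro E hE hp hne
    have hn : n ≠ 0 := by
      rintro rfl
      have : (0 : ℝ) < E.card := by exact_mod_cast hne.card_pos
      rw [hp] at this; simp at this
    have hn' : (0 : ℝ) < n := by exact_mod_cast Nat.pos_of_ne_zero hn
    have hp' : p = E.card / (n : ℝ) ^ 3 := by rw [hp]; field_simp
    have : NeZero n := ⟨hn⟩
    have hL := log_ge hp0 (hp' ▸ dens_le _ hE)
    refine ⟨hn, hp', fun c hc => ?_⟩
    rw [rpow_eq hp0]
    apply Real.exp_le_exp.2
    have h0 : 0 ≤ (t : ℝ) ^ 2 * Real.log (1 / p) + t * Real.log (1 / p) ^ 2 := by positivity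
    linarith only [hc, h0, mul_nonneg_of_nonpos_of_nonpos (Mathlib.Tactic.Linarith.sub_nonpos_of_le hc) (Mathlib.Tactic.Linarith.sub_nonpos_of_le h0)]
  refine ⟨fun Γ _ hp hne W _ _ H col hH hc => ?_, fun E hE hp hne => ?_⟩
  · obtain ⟨hn, hp', h⟩ := aux _ (fun e he => (SimpleGraph.mem_cliqueFinset_iff.1 he).card_eq)
      hp hne
    have : NeZero n := ⟨hn⟩
    exact le_trans (mul_le_mul_of_nonneg_right (h 1000 (by norm_num)) (by positivity))
      (part_triangle Γ hp0 hp' t W H col hH hc)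
  · obtain ⟨hn, hp', h⟩ := aux E hE hp hne
    have : NeZero n := ⟨hn⟩
    exact ⟨le_trans (mul_le_mul_of_nonneg_right (h 64008 le_rfl) (by positivity))
        (part_book E hE hp0 hp' t ht),
      le_trans (mul_le_mul_of_nonneg_right (h 64000 (by norm_num)) (by positivity))
        (part_expansion E hE hp0 hp' t)⟩

end Pool.Agent.Work.MP_af588c_co.TB
end
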