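import Mathlib

/-! Kernel estimates: moments of codegree kernels and the weighted count of `K_{t,t,t}`. -/

namespace Pool.Agent.Work.MP_af588c_co

open Finset

section basic

variable {X Y Z : Type*} [Fintype X] [Fintype Y] [Fintype Z]

/-- codegree kernel -/
def ker (pz : Z → ℝ) (f : X → Z → ℝ) (g : Y → Z → ℝ) (x : X) (y : Y) : ℝ :=
  ∑ z, pz z * (f x z * g y z)

/-- weight of a tuple -/
def tw (pz : Z → ℝ) {s : ℕ} (S : Fin s → Z) : ℝ := ∏ l, pz (S l)

/-- product of a kernel along a tuple -/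
def tp (f : X → Z → ℝ) {s : ℕ} (S : Fin s → Z) (x : X) : ℝ := ∏ l, f x (S l)

omit [Fintype X] [Fintype Y] in
lemma ker_pow (pz : Z → ℝ) (f : X → Z → ℝ) (g : Y → Z → ℝ) (x : X) (y : Y) (s : ℕ) :
    ker pz f g x y ^ s = ∑ S : Fin s → Z, tw pz S * (tp f S x * tp g S y) := by
  unfold ker tw tp
  rw [Fintype.sum_pow]
  simp only [Finset.prod_mul_distrib]

omit [Fintype Z] in
lemma tw_nonneg {pz : Z → ℝ} (h : ∀ z, 0 ≤ pz z) {s : ℕ} (S : Fin s → Z) : 0 ≤ tw pz S :=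
  Finset.prod_nonneg fun _ _ => h _

omit [Fintype X] [Fintype Z] in
lemma tp_nonneg {f : X → Z → ℝ} (h : ∀ x z, 0 ≤ f x z) {s : ℕ} (S : Fin s → Z) (x : X) :
    0 ≤ tp f S x :=
  Finset.prod_nonneg fun _ _ => h _ _

lemma sum_tw (pz : Z → ℝ) (h : ∑ z, pz z = 1) (s : ℕ) : ∑ S : Fin s → Z, tw pz S = 1 := by
  unfold tw
  rw [← Fintype.sum_pow, h, one_pow]

omit [Fintype X] [Fintype Y] in
lemma ker_nonneg {pz : Z → ℝ} {f : X → Z → ℝ} {g : Y → Z → ℝ} (hp : ∀ z, 0 ≤ pz z)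
    (hf : ∀ x z, 0 ≤ f x z) (hg : ∀ y z, 0 ≤ g y z) (x : X) (y : Y) : 0 ≤ ker pz f g x y :=
  Finset.sum_nonneg fun _ _ => mul_nonneg (hp _) (mul_nonneg (hf _ _) (hg _ _))

/-- weighted moment of the codegree kernel -/
def mom (px : X → ℝ) (py : Y → ℝ) (pz : Z → ℝ) (f : X → Z → ℝ) (g : Y → Z → ℝ)
    (w : X → Y → ℝ) (s : ℕ) : ℝ :=
  ∑ x, ∑ y, px x * py y * (w x y * ker pz f g x y ^ s)

lemma mom_eq (px : X → ℝ) (py : Y → ℝ) (pz : Z → ℝ) (f : X → Z → ℝ) (g : Y → Z → ℝ)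
    (w : X → Y → ℝ) (s : ℕ) :
    mom px py pz f g w s = ∑ S : Fin s → Z, tw pz S *
      ∑ x, ∑ y, (px x * tp f S x) * (py y * tp g S y) * w x y := by
  unfold mom
  calc ∑ x, ∑ y, px x * py y * (w x y * ker pz f g x y ^ s)
      = ∑ x, ∑ y, ∑ S : Fin s → Z, tw pz S * ((px x * tp f S x) * (py y * tp g S y) * w x y) := by
        refine Finset.sum_congr rfl fun x _ => Finset.sum_congr rfl fun y _ => ?_
        rw [ker_pow, Finset.mul_sum, Finset.mul_sum]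
        exact Finset.sum_congr rfl fun S _ => by ring
    _ = ∑ x, ∑ S : Fin s → Z, ∑ y, tw pz S * ((px x * tp f S x) * (py y * tp g S y) * w x y) :=
        Finset.sum_congr rfl fun x _ => Finset.sum_comm
    _ = ∑ S : Fin s → Z, ∑ x, ∑ y, tw pz S * ((px x * tp f S x) * (py y * tp g S y) * w x y) :=
        Finset.sum_comm
    _ = _ := by simp only [Finset.mul_sum]

lemma mom_one_eq (px : X → ℝ) (py : Y → ℝ) (pz : Z → ℝ) (f : X → Z → ℝ) (g : Y → Z → ℝ)
    (s : ℕ) :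
    mom px py pz f g (fun _ _ => 1) s = ∑ S : Fin s → Z, tw pz S *
      ((∑ x, px x * tp f S x) * (∑ y, py y * tp g S y)) := by
  rw [mom_eq]
  refine Finset.sum_congr rfl fun S _ => ?_
  rw [Finset.sum_mul_sum]
  simp only [mul_one]

lemma mom_self_nonneg (px : X → ℝ) {pz : Z → ℝ} (hp : ∀ z, 0 ≤ pz z) (f : X → Z → ℝ) (s : ℕ) :
    0 ≤ mom px px pz f f (fun _ _ => 1) s := by
  rw [mom_one_eq]
  exact Finset.sum_nonneg fun S _ => mul_nonneg (tw_nonneg hp S) (mul_self_nonneg _)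

lemma mom_sq_le (px : X → ℝ) (py : Y → ℝ) {pz : Z → ℝ} (hp : ∀ z, 0 ≤ pz z) (f : X → Z → ℝ)
    (g : Y → Z → ℝ) (s : ℕ) :
    mom px py pz f g (fun _ _ => 1) s ^ 2 ≤
      mom px px pz f f (fun _ _ => 1) s * mom py py pz g g (fun _ _ => 1) s := by
  rw [mom_one_eq, mom_one_eq, mom_one_eq]
  refine Finset.sum_sq_le_sum_mul_sum_of_sq_le_mul _
    (fun S _ => mul_nonneg (tw_nonneg hp S) (mul_self_nonneg _))
    (fun S _ => mul_nonneg (tw_nonneg hp S) (mul_self_nonneg _)) (fun S _ => le_of_eq ?_)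
  ring

lemma mom_le_of_self (px : X → ℝ) (py : Y → ℝ) {pz : Z → ℝ} (hp : ∀ z, 0 ≤ pz z)
    (f : X → Z → ℝ) (g : Y → Z → ℝ) (s : ℕ) {B : ℝ}
    (h1 : mom px px pz f f (fun _ _ => 1) s ≤ B) (h2 : mom py py pz g g (fun _ _ => 1) s ≤ B) :
    mom px py pz f g (fun _ _ => 1) s ≤ B := by
  have h0 := mom_self_nonneg px hp f s
  have h0' := mom_self_nonneg py hp g s
  have hB : 0 ≤ B := h0.trans h1
  have h := mom_sq_le px py hp f g s
  have h3 : mom px py pz f g (fun _ _ => 1) s ^ 2 ≤ B ^ 2 := by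
    calc _ ≤ _ := h
      _ ≤ B * B := mul_le_mul h1 h2 h0' hB
      _ = B ^ 2 := by ring
  exact (abs_le_of_sq_le_sq' h3 hB).2

omit [Fintype X] [Fintype Y] in
lemma ker_center {pz : Z → ℝ} (hz : ∑ z, pz z = 1) (f : X → Z → ℝ) (g : Y → Z → ℝ) (x : X)
    (y : Y) (hx : ∑ z, pz z * f x z = 1) (hy : ∑ z, pz z * g y z = 1) :
    ker pz (fun x z => f x z - 1) (fun y z => g y z - 1) x y = ker pz f g x y - 1 := by
  unfold ker
  have : ∀ z, pz z * ((f x z - 1) * (g y z - 1)) =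
      pz z * (f x z * g y z) - pz z * f x z - pz z * g y z + pz z := fun z => by ring
  simp only [this, Finset.sum_add_distrib, Finset.sum_sub_distrib, hx, hy, hz]
  ring

lemma mom_center {px : X → ℝ} {py : Y → ℝ} {pz : Z → ℝ} (hz : ∑ z, pz z = 1)
    (f : X → Z → ℝ) (g : Y → Z → ℝ) (hx : ∀ x, px x ≠ 0 → ∑ z, pz z * f x z = 1)
    (hy : ∀ y, py y ≠ 0 → ∑ z, pz z * g y z = 1) (s : ℕ) :
    mom px py pz (fun x z => f x z - 1) (fun y z => g y z - 1) (fun _ _ => 1) s =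
      ∑ x, ∑ y, px x * py y * (ker pz f g x y - 1) ^ s := by
  unfold mom
  refine Finset.sum_congr rfl fun x _ => Finset.sum_congr rfl fun y _ => ?_
  by_cases h1 : px x = 0
  · simp [h1]
  by_cases h2 : py y = 0
  · simp [h2]
  rw [ker_center hz f g x y (hx x h1) (hy y h2), one_mul]

/-- binomial comparison of centred moments -/
lemma choose_mul_center_le {px : X → ℝ} {pz : Z → ℝ} (hp : ∀ z, 0 ≤ pz z) (hz : ∑ z, pz z = 1)
    (f : X → Z → ℝ) (hx : ∀ x, px x ≠ 0 → ∑ z, pz z * f x z = 1) {s M : ℕ} (hs : s ≤ M) :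
    (M.choose s : ℝ) *
      mom px px pz (fun x z => f x z - 1) (fun x z => f x z - 1) (fun _ _ => 1) s ≤
      mom px px pz f f (fun _ _ => 1) M := by
  have key : mom px px pz f f (fun _ _ => 1) M = ∑ j ∈ Finset.range (M + 1), (M.choose j : ℝ) *
      mom px px pz (fun x z => f x z - 1) (fun x z => f x z - 1) (fun _ _ => 1) j := by
    simp only [mom_center hz f f hx hx]
    unfold mom
    calc ∑ x, ∑ y, px x * px y * (1 * ker pz f f x y ^ M)
        = ∑ x, ∑ y, ∑ j ∈ Finset.range (M + 1),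
            (M.choose j : ℝ) * (px x * px y * (ker pz f f x y - 1) ^ j) := by
          refine Finset.sum_congr rfl fun x _ => Finset.sum_congr rfl fun y _ => ?_
          have : ker pz f f x y ^ M = ((ker pz f f x y - 1) + 1) ^ M := by ring
          rw [this, add_pow, one_mul, Finset.mul_sum]
          exact Finset.sum_congr rfl fun j _ => by ring
      _ = ∑ x, ∑ j ∈ Finset.range (M + 1), ∑ y,
            (M.choose j : ℝ) * (px x * px y * (ker pz f f x y - 1) ^ j) :=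
          Finset.sum_congr rfl fun x _ => Finset.sum_comm
      _ = ∑ j ∈ Finset.range (M + 1), ∑ x, ∑ y,
            (M.choose j : ℝ) * (px x * px y * (ker pz f f x y - 1) ^ j) := Finset.sum_comm
      _ = _ := by simp only [Finset.mul_sum]
  rw [key]
  exact Finset.single_le_sum (f := fun j => (M.choose j : ℝ) *
      mom px px pz (fun x z => f x z - 1) (fun x z => f x z - 1) (fun _ _ => 1) j)
    (fun j _ => mul_nonneg (Nat.cast_nonneg _) (mom_self_nonneg px hp _ j))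
    (Finset.mem_range.2 (Nat.lt_succ_of_le hs))

/-- pointwise inequality replacing a tail bound -/
lemma pointwise_tail {h k η R : ℝ} {s t : ℕ} (hh : 0 ≤ h) (hk : 0 ≤ k) (hη : 0 < η)
    (hη1 : η ≤ 1) (hR : 0 < R) (hs : Even s) :
    (1 - η) ^ t * (h - h ^ 2 / (4 * R) - R / η ^ s * (k - 1) ^ s) ≤ h * k ^ t := by
  have h1 : 0 ≤ (1 - η) ^ t := pow_nonneg (by linarith) _
  have h2 : 0 ≤ (k - 1) ^ s := hs.pow_nonneg _
  have h3 : 0 < η ^ s := pow_pos hη _
  by_cases hc : 1 - η ≤ k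
  · have : (1 - η) ^ t ≤ k ^ t := pow_le_pow_left₀ (by linarith) hc _
    have h4 : h - h ^ 2 / (4 * R) - R / η ^ s * (k - 1) ^ s ≤ h := by
      have : 0 ≤ h ^ 2 / (4 * R) := by positivity
      have : 0 ≤ R / η ^ s * (k - 1) ^ s := by positivity
      linarith
    calc _ ≤ (1 - η) ^ t * h := mul_le_mul_of_nonneg_left h4 h1
      _ ≤ k ^ t * h := mul_le_mul_of_nonneg_right this hh
      _ = h * k ^ t := mul_comm _ _
  · push Not at hc
    have h5 : η ^ s ≤ (k - 1) ^ s := by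
      rw [← hs.neg_pow (k - 1)]
      exact pow_le_pow_left₀ hη.le (by linarith) _
    have h6 : R ≤ R / η ^ s * (k - 1) ^ s := by
      rw [div_mul_eq_mul_div, le_div_iff₀ h3]
      exact mul_le_mul_of_nonneg_left h5 hR.le
    have h7 : h - h ^ 2 / (4 * R) - R ≤ 0 := by
      have : h - h ^ 2 / (4 * R) - R = -((h - 2 * R) ^ 2 / (4 * R)) := by
        field_simp
        ring
      rw [this]
      have : 0 ≤ (h - 2 * R) ^ 2 / (4 * R) := by positivity
      linarith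
    calc _ ≤ (1 - η) ^ t * 0 := mul_le_mul_of_nonneg_left (by linarith) h1
      _ = 0 := mul_zero _
      _ ≤ _ := by positivity

lemma tilt_lower {px : X → ℝ} {py : Y → ℝ} {pz : Z → ℝ} {f : X → Z → ℝ} {g : Y → Z → ℝ}
    {h : X → Y → ℝ} (hpx : ∀ x, 0 ≤ px x) (hpy : ∀ y, 0 ≤ py y) (hpz : ∀ z, 0 ≤ pz z)
    (hz : ∑ z, pz z = 1) (hf : ∀ x z, 0 ≤ f x z) (hg : ∀ y z, 0 ≤ g y z) (hh : ∀ x y, 0 ≤ h x y)
    (hx : ∀ x, px x ≠ 0 → ∑ z, pz z * f x z = 1) (hy : ∀ y, py y ≠ 0 → ∑ z, pz z * g y z = 1)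
    {R η : ℝ} {s M : ℕ} (t : ℕ) (hR : 0 < R) (hη : 0 < η) (hη1 : η ≤ 1) (hs : Even s)
    (hsM : s ≤ M) (hC : 4 * R ^ 2 ≤ (M.choose s : ℝ) * η ^ s)
    (h1 : ∑ x, ∑ y, px x * py y * h x y = 1) (h2 : ∑ x, ∑ y, px x * py y * h x y ^ 2 ≤ R)
    (hff : mom px px pz f f (fun _ _ => 1) M ≤ R) (hgg : mom py py pz g g (fun _ _ => 1) M ≤ R) :
    (1 - η) ^ t / 2 ≤ mom px py pz f g h t := by
  have hCpos : (0 : ℝ) < M.choose s := by exact_mod_cast Nat.choose_pos hsM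
  have hηs : 0 < η ^ s := pow_pos hη _
  have c1 : mom px px pz (fun x z => f x z - 1) (fun x z => f x z - 1) (fun _ _ => 1) s ≤
      R / M.choose s := by
    rw [le_div_iff₀ hCpos, mul_comm]
    exact (choose_mul_center_le hpz hz f hx hsM).trans hff
  have c2 : mom py py pz (fun x z => g x z - 1) (fun x z => g x z - 1) (fun _ _ => 1) s ≤
      R / M.choose s := by
    rw [le_div_iff₀ hCpos, mul_comm]
    exact (choose_mul_center_le hpz hz g hy hsM).trans hgg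
  have c3 := mom_le_of_self px py hpz _ _ s c1 c2
  rw [mom_center hz f g hx hy] at c3
  have c4 : R / η ^ s * (R / M.choose s) ≤ 1 / 4 := by
    rw [div_mul_div_comm, div_le_div_iff₀ (by positivity) (by norm_num)]
    nlinarith
  have c5 : (1 - η) ^ t * (∑ x, ∑ y, px x * py y * h x y
      - (∑ x, ∑ y, px x * py y * h x y ^ 2) / (4 * R)
      - R / η ^ s * ∑ x, ∑ y, px x * py y * (ker pz f g x y - 1) ^ s) ≤ mom px py pz f g h t := by
    unfold mom
    simp only [Finset.mul_sum, Finset.sum_div, ← Finset.sum_sub_distrib]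
    refine Finset.sum_le_sum fun x _ => Finset.sum_le_sum fun y _ => ?_
    have := pointwise_tail (t := t) (hh x y) (ker_nonneg hpz hf hg x y) hη hη1 hR hs
    have := mul_le_mul_of_nonneg_left this (mul_nonneg (hpx x) (hpy y))
    refine le_of_eq_of_le ?_ this
    ring
  refine le_trans ?_ c5
  rw [h1, div_eq_mul_one_div]
  refine mul_le_mul_of_nonneg_left ?_ (pow_nonneg (by linarith) _)
  have c6 : (∑ x, ∑ y, px x * py y * h x y ^ 2) / (4 * R) ≤ 1 / 4 := by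
    rw [div_le_div_iff₀ (by positivity) (by norm_num)]
    linarith
  have c7 : R / η ^ s * ∑ x, ∑ y, px x * py y * (ker pz f g x y - 1) ^ s ≤ 1 / 4 :=
    (mul_le_mul_of_nonneg_left c3 (by positivity)).trans c4
  linarith

lemma pow_le_one_add_pow {k : ℝ} (hk : 0 ≤ k) {j M : ℕ} (h : j ≤ M) : k ^ j ≤ 1 + k ^ M := by
  by_cases hc : k ≤ 1
  · have := pow_le_one₀ (n := j) hk hc
    have : 0 ≤ k ^ M := pow_nonneg hk _
    linarith
  · push Not at hc
    have := pow_le_pow_right₀ hc.le h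
    linarith

lemma flat_upper {px : X → ℝ} {py : Y → ℝ} {pz : Z → ℝ} {f : X → Z → ℝ} {g : Y → Z → ℝ}
    (hpx : ∀ x, 0 ≤ px x) (hpy : ∀ y, 0 ≤ py y) (hpz : ∀ z, 0 ≤ pz z)
    (hx : ∑ x, px x = 1) (hy : ∑ y, py y = 1) (hf : ∀ x z, 0 ≤ f x z) (hg : ∀ y z, 0 ≤ g y z)
    {R : ℝ} {t M : ℕ} (htM : t ≤ M)
    (hff : mom px px pz f f (fun _ _ => 1) M ≤ R) (hgg : mom py py pz g g (fun _ _ => 1) M ≤ R) :
    mom px py pz f g (fun _ _ => 1) t ≤ 1 + R := by
  have c := mom_le_of_self px py hpz f g M hff hgg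
  have c1 : ∑ x, ∑ y, px x * py y = 1 := by rw [← Finset.sum_mul_sum, hx, hy, one_mul]
  calc mom px py pz f g (fun _ _ => 1) t
      ≤ ∑ x, ∑ y, px x * py y + mom px py pz f g (fun _ _ => 1) M := by
        unfold mom
        simp only [← Finset.sum_add_distrib]
        refine Finset.sum_le_sum fun x _ => Finset.sum_le_sum fun y _ => ?_
        have := mul_le_mul_of_nonneg_left (pow_le_one_add_pow (ker_nonneg hpz hf hg x y) htM)
          (mul_nonneg (hpx x) (hpy y))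
        linarith
    _ ≤ 1 + R := by rw [c1]; linarith

/-- weighted power mean inequality without normalisation -/
lemma wpow {w f : X → ℝ} (hw : ∀ x, 0 ≤ w x) (hf : ∀ x, 0 ≤ f x) (r : ℕ) :
    (∑ x, w x * f x) ^ (r + 1) ≤ (∑ x, w x) ^ r * ∑ x, w x * f x ^ (r + 1) := by
  have h0 : 0 ≤ ∑ x, w x := Finset.sum_nonneg fun x _ => hw x
  rcases h0.eq_or_lt with h | h
  · have : ∀ x, w x = 0 := fun x =>
      (Finset.sum_eq_zero_iff_of_nonneg (fun x _ => hw x)).1 h.symm x (Finset.mem_univ x)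
    simp [this]
  · set u := ∑ x, w x with hu
    have := Real.pow_arith_mean_le_arith_mean_pow Finset.univ (fun x => w x / u) f
      (fun x _ => div_nonneg (hw x) h0) (by rw [← Finset.sum_div, ← hu, div_self h.ne'])
      (fun x _ => hf x) (r + 1)
    have e1 : ∑ x, w x / u * f x = (∑ x, w x * f x) / u := by
      rw [Finset.sum_div]; exact Finset.sum_congr rfl fun x _ => by ring
    have e2 : ∑ x, w x / u * f x ^ (r + 1) = (∑ x, w x * f x ^ (r + 1)) / u := by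
      rw [Finset.sum_div]; exact Finset.sum_congr rfl fun x _ => by ring
    rw [e1, e2, div_pow, div_le_div_iff₀ (by positivity) h] at this
    have e3 : (∑ x, w x * f x ^ (r + 1)) * u ^ (r + 1) =
        (u ^ r * ∑ x, w x * f x ^ (r + 1)) * u := by ring
    rw [e3] at this
    exact le_of_mul_le_mul_right this h

/-- weighted number of complete bipartite configurations -/
def bip (u : X → ℝ) (v : Y → ℝ) (h : X → Y → ℝ) (t : ℕ) : ℝ :=
  ∑ ξ : Fin t → X, ∑ η : Fin t → Y, tw u ξ * tw v η * ∏ j, ∏ i, h (ξ i) (η j)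

lemma bip_nonneg {u : X → ℝ} {v : Y → ℝ} {h : X → Y → ℝ} (hu : ∀ x, 0 ≤ u x)
    (hv : ∀ y, 0 ≤ v y) (hh : ∀ x y, 0 ≤ h x y) (t : ℕ) : 0 ≤ bip u v h t :=
  Finset.sum_nonneg fun ξ _ => Finset.sum_nonneg fun η _ =>
    mul_nonneg (mul_nonneg (tw_nonneg hu ξ) (tw_nonneg hv η))
      (Finset.prod_nonneg fun _ _ => Finset.prod_nonneg fun _ _ => hh _ _)

lemma bip_lower {u : X → ℝ} {v : Y → ℝ} {h : X → Y → ℝ} (hu : ∀ x, 0 ≤ u x)
    (hv : ∀ y, 0 ≤ v y) (hh : ∀ x y, 0 ≤ h x y) (r : ℕ) :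
    (∑ x, ∑ y, u x * v y * h x y) ^ ((r + 1) * (r + 1)) ≤
      ((∑ x, u x) * ∑ y, v y) ^ (r * (r + 1)) * bip u v h (r + 1) := by
  set G : (Fin (r + 1) → X) → ℝ := fun ξ => ∑ y, v y * ∏ i, h (ξ i) y with hG
  have hG0 : ∀ ξ, 0 ≤ G ξ := fun ξ =>
    Finset.sum_nonneg fun y _ => mul_nonneg (hv y) (Finset.prod_nonneg fun _ _ => hh _ _)
  have e1 : bip u v h (r + 1) = ∑ ξ, tw u ξ * G ξ ^ (r + 1) := by
    unfold bip
    refine Finset.sum_congr rfl fun ξ _ => ?_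
    simp only [hG]
    rw [Fintype.sum_pow, Finset.mul_sum]
    refine Finset.sum_congr rfl fun η _ => ?_
    rw [Finset.prod_mul_distrib, mul_assoc]
    rfl
  have e2 : ∑ ξ, tw u ξ * G ξ = ∑ y, v y * (∑ x, u x * h x y) ^ (r + 1) := by
    simp only [hG, Finset.mul_sum]
    rw [Finset.sum_comm]
    refine Finset.sum_congr rfl fun y _ => ?_
    rw [Fintype.sum_pow, Finset.mul_sum]
    refine Finset.sum_congr rfl fun ξ _ => ?_
    rw [Finset.prod_mul_distrib]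
    unfold tw
    ring
  have e3 : ∑ x, ∑ y, u x * v y * h x y = ∑ y, v y * ∑ x, u x * h x y := by
    rw [Finset.sum_comm]
    refine Finset.sum_congr rfl fun y _ => ?_
    rw [Finset.mul_sum]
    exact Finset.sum_congr rfl fun x _ => by ring
  have e4 : ∑ ξ : Fin (r + 1) → X, tw u ξ = (∑ x, u x) ^ (r + 1) := by
    unfold tw
    rw [Fintype.sum_pow]
  have hH : ∀ y, 0 ≤ ∑ x, u x * h x y := fun y =>
    Finset.sum_nonneg fun x _ => mul_nonneg (hu x) (hh x y)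
  have i1 := wpow hv hH r
  have i2 := wpow (fun ξ : Fin (r + 1) → X => tw_nonneg hu ξ) hG0 r
  rw [← e1, e4, e2] at i2
  rw [e3, pow_mul]
  have hV : 0 ≤ ∑ y, v y := Finset.sum_nonneg fun y _ => hv y
  calc _ ≤ ((∑ y, v y) ^ r * ∑ y, v y * (∑ x, u x * h x y) ^ (r + 1)) ^ (r + 1) :=
        pow_le_pow_left₀ (pow_nonneg (Finset.sum_nonneg fun y _ => mul_nonneg (hv y) (hH y)) _)
          i1 _
    _ = ((∑ y, v y) ^ r) ^ (r + 1) * (∑ y, v y * (∑ x, u x * h x y) ^ (r + 1)) ^ (r + 1) :=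
        mul_pow _ _ _
    _ ≤ ((∑ y, v y) ^ r) ^ (r + 1) * (((∑ x, u x) ^ (r + 1)) ^ r * bip u v h (r + 1)) :=
        mul_le_mul_of_nonneg_left i2 (by positivity)
    _ = _ := by ring

lemma split_bound {N D Q l m : ℝ} {r : ℕ} (hD : 0 ≤ D) (hQ : 0 ≤ Q) (hl : 0 < l) (hm : 0 < m)
    (h : N ^ ((r + 1) * (r + 1)) ≤ D ^ (r * (r + 1)) * Q) :
    N ≤ l * D + m + Q / (l ^ (r * (r + 1)) * m ^ r) := by
  have h0 : 0 ≤ Q / (l ^ (r * (r + 1)) * m ^ r) := by positivity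
  have h1 : 0 ≤ l * D := by positivity
  by_cases c1 : N ≤ l * D
  · linarith
  by_cases c2 : N ≤ m
  · linarith
  push Not at c1 c2
  have hN : 0 < N := hm.trans c2
  have e1 : (l * D) ^ (r * (r + 1)) ≤ N ^ (r * (r + 1)) := pow_le_pow_left₀ h1 c1.le _
  have e2 : N ^ (r + 1) * l ^ (r * (r + 1)) ≤ Q := by
    have hp : 0 < N ^ (r * (r + 1)) := pow_pos hN _
    refine le_of_mul_le_mul_right ?_ hp
    calc N ^ (r + 1) * l ^ (r * (r + 1)) * N ^ (r * (r + 1))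
        = l ^ (r * (r + 1)) * N ^ ((r + 1) * (r + 1)) := by ring
      _ ≤ l ^ (r * (r + 1)) * (D ^ (r * (r + 1)) * Q) :=
          mul_le_mul_of_nonneg_left h (by positivity)
      _ = (l * D) ^ (r * (r + 1)) * Q := by rw [mul_pow]; ring
      _ ≤ N ^ (r * (r + 1)) * Q := mul_le_mul_of_nonneg_right e1 hQ
      _ = _ := mul_comm _ _
  have e3 : m ^ r ≤ N ^ r := pow_le_pow_left₀ hm.le c2.le _
  have e4 : N ≤ Q / (l ^ (r * (r + 1)) * m ^ r) := by
    rw [le_div_iff₀ (by positivity)]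
    calc N * (l ^ (r * (r + 1)) * m ^ r) ≤ N * (l ^ (r * (r + 1)) * N ^ r) := by gcongr
      _ = N ^ (r + 1) * l ^ (r * (r + 1)) := by ring
      _ ≤ Q := e2
  linarith

/-- weighted number of complete tripartite configurations -/
def trip (px : X → ℝ) (py : Y → ℝ) (pz : Z → ℝ) (f : X → Z → ℝ) (g : Y → Z → ℝ)
    (h : X → Y → ℝ) (t : ℕ) : ℝ :=
  ∑ S : Fin t → Z, tw pz S * bip (fun x => px x * tp f S x) (fun y => py y * tp g S y) h t

lemma trip_lower {px : X → ℝ} {py : Y → ℝ} {pz : Z → ℝ} {f : X → Z → ℝ} {g : Y → Z → ℝ}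
    {h : X → Y → ℝ} (hpx : ∀ x, 0 ≤ px x) (hpy : ∀ y, 0 ≤ py y) (hpz : ∀ z, 0 ≤ pz z)
    (hz : ∑ z, pz z = 1) (hf : ∀ x z, 0 ≤ f x z) (hg : ∀ y z, 0 ≤ g y z) (hh : ∀ x y, 0 ≤ h x y)
    {ν B : ℝ} {r : ℕ} (hν : 0 < ν) (hB : 1 ≤ B)
    (h1 : ν ≤ mom px py pz f g h (r + 1)) (h2 : mom px py pz f g (fun _ _ => 1) (r + 1) ≤ B) :
    (ν / (4 * B)) ^ ((r + 1) * (r + 1)) ≤ trip px py pz f g h (r + 1) := by
  set l := ν / (4 * B) with hl
  have hl0 : 0 < l := by positivity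
  have hm0 : 0 < ν / 4 := by positivity
  have key : mom px py pz f g h (r + 1) ≤ l * mom px py pz f g (fun _ _ => 1) (r + 1) + ν / 4 +
      trip px py pz f g h (r + 1) / (l ^ (r * (r + 1)) * (ν / 4) ^ r) := by
    have e : ν / 4 = ∑ S : Fin (r + 1) → Z, tw pz S * (ν / 4) := by
      rw [← Finset.sum_mul, sum_tw pz hz, one_mul]
    rw [mom_eq, mom_one_eq]
    nth_rewrite 1 [e]
    unfold trip
    rw [Finset.mul_sum, Finset.sum_div, ← Finset.sum_add_distrib, ← Finset.sum_add_distrib]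
    refine Finset.sum_le_sum fun S _ => ?_
    have hu : ∀ x, 0 ≤ px x * tp f S x := fun x => mul_nonneg (hpx x) (tp_nonneg hf S x)
    have hv : ∀ y, 0 ≤ py y * tp g S y := fun y => mul_nonneg (hpy y) (tp_nonneg hg S y)
    have := split_bound (mul_nonneg (Finset.sum_nonneg fun x _ => hu x)
      (Finset.sum_nonneg fun y _ => hv y)) (bip_nonneg hu hv hh (r + 1)) hl0 hm0
      (bip_lower hu hv hh r)
    have := mul_le_mul_of_nonneg_left this (tw_nonneg hpz S)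
    refine this.trans (le_of_eq ?_)
    ring
  have e1 : l * mom px py pz f g (fun _ _ => 1) (r + 1) ≤ ν / 4 := by
    calc _ ≤ l * B := mul_le_mul_of_nonneg_left h2 hl0.le
      _ = ν / 4 := by rw [hl]; field_simp
  have e2 : ν / 4 ≤ trip px py pz f g h (r + 1) / (l ^ (r * (r + 1)) * (ν / 4) ^ r) := by
    linarith
  rw [le_div_iff₀ (by positivity)] at e2
  have e3 : l ≤ ν / 4 := by
    rw [hl]
    exact div_le_div_of_nonneg_left hν.le (by norm_num) (by linarith)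
  calc l ^ ((r + 1) * (r + 1)) = l * (l ^ (r * (r + 1)) * l ^ r) := by ring
    _ ≤ ν / 4 * (l ^ (r * (r + 1)) * (ν / 4) ^ r) := by gcongr
    _ ≤ _ := e2

end basic

end Pool.Agent.Work.MP_af588c_co
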