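import Mathlib
import Pool.Agent.Work.MP_af588c_co.Kernel

/-! The maximiser of the trilinear form and the kernels built from it. -/

namespace Pool.Agent.Work.MP_af588c_co

open Finset

variable {V : Type*} [Fintype V]

/-- uniform weight -/
noncomputable def uu (V : Type*) [Fintype V] : ℝ := (Fintype.card V : ℝ)⁻¹

lemma uu_pos [Nonempty V] : 0 < uu V := by
  unfold uu
  have : 0 < Fintype.card V := Fintype.card_pos
  positivity

lemma sum_uu [Nonempty V] : ∑ _x : V, uu V = 1 := by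
  unfold uu
  have : (Fintype.card V : ℝ) ≠ 0 := by exact_mod_cast Fintype.card_pos.ne'
  simp [Finset.sum_const, this]

/-- the trilinear form -/
noncomputable def form (T : V → V → V → ℝ) (m : ℕ) (a b c : V → ℝ) : ℝ :=
  ∑ x, ∑ y, ∑ z, T x y z * ((uu V * a x ^ m) * (uu V * b y ^ m) * (uu V * c z ^ m))

/-- the weight attached to a vector -/
noncomputable def wt (m : ℕ) (a : V → ℝ) (x : V) : ℝ := uu V * a x ^ (m + 1)

lemma form_swap12 (T : V → V → V → ℝ) (m : ℕ) (a b c : V → ℝ) :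
    form (fun y x z => T x y z) m b a c = form T m a b c := by
  unfold form
  rw [Finset.sum_comm]
  refine Finset.sum_congr rfl fun x _ => Finset.sum_congr rfl fun y _ =>
    Finset.sum_congr rfl fun z _ => by ring

lemma form_swap23 (T : V → V → V → ℝ) (m : ℕ) (a b c : V → ℝ) :
    form (fun x z y => T x y z) m a c b = form T m a b c := by
  unfold form
  refine Finset.sum_congr rfl fun x _ => ?_
  rw [Finset.sum_comm]
  refine Finset.sum_congr rfl fun y _ => Finset.sum_congr rfl fun z _ => by ring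

lemma form_smul (T : V → V → V → ℝ) (m : ℕ) (a b c : V → ℝ) (α β γ : ℝ) :
    form T m (fun x => α * a x) (fun x => β * b x) (fun x => γ * c x) =
      (α * β * γ) ^ m * form T m a b c := by
  unfold form
  simp only [Finset.mul_sum]
  refine Finset.sum_congr rfl fun x _ => Finset.sum_congr rfl fun y _ =>
    Finset.sum_congr rfl fun z _ => ?_
  simp only [mul_pow]
  ring

/-- a maximising triple, in homogeneous form -/
structure IsMaxT (T : V → V → V → ℝ) (m : ℕ) (a b c : V → ℝ) (Λ : ℝ) : Prop where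
  a0 : ∀ x, 0 ≤ a x
  b0 : ∀ x, 0 ≤ b x
  c0 : ∀ x, 0 ≤ c x
  sa : ∑ x, wt m a x = 1
  sb : ∑ x, wt m b x = 1
  sc : ∑ x, wt m c x = 1
  val : form T m a b c = Λ
  hom : ∀ a' b' c' : V → ℝ, (∀ x, 0 ≤ a' x) → (∀ x, 0 ≤ b' x) → (∀ x, 0 ≤ c' x) →
    form T m a' b' c' ^ (m + 1) ≤
      Λ ^ (m + 1) * ((∑ x, wt m a' x) * (∑ x, wt m b' x) * ∑ x, wt m c' x) ^ m

lemma IsMaxT.swap12 {T : V → V → V → ℝ} {m : ℕ} {a b c : V → ℝ} {Λ : ℝ}
    (h : IsMaxT T m a b c Λ) : IsMaxT (fun y x z => T x y z) m b a c Λ where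
  a0 := h.b0
  b0 := h.a0
  c0 := h.c0
  sa := h.sb
  sb := h.sa
  sc := h.sc
  val := by rw [form_swap12, h.val]
  hom := fun a' b' c' ha hb hc => by
    rw [form_swap12]
    refine (h.hom b' a' c' hb ha hc).trans (le_of_eq ?_)
    ring

lemma IsMaxT.swap23 {T : V → V → V → ℝ} {m : ℕ} {a b c : V → ℝ} {Λ : ℝ}
    (h : IsMaxT T m a b c Λ) : IsMaxT (fun x z y => T x y z) m a c b Λ where
  a0 := h.a0
  b0 := h.c0
  c0 := h.b0
  sa := h.sa
  sb := h.sc
  sc := h.sb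
  val := by rw [form_swap23, h.val]
  hom := fun a' b' c' ha hb hc => by
    rw [form_swap23]
    refine (h.hom a' c' b' ha hc hb).trans (le_of_eq ?_)
    ring

lemma wt_nonneg [Nonempty V] (m : ℕ) {a : V → ℝ} (ha : ∀ x, 0 ≤ a x) (x : V) : 0 ≤ wt m a x :=
  mul_nonneg uu_pos.le (pow_nonneg (ha x) _)

lemma form_nonneg [Nonempty V] {T : V → V → V → ℝ} (hT : ∀ x y z, 0 ≤ T x y z) (m : ℕ)
    {a b c : V → ℝ} (ha : ∀ x, 0 ≤ a x) (hb : ∀ x, 0 ≤ b x) (hc : ∀ x, 0 ≤ c x) :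
    0 ≤ form T m a b c := by
  have := uu_pos (V := V)
  refine Finset.sum_nonneg fun x _ => Finset.sum_nonneg fun y _ => Finset.sum_nonneg fun z _ => ?_
  have := hT x y z
  have := ha x
  have := hb y
  have := hc z
  positivity

/-- the sphere -/
def sph (V : Type*) [Fintype V] (m : ℕ) : Set (V → ℝ) :=
  {a | (∀ x, 0 ≤ a x) ∧ ∑ x, wt m a x = 1}

lemma one_mem_sph [Nonempty V] (m : ℕ) : (fun _ => (1 : ℝ)) ∈ sph V m :=
  ⟨fun _ => zero_le_one, by simpa [wt] using sum_uu (V := V)⟩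

lemma isCompact_sph [Nonempty V] (m : ℕ) : IsCompact (sph V m) := by
  have hc : IsClosed (sph V m) := by
    have h1 : IsClosed {a : V → ℝ | ∀ x, 0 ≤ a x} := by
      simp only [Set.ofPred_forall]
      exact isClosed_iInter fun x => isClosed_le continuous_const (continuous_apply x)
    have h2 : IsClosed {a : V → ℝ | ∑ x, wt m a x = 1} := by
      refine isClosed_eq ?_ continuous_const
      unfold wt
      fun_prop
    exact h1.inter h2
  have hK : IsCompact (Set.pi Set.univ fun _ : V => Set.Icc (0 : ℝ) (1 + (uu V)⁻¹)) :=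
    isCompact_univ_pi fun _ => isCompact_Icc
  refine hK.of_isClosed_subset hc ?_
  intro a ha x _
  refine ⟨ha.1 x, ?_⟩
  have h1 : wt m a x ≤ 1 := by
    rw [← ha.2]
    exact Finset.single_le_sum (f := wt m a) (fun y _ => wt_nonneg m ha.1 y) (Finset.mem_univ x)
  have h2 : a x ^ (m + 1) ≤ (uu V)⁻¹ := by
    have := uu_pos (V := V)
    rw [inv_eq_one_div, le_div_iff₀ this, mul_comm]
    exact h1
  have h3 := pow_le_one_add_pow (ha.1 x) (j := 1) (M := m + 1) (by omega)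
  rw [pow_one] at h3
  linarith

lemma normalise [Nonempty V] (m : ℕ) {a : V → ℝ} (ha : ∀ x, 0 ≤ a x) :
    ∃ α : ℝ, 0 ≤ α ∧ ∃ a' ∈ sph V m, a = (fun x => α * a' x) ∧ α ^ (m + 1) = ∑ x, wt m a x := by
  have h0 : 0 ≤ ∑ x, wt m a x := Finset.sum_nonneg fun x _ => wt_nonneg m ha x
  rcases h0.eq_or_lt with h | h
  · refine ⟨0, le_rfl, _, one_mem_sph m, ?_, by rw [← h]; simp⟩
    funext x
    have := (Finset.sum_eq_zero_iff_of_nonneg (fun x _ => wt_nonneg m ha x)).1 h.symm x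
      (Finset.mem_univ x)
    unfold wt at this
    have h2 := (mul_eq_zero.1 this).resolve_left (uu_pos (V := V)).ne'
    simpa using pow_eq_zero_iff (n := m + 1) (by omega) |>.1 h2
  · set S := ∑ x, wt m a x with hS
    set α := S ^ (((m + 1 : ℕ) : ℝ)⁻¹) with hα
    have hα0 : 0 < α := Real.rpow_pos_of_pos h _
    have hαp : α ^ (m + 1) = S := Real.rpow_inv_natCast_pow h0 (by omega)
    refine ⟨α, hα0.le, fun x => a x / α, ⟨fun x => div_nonneg (ha x) hα0.le, ?_⟩, ?_, hαp⟩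
    · have : ∀ x, wt m (fun x => a x / α) x = wt m a x / S := fun x => by
        unfold wt
        rw [div_pow, hαp]
        ring
      simp only [this]
      rw [← Finset.sum_div, ← hS, div_self h.ne']
    · funext x
      field_simp

lemma exists_max [Nonempty V] {T : V → V → V → ℝ} (hT : ∀ x y z, 0 ≤ T x y z) (m : ℕ) :
    ∃ a b c : V → ℝ, ∃ Λ : ℝ, IsMaxT T m a b c Λ ∧
      form T m (fun _ => 1) (fun _ => 1) (fun _ => 1) ≤ Λ := by
  have hK : IsCompact (sph V m ×ˢ sph V m ×ˢ sph V m) :=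
    (isCompact_sph m).prod ((isCompact_sph m).prod (isCompact_sph m))
  have hne : (sph V m ×ˢ sph V m ×ˢ sph V m).Nonempty :=
    ⟨(_, _, _), one_mem_sph m, one_mem_sph m, one_mem_sph m⟩
  have hcont : Continuous fun q : (V → ℝ) × (V → ℝ) × (V → ℝ) => form T m q.1 q.2.1 q.2.2 := by
    unfold form
    fun_prop
  obtain ⟨⟨a, b, c⟩, ⟨ha, hb, hc⟩, hmax⟩ := hK.exists_isMaxOn hne hcont.continuousOn
  have hm : ∀ a' ∈ sph V m, ∀ b' ∈ sph V m, ∀ c' ∈ sph V m,
      form T m a' b' c' ≤ form T m a b c := fun a' ha' b' hb' c' hc' =>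
    hmax (a := (a', b', c')) ⟨ha', hb', hc'⟩
  refine ⟨a, b, c, form T m a b c, ⟨ha.1, hb.1, hc.1, ha.2, hb.2, hc.2, rfl, ?_⟩,
    hm _ (one_mem_sph m) _ (one_mem_sph m) _ (one_mem_sph m)⟩
  intro a' b' c' ha' hb' hc'
  obtain ⟨α, hα, a1, ha1, rfl, e1⟩ := normalise m ha'
  obtain ⟨β, hβ, b1, hb1, rfl, e2⟩ := normalise m hb'
  obtain ⟨γ, hγ, c1, hc1, rfl, e3⟩ := normalise m hc'
  rw [← e1, ← e2, ← e3, form_smul, mul_pow]
  have h1 := pow_le_pow_left₀ (form_nonneg hT m ha1.1 hb1.1 hc1.1) (hm _ ha1 _ hb1 _ hc1) (m + 1)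
  calc _ ≤ ((α * β * γ) ^ m) ^ (m + 1) * form T m a b c ^ (m + 1) :=
        mul_le_mul_of_nonneg_left h1 (by positivity)
    _ = _ := by ring

/-- strict Young inequality -/
lemma young_strict {a w : ℝ} (ha : 0 ≤ a) (hw : 0 ≤ w) (m : ℕ) :
    0 ≤ w ^ (m + 1) + m * a ^ (m + 1) - (m + 1) * (w * a ^ m) ∧
      (1 ≤ m → w ^ (m + 1) + m * a ^ (m + 1) - (m + 1) * (w * a ^ m) ≤ 0 → w = a) := by
  induction m with
  | zero => simp
  | succ m ih =>
    have e : w ^ (m + 1 + 1) + ((m + 1 : ℕ) : ℝ) * a ^ (m + 1 + 1) -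
        (((m + 1 : ℕ) : ℝ) + 1) * (w * a ^ (m + 1)) =
        a * (w ^ (m + 1) + m * a ^ (m + 1) - (m + 1) * (w * a ^ m)) +
          (w - a) * (w ^ (m + 1) - a ^ (m + 1)) := by
      push_cast
      ring
    have h1 : 0 ≤ a * (w ^ (m + 1) + m * a ^ (m + 1) - (m + 1) * (w * a ^ m)) :=
      mul_nonneg ha ih.1
    have h2 : w ≠ a → 0 < (w - a) * (w ^ (m + 1) - a ^ (m + 1)) := by
      intro hne
      rcases lt_or_gt_of_ne hne with h | h
      · have := pow_lt_pow_left₀ h hw (n := m + 1) (by omega)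
        exact mul_pos_of_neg_of_neg (by linarith) (by linarith)
      · have := pow_lt_pow_left₀ h ha (n := m + 1) (by omega)
        exact mul_pos (by linarith) (by linarith)
    rw [e]
    constructor
    · by_cases hne : w = a
      · rw [hne] at h1 ⊢
        simpa using h1
      · linarith [h2 hne]
    · intro _ h
      by_contra hne
      linarith [h2 hne]

/-- one-vertex marginal -/
noncomputable def deg (T : V → V → V → ℝ) (m : ℕ) (b c : V → ℝ) (x : V) : ℝ :=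
  ∑ y, ∑ z, T x y z * ((uu V * b y ^ m) * (uu V * c z ^ m))

lemma form_eq_deg (T : V → V → V → ℝ) (m : ℕ) (a b c : V → ℝ) :
    form T m a b c = ∑ x, uu V * a x ^ m * deg T m b c x := by
  unfold form deg
  simp only [Finset.mul_sum]
  refine Finset.sum_congr rfl fun x _ => Finset.sum_congr rfl fun y _ =>
    Finset.sum_congr rfl fun z _ => by ring

lemma deg_nonneg [Nonempty V] {T : V → V → V → ℝ} (hT : ∀ x y z, 0 ≤ T x y z) (m : ℕ)
    {b c : V → ℝ} (hb : ∀ x, 0 ≤ b x) (hc : ∀ x, 0 ≤ c x) (x : V) : 0 ≤ deg T m b c x := by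
  have := uu_pos (V := V)
  refine Finset.sum_nonneg fun y _ => Finset.sum_nonneg fun z _ => ?_
  have := hT x y z
  have := hb y
  have := hc z
  positivity

lemma le_of_pow_succ_le {K J : ℝ} {m : ℕ} (hJ : 0 ≤ J) (h : K ^ (m + 1) ≤ K ^ m * J)
    (hK : 0 ≤ K) : K ≤ J := by
  rcases hK.eq_or_lt with h0 | h0
  · rw [← h0]; exact hJ
  · rw [pow_succ] at h
    exact le_of_mul_le_mul_left h (pow_pos h0 _)

/-- Euler-Lagrange equation -/
lemma IsMaxT.euler [Nonempty V] {T : V → V → V → ℝ} {m : ℕ} {a b c : V → ℝ} {Λ : ℝ}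
    (h : IsMaxT T m a b c Λ) (hT : ∀ x y z, 0 ≤ T x y z) (hΛ : 0 < Λ) (hm : 1 ≤ m) (x : V) :
    deg T m b c x = Λ * a x := by
  set w : V → ℝ := fun x => deg T m b c x / Λ with hw
  have hw0 : ∀ x, 0 ≤ w x := fun x => div_nonneg (deg_nonneg hT m h.b0 h.c0 x) hΛ.le
  have hd : ∀ x, deg T m b c x = Λ * w x := fun x => by simp only [hw]; field_simp
  have hu := uu_pos (V := V)
  set K := ∑ x, wt m w x with hK
  have hK0 : 0 ≤ K := Finset.sum_nonneg fun x _ => wt_nonneg m hw0 x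
  have e1 : form T m w b c = Λ * K := by
    rw [form_eq_deg, hK, Finset.mul_sum]
    refine Finset.sum_congr rfl fun x _ => ?_
    rw [hd]
    unfold wt
    ring
  have i1 := h.hom w b c hw0 h.b0 h.c0
  rw [e1, h.sb, h.sc, ← hK, mul_pow, mul_one, mul_one] at i1
  have i2 : K ≤ 1 := by
    refine le_of_pow_succ_le (m := m) zero_le_one ?_ hK0
    rw [mul_one]
    exact le_of_mul_le_mul_left i1 (pow_pos hΛ _)
  have e2 : ∑ x, uu V * (w x * a x ^ m) = 1 := by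
    have := h.val
    rw [form_eq_deg] at this
    apply mul_left_cancel₀ hΛ.ne'
    rw [mul_one, Finset.mul_sum]
    nth_rewrite 2 [← this]
    refine Finset.sum_congr rfl fun x _ => ?_
    rw [hd]
    ring
  have e3 : ∑ x, uu V * (w x ^ (m + 1) + m * a x ^ (m + 1) - (m + 1) * (w x * a x ^ m)) =
      K + m * ∑ x, wt m a x - (m + 1) * ∑ x, uu V * (w x * a x ^ m) := by
    rw [hK, Finset.mul_sum, Finset.mul_sum, ← Finset.sum_add_distrib, ← Finset.sum_sub_distrib]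
    refine Finset.sum_congr rfl fun x _ => ?_
    unfold wt
    ring
  rw [h.sa, e2] at e3
  have i3 : ∀ x, 0 ≤ uu V * (w x ^ (m + 1) + m * a x ^ (m + 1) - (m + 1) * (w x * a x ^ m)) :=
    fun x => mul_nonneg hu.le (young_strict (h.a0 x) (hw0 x) m).1
  have i4 := Finset.single_le_sum (f := fun x =>
    uu V * (w x ^ (m + 1) + m * a x ^ (m + 1) - (m + 1) * (w x * a x ^ m))) (fun x _ => i3 x)
    (Finset.mem_univ x)
  rw [e3] at i4
  have i5 : w x ^ (m + 1) + m * a x ^ (m + 1) - (m + 1) * (w x * a x ^ m) ≤ 0 := by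
    by_contra hc
    push Not at hc
    have := mul_pos hu hc
    linarith
  rw [hd, (young_strict (h.a0 x) (hw0 x) m).2 hm i5]

lemma low_moment [Nonempty V] {m j : ℕ} {a : V → ℝ} (ha : ∀ x, 0 ≤ a x)
    (hs : ∑ x, wt m a x = 1) (hj : j ≤ m + 1) : ∑ x, uu V * a x ^ j ≤ 2 := by
  calc ∑ x, uu V * a x ^ j ≤ ∑ x, (uu V + wt m a x) := by
        refine Finset.sum_le_sum fun x _ => ?_
        have := mul_le_mul_of_nonneg_left (pow_le_one_add_pow (ha x) hj) (uu_pos (V := V)).le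
        unfold wt
        linarith
    _ = 2 := by rw [Finset.sum_add_distrib, sum_uu, hs]; norm_num

lemma IsMaxT.a_le [Nonempty V] {T : V → V → V → ℝ} {m : ℕ} {a b c : V → ℝ} {Λ : ℝ}
    (h : IsMaxT T m a b c Λ) (hT : ∀ x y z, 0 ≤ T x y z) (hT1 : ∀ x y z, T x y z ≤ 1)
    (hΛ : 0 < Λ) (hm : 1 ≤ m) (x : V) : a x ≤ 4 / Λ := by
  have hu := uu_pos (V := V)
  rw [le_div_iff₀ hΛ, mul_comm, ← h.euler hT hΛ hm x]
  have hb := low_moment (j := m) h.b0 h.sb (by omega)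
  have hc := low_moment (j := m) h.c0 h.sc (by omega)
  have hb0 : 0 ≤ ∑ x, uu V * b x ^ m :=
    Finset.sum_nonneg fun x _ => mul_nonneg hu.le (pow_nonneg (h.b0 x) _)
  have hc0 : 0 ≤ ∑ x, uu V * c x ^ m :=
    Finset.sum_nonneg fun x _ => mul_nonneg hu.le (pow_nonneg (h.c0 x) _)
  calc deg T m b c x ≤ (∑ y, uu V * b y ^ m) * ∑ z, uu V * c z ^ m := by
        rw [Finset.sum_mul_sum]
        refine Finset.sum_le_sum fun y _ => Finset.sum_le_sum fun z _ => ?_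
        have := h.b0 y
        have := h.c0 z
        exact mul_le_of_le_one_left (by positivity) (hT1 x y z)
    _ ≤ 2 * 2 := mul_le_mul hb hc hc0 (by norm_num)
    _ = 4 := by norm_num

/-- pair marginal, unnormalised -/
noncomputable def pm (T : V → V → V → ℝ) (m : ℕ) (b : V → ℝ) (x z : V) : ℝ :=
  ∑ y, T x y z * (uu V * b y ^ m)

/-- the normalised pair kernel -/
noncomputable def phi (T : V → V → V → ℝ) (m : ℕ) (a b c : V → ℝ) (Λ : ℝ) (x z : V) : ℝ :=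
  pm T m b x z / (Λ * a x * c z)

lemma pm_nonneg [Nonempty V] {T : V → V → V → ℝ} (hT : ∀ x y z, 0 ≤ T x y z) (m : ℕ)
    {b : V → ℝ} (hb : ∀ x, 0 ≤ b x) (x z : V) : 0 ≤ pm T m b x z :=
  Finset.sum_nonneg fun y _ =>
    mul_nonneg (hT x y z) (mul_nonneg uu_pos.le (pow_nonneg (hb y) _))

lemma IsMaxT.phi_nonneg [Nonempty V] {T : V → V → V → ℝ} {m : ℕ} {a b c : V → ℝ} {Λ : ℝ}
    (h : IsMaxT T m a b c Λ) (hT : ∀ x y z, 0 ≤ T x y z) (hΛ : 0 < Λ) (x z : V) :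
    0 ≤ phi T m a b c Λ x z :=
  div_nonneg (pm_nonneg hT m h.b0 x z) (mul_nonneg (mul_nonneg hΛ.le (h.a0 x)) (h.c0 z))

lemma IsMaxT.phi_le [Nonempty V] {T : V → V → V → ℝ} {m : ℕ} {a b c : V → ℝ} {Λ : ℝ}
    (h : IsMaxT T m a b c Λ) (hΛ : 0 < Λ) {C : V → V → ℝ} (hC0 : ∀ x z, 0 ≤ C x z)
    (hC : ∀ x y z, T x y z ≤ C x z) (x z : V) :
    phi T m a b c Λ x z ≤ 2 / Λ * C x z * ((a x)⁻¹ * (c z)⁻¹) := by
  have hu := uu_pos (V := V)
  have h1 : pm T m b x z ≤ C x z * 2 := by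
    calc pm T m b x z ≤ ∑ y, C x z * (uu V * b y ^ m) :=
          Finset.sum_le_sum fun y _ => mul_le_mul_of_nonneg_right (hC x y z)
            (mul_nonneg hu.le (pow_nonneg (h.b0 y) _))
      _ = C x z * ∑ y, uu V * b y ^ m := by rw [Finset.mul_sum]
      _ ≤ C x z * 2 :=
          mul_le_mul_of_nonneg_left (low_moment (j := m) h.b0 h.sb (by omega)) (hC0 x z)
  unfold phi
  calc _ ≤ C x z * 2 / (Λ * a x * c z) :=
        div_le_div_of_nonneg_right h1 (mul_nonneg (mul_nonneg hΛ.le (h.a0 x)) (h.c0 z))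
    _ = _ := by
        rw [div_eq_mul_inv, div_eq_mul_inv, mul_inv, mul_inv]
        ring

lemma wt_mul_inv {m : ℕ} (hm : 1 ≤ m) (a : V → ℝ) (x : V) :
    wt m a x * (a x)⁻¹ = uu V * a x ^ m := by
  unfold wt
  by_cases h : a x = 0
  · rw [h, zero_pow (by omega : m ≠ 0)]
    simp
  · rw [pow_succ]
    field_simp

lemma wt_phi {m : ℕ} (hm : 1 ≤ m) (T : V → V → V → ℝ) (a b c : V → ℝ) (Λ : ℝ) (x z : V) :
    wt m c z * phi T m a b c Λ x z = uu V * c z ^ m * pm T m b x z / (Λ * a x) := by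
  rw [← wt_mul_inv hm c z]
  unfold phi
  rw [div_eq_mul_inv, div_eq_mul_inv, mul_inv (Λ * a x)]
  ring

lemma wt_wt_phi {m : ℕ} (hm : 1 ≤ m) (T : V → V → V → ℝ) (a b c : V → ℝ) {Λ : ℝ}
    (hΛ : 0 < Λ) (x z : V) :
    Λ * (wt m a x * (wt m c z * phi T m a b c Λ x z)) =
      uu V * a x ^ m * (uu V * c z ^ m) * pm T m b x z := by
  rw [wt_phi hm, ← wt_mul_inv hm a x, div_eq_mul_inv, mul_inv]
  field_simp

lemma deg_eq_pm (T : V → V → V → ℝ) (m : ℕ) (b c : V → ℝ) (x : V) :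
    deg T m b c x = ∑ z, uu V * c z ^ m * pm T m b x z := by
  unfold deg pm
  rw [Finset.sum_comm]
  simp only [Finset.mul_sum]
  refine Finset.sum_congr rfl fun z _ => Finset.sum_congr rfl fun y _ => by ring

lemma IsMaxT.phi_marg [Nonempty V] {T : V → V → V → ℝ} {m : ℕ} {a b c : V → ℝ} {Λ : ℝ}
    (h : IsMaxT T m a b c Λ) (hT : ∀ x y z, 0 ≤ T x y z) (hΛ : 0 < Λ) (hm : 1 ≤ m) (x : V)
    (hx : wt m a x ≠ 0) : ∑ z, wt m c z * phi T m a b c Λ x z = 1 := by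
  have ha : a x ≠ 0 := by
    intro h0
    apply hx
    unfold wt
    rw [h0]
    simp
  simp only [wt_phi hm]
  rw [← Finset.sum_div, ← deg_eq_pm, h.euler hT hΛ hm x]
  exact div_self (mul_ne_zero hΛ.ne' ha)

lemma IsMaxT.phi_total [Nonempty V] {T : V → V → V → ℝ} {m : ℕ} {a b c : V → ℝ} {Λ : ℝ}
    (h : IsMaxT T m a b c Λ) (hT : ∀ x y z, 0 ≤ T x y z) (hΛ : 0 < Λ) (hm : 1 ≤ m) :
    ∑ x, ∑ z, wt m a x * wt m c z * phi T m a b c Λ x z = 1 := by
  rw [← h.sa]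
  refine Finset.sum_congr rfl fun x _ => ?_
  by_cases hx : wt m a x = 0
  · simp [hx]
  · simp only [mul_assoc]
    rw [← Finset.mul_sum, h.phi_marg hT hΛ hm x hx, mul_one]

lemma wt_mul_inv_sq {m : ℕ} (a : V → ℝ) [Nonempty V] (x : V) :
    wt (m + 1) a x * ((a x)⁻¹) ^ 2 ≤ uu V * a x ^ m := by
  unfold wt
  by_cases h : a x = 0
  · rw [h]
    have := uu_pos (V := V)
    simp only [inv_zero]
    rw [zero_pow (by omega : 2 ≠ 0), mul_zero]
    positivity
  · apply le_of_eq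
    rw [pow_succ, pow_succ]
    field_simp

lemma IsMaxT.phi_sq [Nonempty V] {T : V → V → V → ℝ} {m : ℕ} {a b c : V → ℝ} {Λ : ℝ}
    (h : IsMaxT T m a b c Λ) (hT : ∀ x y z, 0 ≤ T x y z) (hT1 : ∀ x y z, T x y z ≤ 1)
    (hΛ : 0 < Λ) (hm : 1 ≤ m) :
    ∑ x, ∑ z, wt m a x * wt m c z * phi T m a b c Λ x z ^ 2 ≤ (4 / Λ) ^ 2 := by
  obtain ⟨k, rfl⟩ : ∃ k, m = k + 1 := ⟨m - 1, by omega⟩
  have hu := uu_pos (V := V)
  have ha := low_moment (j := k) h.a0 h.sa (by omega)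
  have hc := low_moment (j := k) h.c0 h.sc (by omega)
  have hc0 : 0 ≤ ∑ x, uu V * c x ^ k :=
    Finset.sum_nonneg fun x _ => mul_nonneg hu.le (pow_nonneg (h.c0 x) _)
  calc _ ≤ ∑ x, ∑ z, (2 / Λ) ^ 2 * ((uu V * a x ^ k) * (uu V * c z ^ k)) := by
        refine Finset.sum_le_sum fun x _ => Finset.sum_le_sum fun z _ => ?_
        have h1 := h.phi_le hΛ (C := fun _ _ => 1) (fun _ _ => zero_le_one) hT1 x z
        have h2 := pow_le_pow_left₀ (h.phi_nonneg hT hΛ x z) h1 2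
        have h3 := wt_mul_inv_sq (m := k) a x
        have h4 := wt_mul_inv_sq (m := k) c z
        have h5 := wt_nonneg (k + 1) h.a0 x
        have h6 := wt_nonneg (k + 1) h.c0 z
        calc _ ≤ wt (k + 1) a x * wt (k + 1) c z * (2 / Λ * 1 * ((a x)⁻¹ * (c z)⁻¹)) ^ 2 :=
              mul_le_mul_of_nonneg_left h2 (mul_nonneg h5 h6)
          _ = (2 / Λ) ^ 2 * ((wt (k + 1) a x * ((a x)⁻¹) ^ 2) *
                (wt (k + 1) c z * ((c z)⁻¹) ^ 2)) := by ring
          _ ≤ _ := by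
              refine mul_le_mul_of_nonneg_left ?_ (by positivity)
              exact mul_le_mul h3 h4 (by positivity) (mul_nonneg hu.le (pow_nonneg (h.a0 x) _))
    _ = (2 / Λ) ^ 2 * ((∑ x, uu V * a x ^ k) * ∑ z, uu V * c z ^ k) := by
        rw [Finset.sum_mul_sum]
        simp only [Finset.mul_sum]
    _ ≤ (2 / Λ) ^ 2 * (2 * 2) :=
        mul_le_mul_of_nonneg_left (mul_le_mul ha hc hc0 (by norm_num)) (by positivity)
    _ = (4 / Λ) ^ 2 := by ring

/-- hypercontractivity of the codegree kernel -/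
lemma IsMaxT.ker_row [Nonempty V] {T : V → V → V → ℝ} {m : ℕ} {a b c : V → ℝ} {Λ : ℝ}
    (h : IsMaxT T m a b c Λ) (hT : ∀ x y z, 0 ≤ T x y z) (hΛ : 0 < Λ) (hm : 1 ≤ m) (x' : V)
    (hx : wt m a x' ≠ 0) :
    ∑ x, wt m a x * ker (wt m c) (phi T m a b c Λ) (phi T m a b c Λ) x x' ^ (m + 1) ≤
      ∑ z, wt m c z * phi T m a b c Λ x' z ^ 2 := by
  set φ := phi T m a b c Λ with hφ
  have hφ0 : ∀ x z, 0 ≤ φ x z := h.phi_nonneg hT hΛ
  set κ : V → ℝ := fun x => ker (wt m c) φ φ x x' with hκ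
  have hκ0 : ∀ x, 0 ≤ κ x := fun x => ker_nonneg (wt_nonneg m h.c0) hφ0 hφ0 x x'
  set r : V → ℝ := fun z => φ x' z ^ ((m : ℝ)⁻¹) with hr
  have hr0 : ∀ z, 0 ≤ r z := fun z => Real.rpow_nonneg (hφ0 x' z) _
  have hrm : ∀ z, r z ^ m = φ x' z := fun z => Real.rpow_inv_natCast_pow (hφ0 x' z) (by omega)
  set K := ∑ x, wt m a x * κ x ^ (m + 1) with hK
  have hK0 : 0 ≤ K :=
    Finset.sum_nonneg fun x _ => mul_nonneg (wt_nonneg m h.a0 x) (pow_nonneg (hκ0 x) _)
  set J := ∑ z, (wt m c z * φ x' z) * r z with hJ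
  have e1 : ∑ x, wt m (fun x => a x * κ x) x = K := by
    refine Finset.sum_congr rfl fun x _ => ?_
    unfold wt
    rw [mul_pow, mul_assoc]
  have e2 : ∑ z, wt m (fun z => c z * r z) z = J := by
    refine Finset.sum_congr rfl fun z _ => ?_
    rw [← hrm z]
    unfold wt
    rw [mul_pow]
    ring
  have e3 : form T m (fun x => a x * κ x) b (fun z => c z * r z) = Λ * K := by
    rw [form_eq_deg, hK, Finset.mul_sum]
    refine Finset.sum_congr rfl fun x _ => ?_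
    rw [deg_eq_pm, Finset.mul_sum]
    have e : Λ * (wt m a x * κ x ^ (m + 1)) =
        ∑ z, κ x ^ m * φ x' z * (Λ * (wt m a x * (wt m c z * φ x z))) := by
      rw [pow_succ]
      nth_rewrite 2 [hκ]
      simp only [ker, Finset.mul_sum]
      exact Finset.sum_congr rfl fun z _ => by ring
    rw [e]
    refine Finset.sum_congr rfl fun z _ => ?_
    rw [hφ, wt_wt_phi hm T a b c hΛ x z, ← hφ, mul_pow, mul_pow, hrm]
    ring
  have i1 := h.hom (fun x => a x * κ x) b (fun z => c z * r z)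
    (fun x => mul_nonneg (h.a0 x) (hκ0 x)) h.b0 (fun z => mul_nonneg (h.c0 z) (hr0 z))
  rw [e1, e2, e3, h.sb, mul_one, mul_pow, mul_pow] at i1
  have i2 : J ^ m ≤ ∑ z, wt m c z * φ x' z ^ 2 := by
    have := Real.pow_arith_mean_le_arith_mean_pow Finset.univ (fun z => wt m c z * φ x' z) r
      (fun z _ => mul_nonneg (wt_nonneg m h.c0 z) (hφ0 x' z)) (h.phi_marg hT hΛ hm x' hx)
      (fun z _ => hr0 z) m
    refine this.trans (le_of_eq ?_)
    refine Finset.sum_congr rfl fun z _ => ?_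
    rw [hrm]
    ring
  have hJ0 : 0 ≤ J := Finset.sum_nonneg fun z _ =>
    mul_nonneg (mul_nonneg (wt_nonneg m h.c0 z) (hφ0 x' z)) (hr0 z)
  exact (le_of_pow_succ_le (pow_nonneg hJ0 m) (le_of_mul_le_mul_left i1 (pow_pos hΛ _))
    hK0).trans i2

lemma IsMaxT.mom_le [Nonempty V] {T : V → V → V → ℝ} {m : ℕ} {a b c : V → ℝ} {Λ : ℝ}
    (h : IsMaxT T m a b c Λ) (hT : ∀ x y z, 0 ≤ T x y z) (hT1 : ∀ x y z, T x y z ≤ 1)
    (hΛ : 0 < Λ) (hm : 1 ≤ m) :
    mom (wt m a) (wt m a) (wt m c) (phi T m a b c Λ) (phi T m a b c Λ) (fun _ _ => 1) (m + 1) ≤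
      (4 / Λ) ^ 2 := by
  refine le_trans ?_ (h.phi_sq hT hT1 hΛ hm)
  unfold mom
  rw [Finset.sum_comm]
  refine Finset.sum_le_sum fun x' _ => ?_
  by_cases hx : wt m a x' = 0
  · simp [hx]
  · have := mul_le_mul_of_nonneg_left (h.ker_row hT hΛ hm x' hx) (wt_nonneg m h.a0 x')
    rw [Finset.mul_sum, Finset.mul_sum] at this
    refine le_of_eq_of_le ?_ (this.trans (le_of_eq ?_))
    · exact Finset.sum_congr rfl fun x _ => by ring
    · exact Finset.sum_congr rfl fun x _ => by ring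

end Pool.Agent.Work.MP_af588c_co
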