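import Mathlib
import Pool.Agent.Work.MP_af588c_co.Max

/-! The count of complete tripartite configurations in a triangle host. -/

namespace Pool.Agent.Work.MP_af588c_co

open Finset

variable {V : Type*} [Fintype V]

/-- weighted number of copies of the complete tripartite graph with parts of size `t` -/
def cnt (A B C : V → V → ℝ) (t : ℕ) : ℝ :=
  ∑ S : Fin t → V, ∑ ξ : Fin t → V, ∑ η : Fin t → V,
    (∏ j, ∏ i, A (ξ i) (η j)) * (∏ j, ∏ l, B (η j) (S l)) * ∏ i, ∏ l, C (ξ i) (S l)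

lemma prod_prod_split {t : ℕ} (D : ℝ) (C : Fin t → Fin t → ℝ) (α γ : Fin t → ℝ) :
    ∏ i, ∏ l, (D * C i l * (α i * γ l)) =
      D ^ (t * t) * (∏ i, ∏ l, C i l) * ((∏ i, α i ^ t) * ∏ l, γ l ^ t) := by
  simp only [Finset.prod_mul_distrib, Finset.prod_const, Finset.card_univ, Fintype.card_fin,
    Finset.prod_pow, pow_mul]

lemma vertex_bound [Nonempty V] {m t : ℕ} {a : V → ℝ} {β : ℝ} (ha : ∀ x, 0 ≤ a x)
    (hb : ∀ x, a x ≤ β) (hβ : 1 ≤ β) (ht : 2 * t ≤ m + 1) (x : V) :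
    wt m a x * ((a x)⁻¹ ^ t * (a x)⁻¹ ^ t) ≤ uu V * β ^ (m + 1) := by
  have hu := uu_pos (V := V)
  unfold wt
  by_cases h : a x = 0
  · rw [h, zero_pow (by omega : m + 1 ≠ 0), mul_zero, zero_mul]
    positivity
  · obtain ⟨k, hk⟩ : ∃ k, m + 1 = k + t + t := ⟨m + 1 - 2 * t, by omega⟩
    have e : uu V * a x ^ (m + 1) * ((a x)⁻¹ ^ t * (a x)⁻¹ ^ t) = uu V * a x ^ k := by
      rw [hk, pow_add, pow_add, inv_pow]
      field_simp
    rw [e]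
    refine mul_le_mul_of_nonneg_left ?_ hu.le
    exact (pow_le_pow_left₀ (ha x) (hb x) k).trans (pow_le_pow_right₀ hβ (by omega))

lemma prod_vertex_bound [Nonempty V] {m t : ℕ} {a : V → ℝ} {β : ℝ} (ha : ∀ x, 0 ≤ a x)
    (hb : ∀ x, a x ≤ β) (hβ : 1 ≤ β) (ht : 2 * t ≤ m + 1) (ξ : Fin t → V) :
    (∏ i, wt m a (ξ i)) * ((∏ i, (a (ξ i))⁻¹ ^ t) * ∏ i, (a (ξ i))⁻¹ ^ t) ≤
      (uu V * β ^ (m + 1)) ^ t := by
  rw [← Finset.prod_mul_distrib, ← Finset.prod_mul_distrib]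
  calc _ ≤ ∏ _i : Fin t, uu V * β ^ (m + 1) := by
        refine Finset.prod_le_prod (fun i _ => ?_) (fun i _ => vertex_bound ha hb hβ ht _)
        have := wt_nonneg m ha (ξ i)
        have := ha (ξ i)
        positivity
    _ = _ := by simp

lemma trip_le_cnt [Nonempty V] {m t : ℕ} {a b c : V → ℝ} {β D : ℝ} {A B C f g h : V → V → ℝ}
    (ha : ∀ x, 0 ≤ a x) (hb : ∀ x, 0 ≤ b x) (hc : ∀ x, 0 ≤ c x)
    (ha' : ∀ x, a x ≤ β) (hb' : ∀ x, b x ≤ β) (hc' : ∀ x, c x ≤ β) (hβ : 1 ≤ β) (hD : 0 ≤ D)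
    (ht : 2 * t ≤ m + 1) (hA : ∀ x y, 0 ≤ A x y) (hB : ∀ x y, 0 ≤ B x y) (hC : ∀ x y, 0 ≤ C x y)
    (hf0 : ∀ x y, 0 ≤ f x y) (hg0 : ∀ x y, 0 ≤ g x y) (hh0 : ∀ x y, 0 ≤ h x y)
    (hf : ∀ x z, f x z ≤ D * C x z * ((a x)⁻¹ * (c z)⁻¹))
    (hg : ∀ y z, g y z ≤ D * B y z * ((b y)⁻¹ * (c z)⁻¹))
    (hh : ∀ x y, h x y ≤ D * A x y * ((a x)⁻¹ * (b y)⁻¹)) :
    trip (wt m a) (wt m b) (wt m c) f g h t ≤
      (D ^ (t * t)) ^ 3 * ((uu V * β ^ (m + 1)) ^ t) ^ 3 * cnt A B C t := by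
  unfold trip cnt bip
  simp only [Finset.mul_sum]
  refine Finset.sum_le_sum fun S _ => Finset.sum_le_sum fun ξ _ => Finset.sum_le_sum fun η _ => ?_
  have e1 : tw (fun x => wt m a x * tp f S x) ξ =
      (∏ i, wt m a (ξ i)) * ∏ i, ∏ l, f (ξ i) (S l) := by
    unfold tw tp
    rw [Finset.prod_mul_distrib]
  have e2 : tw (fun x => wt m b x * tp g S x) η =
      (∏ i, wt m b (η i)) * ∏ i, ∏ l, g (η i) (S l) := by
    unfold tw tp
    rw [Finset.prod_mul_distrib]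
  have i1 : ∏ i, ∏ l, f (ξ i) (S l) ≤ D ^ (t * t) * (∏ i, ∏ l, C (ξ i) (S l)) *
      ((∏ i, (a (ξ i))⁻¹ ^ t) * ∏ l, (c (S l))⁻¹ ^ t) := by
    rw [← prod_prod_split]
    exact Finset.prod_le_prod (fun i _ => Finset.prod_nonneg fun l _ => hf0 _ _)
      fun i _ => Finset.prod_le_prod (fun l _ => hf0 _ _) fun l _ => hf _ _
  have i2 : ∏ i, ∏ l, g (η i) (S l) ≤ D ^ (t * t) * (∏ i, ∏ l, B (η i) (S l)) *
      ((∏ i, (b (η i))⁻¹ ^ t) * ∏ l, (c (S l))⁻¹ ^ t) := by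
    rw [← prod_prod_split]
    exact Finset.prod_le_prod (fun i _ => Finset.prod_nonneg fun l _ => hg0 _ _)
      fun i _ => Finset.prod_le_prod (fun l _ => hg0 _ _) fun l _ => hg _ _
  have i3 : ∏ j, ∏ i, h (ξ i) (η j) ≤ D ^ (t * t) * (∏ j, ∏ i, A (ξ i) (η j)) *
      ((∏ j, (b (η j))⁻¹ ^ t) * ∏ i, (a (ξ i))⁻¹ ^ t) := by
    rw [← prod_prod_split]
    exact Finset.prod_le_prod (fun i _ => Finset.prod_nonneg fun l _ => hh0 _ _)
      fun i _ => Finset.prod_le_prod (fun l _ => hh0 _ _) fun l _ =>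
        (hh _ _).trans (le_of_eq (by ring))
  have j1 := prod_vertex_bound ha ha' hβ ht ξ
  have j2 := prod_vertex_bound hb hb' hβ ht η
  have j3 := prod_vertex_bound hc hc' hβ ht S
  rw [e1, e2]
  unfold tw
  have p1 : 0 ≤ ∏ i, wt m a (ξ i) := Finset.prod_nonneg fun _ _ => wt_nonneg m ha _
  have p2 : 0 ≤ ∏ i, wt m b (η i) := Finset.prod_nonneg fun _ _ => wt_nonneg m hb _
  have p3 : 0 ≤ ∏ i, wt m c (S i) := Finset.prod_nonneg fun _ _ => wt_nonneg m hc _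
  have q1 : 0 ≤ ∏ i, (a (ξ i))⁻¹ ^ t :=
    Finset.prod_nonneg fun _ _ => pow_nonneg (inv_nonneg.2 (ha _)) _
  have q2 : 0 ≤ ∏ i, (b (η i))⁻¹ ^ t :=
    Finset.prod_nonneg fun _ _ => pow_nonneg (inv_nonneg.2 (hb _)) _
  have q3 : 0 ≤ ∏ i, (c (S i))⁻¹ ^ t :=
    Finset.prod_nonneg fun _ _ => pow_nonneg (inv_nonneg.2 (hc _)) _
  have r1 : 0 ≤ ∏ j, ∏ i, A (ξ i) (η j) :=
    Finset.prod_nonneg fun _ _ => Finset.prod_nonneg fun _ _ => hA _ _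
  have r2 : 0 ≤ ∏ j, ∏ i, B (η j) (S i) :=
    Finset.prod_nonneg fun _ _ => Finset.prod_nonneg fun _ _ => hB _ _
  have r3 : 0 ≤ ∏ j, ∏ i, C (ξ j) (S i) :=
    Finset.prod_nonneg fun _ _ => Finset.prod_nonneg fun _ _ => hC _ _
  have s1 : 0 ≤ ∏ i, ∏ l, f (ξ i) (S l) :=
    Finset.prod_nonneg fun _ _ => Finset.prod_nonneg fun _ _ => hf0 _ _
  have s2 : 0 ≤ ∏ i, ∏ l, g (η i) (S l) :=
    Finset.prod_nonneg fun _ _ => Finset.prod_nonneg fun _ _ => hg0 _ _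
  have s3 : 0 ≤ ∏ j, ∏ i, h (ξ i) (η j) :=
    Finset.prod_nonneg fun _ _ => Finset.prod_nonneg fun _ _ => hh0 _ _
  have hw : 0 ≤ (uu V * β ^ (m + 1)) ^ t := le_trans (by positivity) j1
  generalize (∏ i, wt m a (ξ i)) = P1 at *
  generalize (∏ i, wt m b (η i)) = P2 at *
  generalize (∏ i, wt m c (S i)) = P3 at *
  generalize (∏ i, (a (ξ i))⁻¹ ^ t) = Q1 at *
  generalize (∏ i, (b (η i))⁻¹ ^ t) = Q2 at *
  generalize (∏ i, (c (S i))⁻¹ ^ t) = Q3 at *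
  generalize (∏ j, ∏ i, A (ξ i) (η j)) = R1 at *
  generalize (∏ j, ∏ i, B (η j) (S i)) = R2 at *
  generalize (∏ j, ∏ i, C (ξ j) (S i)) = R3 at *
  generalize (∏ i, ∏ l, f (ξ i) (S l)) = S1 at *
  generalize (∏ i, ∏ l, g (η i) (S l)) = S2 at *
  generalize (∏ j, ∏ i, h (ξ i) (η j)) = S3 at *
  generalize (uu V * β ^ (m + 1)) ^ t = W at *
  have hE : 0 ≤ D ^ (t * t) := pow_nonneg hD _
  generalize D ^ (t * t) = E at *
  calc P3 * (P1 * S1 * (P2 * S2) * S3)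
      ≤ P3 * (P1 * (E * R3 * (Q1 * Q3)) * (P2 * (E * R2 * (Q2 * Q3))) * (E * R1 * (Q2 * Q1))) := by
        gcongr
    _ = E ^ 3 * ((P1 * (Q1 * Q1)) * (P2 * (Q2 * Q2)) * (P3 * (Q3 * Q3))) * (R1 * R2 * R3) := by
        ring
    _ ≤ E ^ 3 * (W * W * W) * (R1 * R2 * R3) := by gcongr
    _ = _ := by ring

lemma pow_le_choose_mul {s k : ℕ} (hs : 0 < s) : k ^ s ≤ (s * (k + 1)).choose s := by
  have h1 := Nat.pow_sub_le_descFactorial (s * (k + 1)) s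
  rw [Nat.descFactorial_eq_factorial_mul_choose] at h1
  have h2 : (s * k) ^ s ≤ (s * (k + 1) + 1 - s) ^ s := by
    refine Nat.pow_le_pow_left ?_ _
    rw [Nat.mul_succ]
    omega
  have h3 := Nat.mul_le_mul_right ((s * (k + 1)).choose s) (Nat.factorial_le_pow s)
  have h4 : s ^ s * k ^ s ≤ s ^ s * (s * (k + 1)).choose s := by
    rw [← mul_pow]
    exact h2.trans (h1.trans h3)
  exact Nat.le_of_mul_le_mul_left h4 (pow_pos hs _)

lemma bernoulli_half {q s t : ℕ} (hq : 0 < q) (ht : t ≤ q * s) :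
    (1 / 2 : ℝ) ^ s ≤ (1 - 1 / (2 * (q : ℝ))) ^ t := by
  have hq' : (1 : ℝ) ≤ q := by exact_mod_cast hq
  have h0 : 1 / (2 * (q : ℝ)) ≤ 1 := by
    rw [div_le_one (by positivity)]
    linarith
  have h1 : (1 / 2 : ℝ) ≤ (1 - 1 / (2 * (q : ℝ))) ^ q := by
    have := one_add_mul_le_pow (a := -(1 / (2 * (q : ℝ)))) (by linarith) q
    have e : 1 + (q : ℝ) * -(1 / (2 * (q : ℝ))) = 1 / 2 := by
      field_simp
      ring
    rw [e] at this
    exact this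
  have h2 : 0 ≤ 1 / (2 * (q : ℝ)) := by positivity
  calc (1 / 2 : ℝ) ^ s ≤ ((1 - 1 / (2 * (q : ℝ))) ^ q) ^ s := pow_le_pow_left₀ (by norm_num) h1 _
    _ = (1 - 1 / (2 * (q : ℝ))) ^ (q * s) := by rw [pow_mul]
    _ ≤ _ := pow_le_pow_of_le_one (by linarith) (by linarith) ht

lemma pow_collect (x u c : ℝ) (i j k t : ℕ) :
    ((x ^ i) ^ (t * t)) ^ 3 * ((u * (x ^ j) ^ k) ^ t) ^ 3 * c =
      x ^ (i * (t * t) * 3 + j * k * t * 3) * (u ^ (3 * t) * c) := by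
  rw [pow_add, mul_pow, mul_pow]
  simp only [← pow_mul]
  ring

theorem cnt_lower [Nonempty V] {A B C : V → V → ℝ} (hA : ∀ x y, 0 ≤ A x y)
    (hB : ∀ x y, 0 ≤ B x y) (hC : ∀ x y, 0 ≤ C x y) (hA1 : ∀ x y, A x y ≤ 1)
    (hB1 : ∀ x y, B x y ≤ 1) (hC1 : ∀ x y, C x y ≤ 1) {l : ℕ} (hl : 1 ≤ l)
    (hd : (1 / 2 : ℝ) ^ l ≤ uu V ^ 3 * ∑ x, ∑ y, ∑ z, A x y * B y z * C x z) (r : ℕ) :
    (1 / 2 : ℝ) ^ (700 * (l * ((r + 1) * (r + 1 + l)))) ≤
      uu V ^ (3 * (r + 1)) * cnt A B C (r + 1) := by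
  set T : V → V → V → ℝ := fun x y z => A x y * B y z * C x z with hTdef
  have hT : ∀ x y z, 0 ≤ T x y z := fun x y z => mul_nonneg (mul_nonneg (hA _ _) (hB _ _)) (hC _ _)
  have hTA : ∀ x z y, T x y z ≤ A x y := fun x z y => by
    calc T x y z = A x y * (B y z * C x z) := mul_assoc _ _ _
      _ ≤ A x y := mul_le_of_le_one_right (hA _ _) (mul_le_one₀ (hB1 _ _) (hC _ _) (hC1 _ _))
  have hTB : ∀ y x z, T x y z ≤ B y z := fun y x z => by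
    calc T x y z = B y z * (A x y * C x z) := by simp only [hTdef]; ring
      _ ≤ B y z := mul_le_of_le_one_right (hB _ _) (mul_le_one₀ (hA1 _ _) (hC _ _) (hC1 _ _))
  have hTC : ∀ x y z, T x y z ≤ C x z := fun x y z =>
    mul_le_of_le_one_left (hC _ _) (mul_le_one₀ (hA1 _ _) (hB _ _) (hB1 _ _))
  have hT1 : ∀ x y z, T x y z ≤ 1 := fun x y z => (hTC x y z).trans (hC1 _ _)
  set t := r + 1 with htdef
  set s := 4 * l + 10 with hs
  set q := t / s + 1 with hq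
  have hs0 : 0 < s := by omega
  have hq0 : 0 < q := Nat.succ_pos _
  have htq : t ≤ q * s := by
    have := Nat.lt_div_mul_add (a := t) hs0
    rw [hq, Nat.succ_mul]
    omega
  have hqt : q * s ≤ t + s := by
    have := Nat.div_mul_le_self t s
    rw [hq, Nat.succ_mul]
    omega
  obtain ⟨m, hm⟩ : ∃ m, m + 1 = s * (4 * q + 1) :=
    ⟨s * (4 * q + 1) - 1, Nat.sub_add_cancel (Nat.mul_pos hs0 (by omega))⟩
  have hM : m + 1 = 4 * (q * s) + s := by rw [hm]; ring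
  have hm1 : 1 ≤ m := by omega
  obtain ⟨a, b, c, Λ, h, hΛ1⟩ := exists_max hT m
  have hΛ2 : (1 / 2 : ℝ) ^ l ≤ Λ := by
    refine le_trans (hd.trans (le_of_eq ?_)) hΛ1
    unfold form
    simp only [Finset.mul_sum]
    refine Finset.sum_congr rfl fun x _ => Finset.sum_congr rfl fun y _ =>
      Finset.sum_congr rfl fun z _ => ?_
    simp only [hTdef, one_pow]
    ring
  have hΛ : 0 < Λ := lt_of_lt_of_le (by positivity) hΛ2
  have hinv : 1 / Λ ≤ 2 ^ l := by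
    rw [div_le_iff₀ hΛ]
    calc (1 : ℝ) = 2 ^ l * (1 / 2) ^ l := by rw [← mul_pow]; norm_num
      _ ≤ _ := mul_le_mul_of_nonneg_left hΛ2 (by positivity)
  have hβ : 4 / Λ ≤ 2 ^ (l + 2) := by
    calc 4 / Λ = 4 * (1 / Λ) := by ring
      _ ≤ 4 * 2 ^ l := by linarith
      _ = 2 ^ (l + 2) := by ring
  have hD : 2 / Λ ≤ 2 ^ (l + 1) := by
    calc 2 / Λ = 2 * (1 / Λ) := by ring
      _ ≤ 2 * 2 ^ l := by linarith
      _ = 2 ^ (l + 1) := by ring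
  have hR : (4 / Λ) ^ 2 ≤ 2 ^ (2 * l + 4) := by
    calc (4 / Λ) ^ 2 ≤ (2 ^ (l + 2)) ^ 2 := pow_le_pow_left₀ (by positivity) hβ _
      _ = 2 ^ (2 * l + 4) := by ring
  have h12 := h.swap12
  have h23 := h.swap23
  have h3 := h23.swap12
  have hf0 := h.phi_nonneg hT hΛ
  have hg0 := h12.phi_nonneg (fun _ _ _ => hT _ _ _) hΛ
  have hh0 := h23.phi_nonneg (fun _ _ _ => hT _ _ _) hΛ
  have hff := (h.mom_le hT hT1 hΛ hm1).trans hR
  have hgg := (h12.mom_le (fun _ _ _ => hT _ _ _) (fun _ _ _ => hT1 _ _ _) hΛ hm1).trans hR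
  have hq' : (1 : ℝ) ≤ q := by exact_mod_cast hq0
  have hη1 : 1 / (2 * (q : ℝ)) ≤ 1 := by
    rw [div_le_one (by positivity)]
    linarith
  have hch : 4 * ((2 : ℝ) ^ (2 * l + 4)) ^ 2 ≤ ((m + 1).choose s : ℝ) * (1 / (2 * (q : ℝ))) ^ s := by
    have h1 : (((4 * q) ^ s : ℕ) : ℝ) ≤ ((m + 1).choose s : ℝ) := by
      rw [hm]
      exact_mod_cast pow_le_choose_mul hs0
    calc 4 * ((2 : ℝ) ^ (2 * l + 4)) ^ 2 = 2 ^ s := by rw [hs]; ring
      _ = (((4 * q) ^ s : ℕ) : ℝ) * (1 / (2 * (q : ℝ))) ^ s := by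
          push_cast
          rw [← mul_pow]
          congr 1
          field_simp
          norm_num
      _ ≤ _ := mul_le_mul_of_nonneg_right h1 (by positivity)
  have k1 := tilt_lower (wt_nonneg m h.a0) (wt_nonneg m h.b0) (wt_nonneg m h.c0) h.sc hf0 hg0 hh0
    (h.phi_marg hT hΛ hm1) (h12.phi_marg (fun _ _ _ => hT _ _ _) hΛ hm1) t (by positivity)
    (by positivity) hη1 (s := s) ⟨2 * l + 5, by omega⟩ (by omega) hch
    (h23.phi_total (fun _ _ _ => hT _ _ _) hΛ hm1)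
    ((h23.phi_sq (fun _ _ _ => hT _ _ _) (fun _ _ _ => hT1 _ _ _) hΛ hm1).trans hR) hff hgg
  have k2 := flat_upper (wt_nonneg m h.a0) (wt_nonneg m h.b0) (wt_nonneg m h.c0) h.sa h.sb hf0 hg0
    (t := t) (by omega) hff hgg
  have one_le : (1 : ℝ) ≤ 2 ^ (2 * l + 4) := one_le_pow₀ (by norm_num)
  have k3 := trip_lower (wt_nonneg m h.a0) (wt_nonneg m h.b0) (wt_nonneg m h.c0) h.sc hf0 hg0 hh0
    (ν := (1 / 2) ^ s / 2) (B := 2 * 2 ^ (2 * l + 4)) (r := r) (by positivity) (by linarith)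
    (le_trans (by linarith [bernoulli_half hq0 htq]) k1) (k2.trans (by linarith))
  have k4 := trip_le_cnt (m := m) (t := t) (β := 2 ^ (l + 2)) (D := 2 / Λ) (A := A) (B := B)
    (C := C) h.a0 h.b0 h.c0
    (fun x => (h.a_le hT hT1 hΛ hm1 x).trans hβ)
    (fun x => (h12.a_le (fun _ _ _ => hT _ _ _) (fun _ _ _ => hT1 _ _ _) hΛ hm1 x).trans hβ)
    (fun x => (h3.a_le (fun _ _ _ => hT _ _ _) (fun _ _ _ => hT1 _ _ _) hΛ hm1 x).trans hβ)
    (one_le_pow₀ (by norm_num)) (by positivity) (by omega) hA hB hC hf0 hg0 hh0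
    (h.phi_le hΛ hC hTC) (h12.phi_le hΛ hB hTB) (h23.phi_le hΛ hA hTA)
  have hcnt : 0 ≤ cnt A B C t := by
    unfold cnt
    refine Finset.sum_nonneg fun _ _ => Finset.sum_nonneg fun _ _ => Finset.sum_nonneg fun _ _ => ?_
    exact mul_nonneg (mul_nonneg
      (Finset.prod_nonneg fun _ _ => Finset.prod_nonneg fun _ _ => hA _ _)
      (Finset.prod_nonneg fun _ _ => Finset.prod_nonneg fun _ _ => hB _ _))
      (Finset.prod_nonneg fun _ _ => Finset.prod_nonneg fun _ _ => hC _ _)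
  have hu := uu_pos (V := V)
  have e1 : ((1 / 2 : ℝ) ^ s / 2 / (4 * (2 * 2 ^ (2 * l + 4)))) = (1 / 2) ^ (6 * l + 18) := by
    rw [hs, one_div, inv_pow, inv_pow]
    field_simp
    ring
  rw [e1, ← htdef] at k3
  have k5 : (1 / 2 : ℝ) ^ ((6 * l + 18) * (t * t)) ≤
      2 ^ ((l + 1) * (t * t) * 3 + (l + 2) * (m + 1) * t * 3) * (uu V ^ (3 * t) * cnt A B C t) := by
    rw [pow_mul]
    refine k3.trans (k4.trans ?_)
    calc _ ≤ (((2 : ℝ) ^ (l + 1)) ^ (t * t)) ^ 3 * ((uu V * (2 ^ (l + 2)) ^ (m + 1)) ^ t) ^ 3 *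
          cnt A B C t := by gcongr
      _ = _ := pow_collect _ _ _ _ _ _ _
  have hE : (6 * l + 18) * (t * t) + ((l + 1) * (t * t) * 3 + (l + 2) * (m + 1) * t * 3) ≤
      700 * (l * (t * (t + l))) := by
    have h1 : m + 1 ≤ 70 * (t + l) := by omega
    have h2 : (l + 2) * (m + 1) ≤ (3 * l) * (70 * (t + l)) := Nat.mul_le_mul (by omega) h1
    have h3 : (l + 2) * (m + 1) * t * 3 ≤ (3 * l) * (70 * (t + l)) * t * 3 :=
      Nat.mul_le_mul_right _ (Nat.mul_le_mul_right _ h2)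
    have h4 : (6 * l + 18) * (t * t) ≤ (24 * l) * (t * (t + l)) :=
      Nat.mul_le_mul (by omega) (Nat.mul_le_mul_left _ (by omega))
    have h5 : (l + 1) * (t * t) * 3 ≤ (2 * l) * (t * (t + l)) * 3 :=
      Nat.mul_le_mul_right _ (Nat.mul_le_mul (by omega) (Nat.mul_le_mul_left _ (by omega)))
    have h6 : (24 * l) * (t * (t + l)) + ((2 * l) * (t * (t + l)) * 3 +
      (3 * l) * (70 * (t + l)) * t * 3) = 660 * (l * (t * (t + l))) := by ring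
    omega
  calc _ ≤ (1 / 2 : ℝ) ^ ((6 * l + 18) * (t * t) +
        ((l + 1) * (t * t) * 3 + (l + 2) * (m + 1) * t * 3)) :=
        pow_le_pow_of_le_one (by norm_num) (by norm_num) hE
    _ = (1 / 2 : ℝ) ^ ((l + 1) * (t * t) * 3 + (l + 2) * (m + 1) * t * 3) *
        (1 / 2 : ℝ) ^ ((6 * l + 18) * (t * t)) := by rw [pow_add, mul_comm]
    _ ≤ (1 / 2 : ℝ) ^ ((l + 1) * (t * t) * 3 + (l + 2) * (m + 1) * t * 3) *
        (2 ^ ((l + 1) * (t * t) * 3 + (l + 2) * (m + 1) * t * 3) *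
          (uu V ^ (3 * t) * cnt A B C t)) := mul_le_mul_of_nonneg_left k5 (by positivity)
    _ = _ := by
        rw [← mul_assoc, ← mul_pow]
        norm_num

end Pool.Agent.Work.MP_af588c_co
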