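import Mathlib
import Pool.Agent.Work.MP_af588c_co.Main

/-! Reduction of the hypergraph statement to the count of complete tripartite graphs. -/

namespace Pool.Agent.Work.MP_af588c_co

open Finset

variable {V : Type} [Fintype V] [DecidableEq V] (Γ : SimpleGraph V) [DecidableRel Γ.Adj]

/-- adjacency indicator -/
def adj (x y : V) : ℝ := if Γ.Adj x y then 1 else 0

omit [Fintype V] [DecidableEq V] in
lemma adj_nonneg (x y : V) : 0 ≤ adj Γ x y := by unfold adj; split_ifs <;> norm_num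

omit [Fintype V] [DecidableEq V] in
lemma adj_le_one (x y : V) : adj Γ x y ≤ 1 := by unfold adj; split_ifs <;> norm_num

lemma clique_le_sum : ((Γ.cliqueFinset 3).card : ℝ) ≤
    ∑ x, ∑ y, ∑ z, adj Γ x y * adj Γ y z * adj Γ x z := by
  have h1 : (Γ.cliqueFinset 3).card ≤ (Finset.univ.filter fun q : V × V × V =>
      Γ.Adj q.1 q.2.1 ∧ Γ.Adj q.2.1 q.2.2 ∧ Γ.Adj q.1 q.2.2).card := by
    refine Finset.card_le_card_of_surjOn (fun q => {q.1, q.2.1, q.2.2}) ?_
    intro s hs
    have hs' : Γ.IsNClique 3 s := by simpa using hs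
    obtain ⟨a, b, c, h1, h2, h3, rfl⟩ := SimpleGraph.is3Clique_iff.1 hs'
    exact ⟨(a, b, c), by simp [h1, h2, h3], rfl⟩
  calc ((Γ.cliqueFinset 3).card : ℝ) ≤ _ := Nat.cast_le.2 h1
    _ = ∑ q : V × V × V, adj Γ q.1 q.2.1 * adj Γ q.2.1 q.2.2 * adj Γ q.1 q.2.2 := by
        rw [Finset.card_filter]
        push_cast
        refine Finset.sum_congr rfl fun q _ => ?_
        unfold adj
        by_cases h1 : Γ.Adj q.1 q.2.1 <;> by_cases h2 : Γ.Adj q.2.1 q.2.2 <;>
          by_cases h3 : Γ.Adj q.1 q.2.2 <;> simp [h1, h2, h3]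
    _ = _ := by simp only [Fintype.sum_prod_type]

/-- complete tripartite configurations -/
def Good {t : ℕ} (q : (Fin t → V) × (Fin t → V) × (Fin t → V)) : Prop :=
  (∀ j i, Γ.Adj (q.2.1 i) (q.2.2 j)) ∧ (∀ j l, Γ.Adj (q.2.2 j) (q.1 l)) ∧
    ∀ i l, Γ.Adj (q.2.1 i) (q.1 l)

omit [DecidableEq V] in
open Classical in
lemma cnt_eq (t : ℕ) : cnt (adj Γ) (adj Γ) (adj Γ) t =
    ((Finset.univ.filter fun q : (Fin t → V) × (Fin t → V) × (Fin t → V) => Good Γ q).card : ℝ) := by
  rw [Finset.card_filter]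
  push_cast
  unfold cnt
  simp only [Fintype.sum_prod_type]
  refine Finset.sum_congr rfl fun S _ => Finset.sum_congr rfl fun ξ _ =>
    Finset.sum_congr rfl fun η _ => ?_
  unfold adj Good
  simp only [Finset.prod_boole, Finset.mem_univ, forall_true_left]
  split_ifs <;> simp_all

open Classical in
lemma good_le_hom {W : Type} [Fintype W] [DecidableEq W] (E : Finset (Finset W))
    (col : W → Fin 3) {t : ℕ} (hE : ∀ e ∈ E, e.card = 3 ∧ Set.InjOn col e)
    (ι : W → Fin 3 × Fin t) (hι : Function.Injective ι) (hc : ∀ w, (ι w).1 = col w) :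
    (Finset.univ.filter fun q : (Fin t → V) × (Fin t → V) × (Fin t → V) => Good Γ q).card ≤
      (Finset.univ.filter fun φ : W → V => ∀ e ∈ E, e.image φ ∈ Γ.cliqueFinset 3).card *
        Fintype.card V ^ (3 * t - Fintype.card W) := by
  have hcard : Fintype.card {j : Fin 3 × Fin t // j ∉ Set.range ι} = 3 * t - Fintype.card W := by
    rw [Fintype.card_subtype_compl, Fintype.card_prod, Fintype.card_fin, Fintype.card_fin]
    congr 1
    exact Set.card_range_of_injective hι
  set g : (Fin t → V) × (Fin t → V) × (Fin t → V) → Fin 3 × Fin t → V :=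
    fun q j => (![q.1, q.2.1, q.2.2] : Fin 3 → Fin t → V) j.1 j.2 with hg
  have ginj : Function.Injective g := by
    rintro ⟨S, ξ, η⟩ ⟨S', ξ', η'⟩ h
    have h0 : S = S' := funext fun i => congrFun h (0, i)
    have h1 : ξ = ξ' := funext fun i => congrFun h (1, i)
    have h2 : η = η' := funext fun i => congrFun h (2, i)
    rw [h0, h1, h2]
  have gadj : ∀ q, Good Γ q → ∀ j k : Fin 3 × Fin t, j.1 ≠ k.1 → Γ.Adj (g q j) (g q k) := by
    rintro q ⟨h1, h2, h3⟩ ⟨j, i⟩ ⟨k, l⟩ hne
    fin_cases j <;> fin_cases k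
    · exact absurd rfl hne
    · exact (h3 l i).symm
    · exact (h2 l i).symm
    · exact h3 i l
    · exact absurd rfl hne
    · exact h1 l i
    · exact h2 i l
    · exact (h1 i l).symm
    · exact absurd rfl hne
  rw [← hcard, ← Fintype.card_fun, ← Finset.card_univ, ← Finset.card_product]
  refine Finset.card_le_card_of_injOn
    (fun q => (fun w => g q (ι w), fun j : {j : Fin 3 × Fin t // j ∉ Set.range ι} => g q j.1))
    ?_ ?_
  · intro q hq
    have hq' : Good Γ q := by simpa using hq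
    simp only [Finset.coe_product, Set.mem_prod, Finset.mem_coe, Finset.mem_filter,
      Finset.mem_univ, true_and, and_true]
    intro e he
    obtain ⟨h3, hinj⟩ := hE e he
    have hadj : ∀ w ∈ e, ∀ w' ∈ e, w ≠ w' → Γ.Adj (g q (ι w)) (g q (ι w')) := by
      intro w hw w' hw' hne
      refine gadj q hq' _ _ ?_
      rw [hc, hc]
      exact fun h => hne (hinj hw hw' h)
    rw [SimpleGraph.mem_cliqueFinset_iff]
    constructor
    · intro x hx y hy hne
      obtain ⟨w, hw, rfl⟩ := Finset.mem_image.1 (Finset.mem_coe.1 hx)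
      obtain ⟨w', hw', rfl⟩ := Finset.mem_image.1 (Finset.mem_coe.1 hy)
      exact hadj w hw w' hw' fun h => hne (by rw [h])
    · rw [Finset.card_image_of_injOn, h3]
      intro w hw w' hw' h
      by_contra hne
      exact (hadj w hw w' hw' hne).ne h
  · intro q _ q' _ h
    apply ginj
    funext j
    by_cases hj : j ∈ Set.range ι
    · obtain ⟨w, rfl⟩ := hj
      exact congrFun (congrArg Prod.fst h) w
    · exact congrFun (congrArg Prod.snd h) ⟨j, hj⟩

lemma exists_iota {W : Type} [Fintype W] [DecidableEq W] (col : W → Fin 3) {t : ℕ}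
    (ht : ∀ i, (Finset.univ.filter fun w => col w = i).card ≤ t) :
    ∃ ι : W → Fin 3 × Fin t, Function.Injective ι ∧ ∀ w, (ι w).1 = col w := by
  have h : ∀ i, Nonempty ({w // col w = i} ↪ Fin t) := fun i =>
    Function.Embedding.nonempty_of_card_le (by
      rw [Fintype.card_subtype, Fintype.card_fin]
      exact ht i)
  let e : ∀ i, {w // col w = i} ↪ Fin t := fun i => (h i).some
  refine ⟨fun w => (col w, e (col w) ⟨w, rfl⟩), ?_, fun _ => rfl⟩
  intro w w' hw
  have h1 : col w = col w' := congrArg Prod.fst hw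
  have h2 : e (col w) ⟨w, rfl⟩ = e (col w') ⟨w', rfl⟩ := congrArg Prod.snd hw
  have h3 : ∀ (i : Fin 3) (hi : col w = i), e (col w) ⟨w, rfl⟩ = e i ⟨w, hi⟩ := by
    intro i hi
    subst hi
    rfl
  rw [h3 _ h1] at h2
  exact congrArg Subtype.val ((e _).injective h2)

lemma choose_level {p : ℝ} (hp : 0 < p) (hp2 : p ≤ 1 / 2) :
    ∃ l : ℕ, 1 ≤ l ∧ (1 / 2 : ℝ) ^ l ≤ p ∧ (l : ℝ) ≤ 3 * Real.log (1 / p) := by
  have h2 : 0.6931471803 < Real.log 2 := Real.log_two_gt_d9
  have hL : Real.log 2 ≤ Real.log (1 / p) := by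
    refine Real.log_le_log (by norm_num) ?_
    rw [le_div_iff₀ hp]
    linarith
  set L := Real.log (1 / p) with hLdef
  have hq : 1 ≤ L / Real.log 2 := by rw [le_div_iff₀ (by linarith)]; linarith
  refine ⟨⌈L / Real.log 2⌉₊, ?_, ?_, ?_⟩
  · exact Nat.one_le_ceil_iff.2 (by linarith)
  · have h3 : L ≤ ⌈L / Real.log 2⌉₊ * Real.log 2 := by
      rw [← div_le_iff₀ (by linarith)]
      exact Nat.le_ceil _
    have h4 : 1 / p ≤ 2 ^ ⌈L / Real.log 2⌉₊ := by
      rw [← Real.log_le_log_iff (by positivity) (by positivity), Real.log_pow]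
      exact h3
    rw [one_div, inv_pow, inv_le_comm₀ (by positivity) hp, ← one_div]
    exact h4
  · have h3 := (Nat.ceil_lt_add_one (a := L / Real.log 2) (by linarith)).le
    have h4 : L / Real.log 2 ≤ 1.5 * L := by
      rw [div_le_iff₀ (by linarith)]
      nlinarith
    nlinarith

theorem triangle_hosts [Nonempty V] {W : Type} [Fintype W] [DecidableEq W]
    (E : Finset (Finset W)) (col : W → Fin 3) (t : ℕ) (p : ℝ)
    (hE : ∀ e ∈ E, e.card = 3 ∧ Set.InjOn col e)
    (ht : ∀ i, (Finset.univ.filter fun w => col w = i).card ≤ t) (hp : 0 < p)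
    (hG : ((Γ.cliqueFinset 3).card : ℝ) = p * (Fintype.card V : ℝ) ^ 3) :
    p ^ ((6300 : ℝ) * t * (t + Real.log (1 / p))) * (Fintype.card V : ℝ) ^ Fintype.card W ≤
      ((Finset.univ.filter fun φ : W → V => ∀ e ∈ E, e.image φ ∈ Γ.cliqueFinset 3).card : ℝ) := by
  classical
  have hn : (0 : ℝ) < Fintype.card V := by exact_mod_cast Fintype.card_pos
  have hp2 : p ≤ 1 / 2 := by
    have h1 : ((Γ.cliqueFinset 3).card : ℝ) ≤ ((Fintype.card V).choose 3 : ℝ) := by
      exact_mod_cast SimpleGraph.card_cliqueFinset_le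
    have h2 : ((Fintype.card V).choose 3 : ℝ) ≤ (Fintype.card V : ℝ) ^ 3 / (Nat.factorial 3 : ℕ) :=
      Nat.choose_le_pow_div 3 _
    have h3 : p * (Fintype.card V : ℝ) ^ 3 ≤ 1 / 2 * (Fintype.card V : ℝ) ^ 3 := by
      rw [← hG]
      have : (0 : ℝ) < (Fintype.card V : ℝ) ^ 3 := by positivity
      norm_num [Nat.factorial] at h2
      linarith
    exact le_of_mul_le_mul_right h3 (by positivity)
  obtain ⟨l, hl1, hl2, hl3⟩ := choose_level hp hp2
  obtain ⟨ι, hι, hc⟩ := exists_iota col ht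
  have hW : Fintype.card W ≤ 3 * t := by
    simpa using Fintype.card_le_of_injective ι hι
  have key : (1 / 2 : ℝ) ^ (700 * (l * (t * (t + l)))) ≤
      uu V ^ (3 * t) * cnt (adj Γ) (adj Γ) (adj Γ) t := by
    cases t with
    | zero => simp [cnt]
    | succ r =>
      refine cnt_lower (adj_nonneg Γ) (adj_nonneg Γ) (adj_nonneg Γ) (adj_le_one Γ) (adj_le_one Γ)
        (adj_le_one Γ) hl1 (hl2.trans ?_) r
      have := mul_le_mul_of_nonneg_left (clique_le_sum Γ) (pow_nonneg (uu_pos (V := V)).le 3)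
      refine le_of_eq_of_le ?_ this
      rw [hG]
      unfold uu
      field_simp
  have h1 : cnt (adj Γ) (adj Γ) (adj Γ) t ≤
      ((Finset.univ.filter fun φ : W → V => ∀ e ∈ E, e.image φ ∈ Γ.cliqueFinset 3).card : ℝ) *
        (Fintype.card V : ℝ) ^ (3 * t - Fintype.card W) := by
    rw [cnt_eq]
    have := good_le_hom Γ E col hE ι hι hc
    refine ((Nat.cast_le (α := ℝ)).2 this).trans (le_of_eq ?_)
    rw [Nat.cast_mul, Nat.cast_pow]
  have h2 : p ^ ((6300 : ℝ) * t * (t + Real.log (1 / p))) ≤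
      (1 / 2 : ℝ) ^ (700 * (l * (t * (t + l)))) := by
    set L := Real.log (1 / p) with hL
    have hlog : Real.log p = -L := by rw [hL, one_div, Real.log_inv, neg_neg]
    have hL0 : 0 ≤ L := by
      have : (0 : ℝ) ≤ l := Nat.cast_nonneg _
      linarith
    have ht0 : (0 : ℝ) ≤ t := Nat.cast_nonneg _
    rw [← Real.log_le_log_iff (Real.rpow_pos_of_pos hp _) (by positivity), Real.log_rpow hp,
      Real.log_pow, hlog, one_div, Real.log_inv]
    have h3 : Real.log 2 ≤ 1 := by linarith [Real.log_two_lt_d9]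
    have h4 : 0 ≤ Real.log 2 := by linarith [Real.log_two_gt_d9]
    push_cast
    have h5 : (l : ℝ) * (t * (t + l)) ≤ (3 * L) * (t * (3 * t + 3 * L)) := by
      have : (0 : ℝ) ≤ l := Nat.cast_nonneg _
      gcongr
      linarith
    have h6 : (0 : ℝ) ≤ (l : ℝ) * (t * (t + l)) := by positivity
    nlinarith
  have h3 : uu V ^ (3 * t) * (Fintype.card V : ℝ) ^ (3 * t - Fintype.card W) *
      (Fintype.card V : ℝ) ^ Fintype.card W = 1 := by
    rw [mul_assoc, ← pow_add, Nat.sub_add_cancel hW, ← mul_pow]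
    unfold uu
    rw [inv_mul_cancel₀ hn.ne', one_pow]
  have hu := uu_pos (V := V)
  calc _ ≤ (uu V ^ (3 * t) * cnt (adj Γ) (adj Γ) (adj Γ) t) *
        (Fintype.card V : ℝ) ^ Fintype.card W :=
        mul_le_mul_of_nonneg_right (h2.trans key) (by positivity)
    _ ≤ (uu V ^ (3 * t) * (((Finset.univ.filter fun φ : W → V =>
          ∀ e ∈ E, e.image φ ∈ Γ.cliqueFinset 3).card : ℝ) *
        (Fintype.card V : ℝ) ^ (3 * t - Fintype.card W))) *
        (Fintype.card V : ℝ) ^ Fintype.card W := by gcongr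
    _ = ((Finset.univ.filter fun φ : W → V => ∀ e ∈ E, e.image φ ∈ Γ.cliqueFinset 3).card : ℝ) *
        (uu V ^ (3 * t) * (Fintype.card V : ℝ) ^ (3 * t - Fintype.card W) *
          (Fintype.card V : ℝ) ^ Fintype.card W) := by ring
    _ = _ := by rw [h3, mul_one]

end Pool.Agent.Work.MP_af588c_co
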